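import Pool.Agent.Y709.GStm

/-!
Statement of the counting part for the family `x ^ a (x - 1) ^ b (x - t) ^ c` (rank `2`, a large power of
`t` in the second row).
-/

set_option autoImplicit false

open Polynomial

namespace Pool.Agent.Y709

/-- Part G3: the number of polynomials with a fixed vector, rank two, with a row divisible by a large
power of the variable. -/
def CountTwo (k : Type) [Field k] (q : ℕ) : Prop :=
  ∀ (Φ : Matrix (Fin 2) (Fin 2) k[X]) (a g ρ M N : ℕ), Φ.det ≠ 0 →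
    (∀ j, (Φ 0 j).natDegree ≤ g) → (∀ j, X ^ a ∣ Φ 1 j) → (∀ j, (Φ 1 j).natDegree ≤ a + g) →
    a + 2 * g + 40 ≤ q → 3 ≤ ρ → a + g + ρ ≤ q - 1 → q ≤ M → N + 1 = (q - 1) * M + ρ →
    Nat.card {D : k[X] // D.natDegree ≤ N ∧ ∃ w : Fin 2 → k[X], w ≠ 0 ∧
      ∀ i, cart q (D * ∑ j, Φ i j * w j) = w i} ≤ 4 * q ^ N

end Pool.Agent.Y709
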