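import Pool.Agent.Y709.Cart
import Pool.Agent.W343.BSD.Euler
import Pool.Agent.W313.Hyp.Irr

/-!
Statements of the parts of the proof.
-/

set_option autoImplicit false

open Polynomial

namespace Pool.Agent.Y709

/-- Part L1: saturated lattices for the `q`-th powers. -/
def LatProp (k : Type) [Field k] (q : ℕ) : Prop :=
  ∀ v₁ v₂ : k[X], (∀ a b : k[X], expand k q a * v₁ + expand k q b * v₂ = 0 → a = 0 ∧ b = 0) →
  ∃ n₁ n₂ a b c d : k[X], n₁ ≠ 0 ∧ n₂ ≠ 0 ∧ n₁.natDegree ≤ n₂.natDegree ∧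
    ¬ n₁.natDegree ≡ n₂.natDegree [MOD q] ∧
    v₁ = expand k q a * n₁ + expand k q b * n₂ ∧
    v₂ = expand k q c * n₁ + expand k q d * n₂ ∧
    (a = 0 ∨ q * a.natDegree + n₁.natDegree ≤ v₁.natDegree) ∧
    (b = 0 ∨ q * b.natDegree + n₂.natDegree ≤ v₁.natDegree) ∧
    (c = 0 ∨ q * c.natDegree + n₁.natDegree ≤ v₂.natDegree) ∧
    (d = 0 ∨ q * d.natDegree + n₂.natDegree ≤ v₂.natDegree) ∧
    ∀ N : ℕ, (N + 1 + n₁.natDegree) / q + (N + 1 + n₂.natDegree) / q < 3 * ((N + 1) / q) →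
      Nat.card {D : k[X] // D.natDegree ≤ N ∧ cart q (D * v₁) = 0 ∧ cart q (D * v₂) = 0} *
        Nat.card k ^ ((N + 1 + n₁.natDegree) / q + (N + 1 + n₂.natDegree) / q) =
        Nat.card k ^ (N + 1)

/-- Part L2: the number of polynomials with a fixed vector. -/
def CountProp (k : Type) [Field k] (q : ℕ) : Prop :=
  ∀ N : ℕ, 3 * q ≤ N →
    Nat.card {D : k[X] // D.natDegree ≤ N ∧ ∃ w : k[X] × k[X], w ≠ 0 ∧ IsFixed q D w} ≤ 3 * q ^ N

end Pool.Agent.Y709
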