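import Mathlib.Algebra.Polynomial.Expand
import Mathlib.Algebra.Polynomial.Eval.SMul
import Mathlib.FieldTheory.Finite.Basic

/-!
The Cartier operator of the line over a finite field with `q` elements.
-/

set_option autoImplicit false

open Polynomial

namespace Pool.Agent.Y709

variable {k : Type} [Field k]

/-- The operator `∑ a_i t ^ i ↦ ∑ a_{q i + q - 1} t ^ i`. -/
noncomputable def cart (q : ℕ) (g : k[X]) : k[X] :=
  ∑ i ∈ Finset.range (g.natDegree + 1), monomial i (g.coeff (q * i + (q - 1)))

theorem coeff_cart {q : ℕ} (hq : 0 < q) (g : k[X]) (i : ℕ) :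
    (cart q g).coeff i = g.coeff (q * i + (q - 1)) := by
  unfold cart
  rw [finsetSum_coeff]
  simp only [coeff_monomial]
  rw [Finset.sum_ite_eq']
  split_ifs with h
  · rfl
  · rw [Finset.mem_range, not_lt] at h
    refine (coeff_eq_zero_of_natDegree_lt ?_).symm
    have : i ≤ q * i := Nat.le_mul_of_pos_left i hq
    omega

theorem cart_add {q : ℕ} (hq : 0 < q) (g h : k[X]) : cart q (g + h) = cart q g + cart q h := by
  ext i
  simp only [coeff_cart hq, coeff_add]

theorem cart_zero {q : ℕ} (hq : 0 < q) : cart q (0 : k[X]) = 0 := by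
  ext i
  simp only [coeff_cart hq, coeff_zero]

theorem cart_sub {q : ℕ} (hq : 0 < q) (g h : k[X]) : cart q (g - h) = cart q g - cart q h := by
  ext i
  simp only [coeff_cart hq, coeff_sub]

theorem cart_C_mul {q : ℕ} (hq : 0 < q) (c : k) (g : k[X]) :
    cart q (C c * g) = C c * cart q g := by
  ext i
  simp only [coeff_cart hq, coeff_C_mul]

theorem cart_expand_mul {q : ℕ} (hq : 0 < q) (h g : k[X]) :
    cart q (expand k q h * g) = h * cart q g := by
  induction h using Polynomial.induction_on' with
  | add a b ha hb => rw [map_add, add_mul, cart_add hq, ha, hb, add_mul]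
  | monomial n c =>
    ext i
    rw [coeff_cart hq, expand_monomial, ← C_mul_X_pow_eq_monomial, ← C_mul_X_pow_eq_monomial,
      mul_assoc, mul_assoc, coeff_C_mul, coeff_C_mul, coeff_X_pow_mul', coeff_X_pow_mul',
      coeff_cart hq]
    by_cases hn : n ≤ i
    · have h1 : n * q ≤ q * i := by
        rw [mul_comm n q]; exact Nat.mul_le_mul_left q hn
      rw [if_pos (by omega), if_pos hn]
      congr 2
      rw [Nat.mul_sub]
      rw [mul_comm n q] at h1 ⊢
      omega
    · have h1 : q * (i + 1) ≤ n * q := by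
        rw [mul_comm n q]; exact Nat.mul_le_mul_left q (by omega)
      rw [Nat.mul_add, mul_one] at h1
      rw [if_neg (by omega), if_neg hn]

/-- The first component of `6 Φ w`. -/
noncomputable def vone (w : k[X] × k[X]) : k[X] := (3 * X - 2) * w.1 + w.2

/-- The second component of `6 Φ w`. -/
noncomputable def vtwo (w : k[X] × k[X]) : k[X] := X ^ 3 * w.1 + (3 * X ^ 2 - 2 * X ^ 3) * w.2

/-- The pair `w` satisfies `C(D v) = 6 w`. -/
def IsFixed (q : ℕ) (D : k[X]) (w : k[X] × k[X]) : Prop :=
  cart q (D * vone w) = 6 * w.1 ∧ cart q (D * vtwo w) = 6 * w.2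

end Pool.Agent.Y709
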