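import Mathlib.FieldTheory.Finite.Extension
import Mathlib.FieldTheory.Normal.Basic
import Mathlib.FieldTheory.IsAlgClosed.AlgebraicClosure
import Pool.Agent.W313.Hyp.Irr

/-!
Sums over the elements of a finite field and over the closed points of the line.
-/

set_option autoImplicit false

open Polynomial Module

namespace Pool.Agent.Y709

open Pool.Agent.W313.Hyp

variable {k : Type} [Field k] [Finite k]

section sum

variable {E : Type} [Field E] [Algebra k E] [Fintype E]

/-- the minimal polynomial as a closed point -/
noncomputable def mp (k : Type) [Field k] [Finite k] {E : Type} [Field E] [Algebra k E] [Fintype E]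
    (θ : E) : MI k :=
  ⟨minpoly k θ, minpoly.monic (IsIntegral.of_finite k θ), minpoly.irreducible
    (IsIntegral.of_finite k θ)⟩

theorem mp_eq_iff (P : MI k) (θ : E) : mp k θ = P ↔ aeval θ P.1 = 0 := by
  constructor
  · rintro rfl
    exact minpoly.aeval k θ
  · intro h
    exact Subtype.ext (minpoly.eq_of_irreducible_of_monic P.2.2 h P.2.1).symm

open Classical in
theorem card_roots_MI (P : MI k) (h : P.1.natDegree ∣ finrank k E) :
    (Finset.univ.filter (fun θ : E => aeval θ P.1 = 0)).card = P.1.natDegree := by
  classical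
  have h1 : P.1 ∣ X ^ (Nat.card k) ^ (finrank k E) - X :=
    P.2.2.natDegree_dvd_iff_dvd_X_pow_card_pow_sub_X.1 h
  have hc : (Nat.card k) ^ (finrank k E) = Fintype.card E := by
    rw [← Module.natCard_eq_pow_finrank, Nat.card_eq_fintype_card]
  rw [hc] at h1
  have h2 : P.1.map (algebraMap k E) ∣ X ^ Fintype.card E - X := by
    have := Polynomial.map_dvd (algebraMap k E) h1
    rwa [Polynomial.map_sub, Polynomial.map_pow, map_X] at this
  have hne : (X ^ Fintype.card E - X : E[X]) ≠ 0 :=
    FiniteField.X_pow_card_sub_X_ne_zero E Fintype.one_lt_card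
  have hs0 : (X ^ Fintype.card E - X : E[X]).Splits := by
    rw [splits_iff_card_roots, FiniteField.roots_X_pow_card_sub_X,
      FiniteField.X_pow_card_sub_X_natDegree_eq E Fintype.one_lt_card]
    rfl
  have hs : (P.1.map (algebraMap k E)).Splits := hs0.of_dvd hne h2
  have hP0 : P.1.map (algebraMap k E) ≠ 0 := Polynomial.map_ne_zero P.2.1.ne_zero
  have hnd : (P.1.map (algebraMap k E)).roots.Nodup := by
    refine Multiset.nodup_of_le (Polynomial.roots.le_of_dvd hne h2) ?_
    rw [FiniteField.roots_X_pow_card_sub_X]
    exact Finset.univ.nodup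
  have h3 : (Finset.univ.filter (fun θ : E => aeval θ P.1 = 0)) =
      (P.1.map (algebraMap k E)).roots.toFinset := by
    ext θ
    rw [Finset.mem_filter, Multiset.mem_toFinset, mem_roots hP0, IsRoot.def, eval_map_algebraMap]
    simp
  rw [h3, Multiset.toFinset_card_of_nodup hnd, ← hs.natDegree_eq_card_roots, natDegree_map]

theorem sum_closed {n : ℕ} (hn : finrank k E = n) {A : Type} [AddCommMonoid A]
    (g : E → A) (G : MI k → A) (hG : ∀ (P : MI k) (θ : E), aeval θ P.1 = 0 → g θ = G P) :
    ∑ θ, g θ = ∑ P ∈ (finite_deg_le (F := k) n).toFinset,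
      if P.1.natDegree ∣ n then P.1.natDegree • G P else 0 := by
  classical
  have hn0 : 0 < n := by rw [← hn]; exact finrank_pos
  have hdvd : ∀ θ : E, (mp k θ).1.natDegree ∣ n := by
    intro θ
    rw [← hn]
    exact minpoly.degree_dvd (IsIntegral.of_finite k θ)
  rw [← Finset.sum_fiberwise_of_maps_to (t := (finite_deg_le (F := k) n).toFinset) (g := mp k)
    (fun θ _ => by
      rw [Set.Finite.mem_toFinset]
      exact Nat.le_of_dvd hn0 (hdvd θ))]
  refine Finset.sum_congr rfl fun P _ => ?_
  have h1 : (Finset.univ.filter fun θ : E => mp k θ = P) =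
      Finset.univ.filter (fun θ : E => aeval θ P.1 = 0) := by
    ext θ
    simp only [Finset.mem_filter, Finset.mem_univ, true_and]
    exact mp_eq_iff P θ
  have h2 : ∑ θ ∈ Finset.univ.filter (fun θ : E => mp k θ = P), g θ =
      (Finset.univ.filter (fun θ : E => aeval θ P.1 = 0)).card • G P := by
    rw [← Finset.sum_const, h1]
    refine Finset.sum_congr rfl fun θ hθ => ?_
    rw [Finset.mem_filter] at hθ
    exact hG P θ hθ.2
  rw [h2]
  split_ifs with hd
  · rw [card_roots_MI P (by rw [hn]; exact hd)]
  · have : Finset.univ.filter (fun θ : E => aeval θ P.1 = 0) = ∅ := by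
      rw [Finset.filter_eq_empty_iff]
      intro θ _ hθ
      apply hd
      rw [← (mp_eq_iff P θ).2 hθ]
      exact hdvd θ
    rw [this, Finset.card_empty, zero_smul]

end sum

section conj

variable {K : Type} [Field K] [Algebra k K]

/-- two roots of an irreducible polynomial differ by a power of the Frobenius -/
theorem exists_pow_root [Normal k K] (P : MI k) {a b : K} (ha : aeval a P.1 = 0)
    (hb : aeval b P.1 = 0) : ∃ i, b = a ^ (Nat.card k ^ i) := by
  obtain ⟨p, hp⟩ := CharP.exists k
  have hpf : Fact (Nat.Prime p) := ⟨CharP.char_is_prime k p⟩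
  have hma : minpoly k a = P.1 := (minpoly.eq_of_irreducible_of_monic P.2.2 ha P.2.1).symm
  have hmb : minpoly k b = P.1 := (minpoly.eq_of_irreducible_of_monic P.2.2 hb P.2.1).symm
  obtain ⟨σ, hσ⟩ := minpoly.exists_algEquiv_of_root' (K := k) (L := K) (x := b) (y := a)
    (Algebra.IsAlgebraic.isAlgebraic a) (by rw [hma]; exact hb)
  have hint : IsIntegral k a := (Algebra.IsAlgebraic.isAlgebraic a).isIntegral
  have hfd : FiniteDimensional k (IntermediateField.adjoin k {a}) :=
    IntermediateField.adjoin.finiteDimensional hint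
  have hfin : Finite (IntermediateField.adjoin k {a}) := Module.finite_of_finite k
  have hnorm : Normal k (IntermediateField.adjoin k {a}) := inferInstance
  obtain ⟨i, hi⟩ := FiniteField.exists_forall_apply_eq_pow k p (IntermediateField.adjoin k {a})
    (σ.restrictNormal (IntermediateField.adjoin k {a}))
  refine ⟨i, ?_⟩
  have h1 := hi (IntermediateField.AdjoinSimple.gen k a)
  have h2 := congrArg (algebraMap (IntermediateField.adjoin k {a}) K) h1
  rw [AlgEquiv.restrictNormal_commutes, map_pow, IntermediateField.AdjoinSimple.algebraMap_gen] at h2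
  rw [← hσ, h2]

end conj

end Pool.Agent.Y709
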