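import Pool.Agent.Y709.Loc3
import Mathlib.FieldTheory.Finite.Trace
import Mathlib.NumberTheory.JacobiSum.Basic

/-!
The functional equations of the fibres.
-/

set_option autoImplicit false

open Polynomial

namespace Pool.Agent.Y709

open Pool.Agent.W313.Hyp Pool.Agent.W343.BSD

section bad

variable {F : Type} [Field F] [Fintype F] [DecidableEq F] {R : Type} [CommRing R]

omit [DecidableEq F] in
theorem line_zero (χ : MulChar F R) : line (0, 1, 0) χ = jacobiSum (χ ^ 2) χ := by
  unfold line jacobiSum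
  refine Fintype.sum_equiv (Equiv.neg F) _ _ fun v => ?_
  rw [Equiv.neg_apply, MulChar.pow_apply' χ two_ne_zero, ← map_pow, ← map_mul]
  congr 1
  ring

omit [DecidableEq F] in
theorem line_one (χ : MulChar F R) : line (0, 1, 1) χ = χ (-1) * line (0, 1, 0) χ := by
  unfold line
  rw [Finset.mul_sum]
  refine Fintype.sum_equiv ((Equiv.addRight (1 : F)).trans (Equiv.neg F)) _ _ fun v => ?_
  rw [← map_mul]
  congr 1
  simp only [Equiv.trans_apply, Equiv.coe_addRight, Equiv.neg_apply]
  ring

variable [IsDomain R] [CharZero R]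

omit [DecidableEq F] in
theorem line_zero_mul {χ : MulChar F R} (h1 : χ ≠ 1) (h2 : χ ^ 2 ≠ 1) (h3 : χ ^ 3 ≠ 1) :
    line (0, 1, 0) χ * line (0, 1, 0) χ⁻¹ = (Fintype.card F : R) := by
  rw [line_zero, line_zero]
  have hinj : Function.Injective (algebraMap R (FractionRing R)) :=
    IsFractionRing.injective R (FractionRing R)
  have hcz : CharZero (FractionRing R) := charZero_of_injective_algebraMap hinj
  apply hinj
  rw [map_mul, ← jacobiSum_ringHomComp, ← jacobiSum_ringHomComp, map_natCast]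
  have e1 : ((χ⁻¹) ^ 2).ringHomComp (algebraMap R (FractionRing R)) =
      ((χ ^ 2).ringHomComp (algebraMap R (FractionRing R)))⁻¹ := by
    rw [MulChar.ringHomComp_inv, inv_pow]
  rw [e1, ← MulChar.ringHomComp_inv]
  refine jacobiSum_mul_jacobiSum_inv ?_ ((MulChar.ringHomComp_ne_one_iff hinj).2 h2)
    ((MulChar.ringHomComp_ne_one_iff hinj).2 h1) ?_
  · rw [ringChar.eq_zero]
    exact (CharP.ringChar_ne_zero_of_finite F).symm
  · rw [← MulChar.ringHomComp_mul, ← pow_succ]
    exact (MulChar.ringHomComp_ne_one_iff hinj).2 h3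

theorem line_bad_mul {χ : MulChar F R} (h1 : χ ≠ 1) (h2 : χ ^ 2 ≠ 1) (h3 : χ ^ 3 ≠ 1) {t : F}
    (ht : t = 0 ∨ t = 1) : line (0, 1, t) χ * line (0, 1, t) χ⁻¹ = (Fintype.card F : R) := by
  rcases ht with rfl | rfl
  · exact line_zero_mul h1 h2 h3
  · rw [line_one, line_one]
    have h5 : χ (-1) * χ⁻¹ (-1) = 1 := by
      rw [← MulChar.mul_apply, mul_inv_cancel,
        MulChar.one_apply (isUnit_iff_ne_zero.2 (neg_ne_zero.2 one_ne_zero))]
    rw [← line_zero_mul h1 h2 h3]
    linear_combination (line (0, 1, 0) χ * line (0, 1, 0) χ⁻¹) * h5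

end bad

section fib

variable {k F R K : Type} [Field k] [Fintype k] [Field F] [Fintype F] [Algebra k F]
  [CommRing R] [IsDomain R] [Field K] {q d : ℕ}

omit [Fintype F] in
theorem norm_alg [Finite F] (hk : Fintype.card k = q) (hF : Nat.card F = q ^ d) (a : F) :
    algebraMap k F (Algebra.norm k a) = a ^ nex q d := by
  have h1 := Module.natCard_eq_pow_finrank (K := k) (V := F)
  have hq1 : 1 < q := by rw [← hk]; exact Fintype.one_lt_card
  rw [hF, Nat.card_eq_fintype_card, hk] at h1
  have h2 := Nat.pow_right_injective hq1 h1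
  rw [FiniteField.algebraMap_norm_eq_pow_sum, ← h2, Nat.card_eq_fintype_card, hk]
  rfl

variable [FiniteDimensional k F] (π : R →+* K) (σ : F →+* K) (χ : MulChar k R)
  (hχ : ∀ u : k, π (χ u) = σ (algebraMap k F u))

include hχ in
omit [IsDomain R] in
theorem red_chi (hk : Fintype.card k = q) (hF : Fintype.card F = q ^ d) (a : F) :
    π (chiN F χ a) = σ (a ^ nex q d) := by
  rw [chiN_apply, hχ, norm_alg hk (by rw [Nat.card_eq_fintype_card, hF])]

include hχ in
omit [IsDomain R] in
theorem red_inv (h5 : 5 ≤ q) (hd : 0 < d) (hk : Fintype.card k = q)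
    (hF : Fintype.card F = q ^ d) (a : F) :
    π ((chiN F χ)⁻¹ a) = σ (a ^ ex q d) := by
  rw [MulChar.inv_apply', red_chi π σ χ hχ hk hF]
  by_cases ha : a = 0
  · rw [ha, inv_zero, zero_pow (nex_pos (by omega) hd).ne', zero_pow]
    exact (Nat.mul_pos (by omega) (nex_pos (by omega) hd)).ne'
  · have h1 := pow_ex_mul h5 hF ha
    rw [inv_pow, ← eq_inv_of_mul_eq_one_left h1]

include hχ in
omit [IsDomain R] in
theorem chiN_pow_ne (hk : Fintype.card k = q) (hF : Fintype.card F = q ^ d) (hd : 0 < d) {j : ℕ}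
    (hj : 0 < j) (hj' : j < q - 1) : (chiN F χ) ^ j ≠ 1 := by
  intro h
  have hq : 1 < q := by rw [← hk]; exact Fintype.one_lt_card
  have h1 : ∀ x : Fˣ, x ^ (j * nex q d) = 1 := by
    intro x
    have h2 : ((chiN F χ) ^ j) x = 1 := by rw [h, MulChar.one_apply_coe]
    rw [MulChar.pow_apply_coe] at h2
    have h3 := congrArg π h2
    rw [map_pow, red_chi π σ χ hχ hk hF, map_one, ← map_pow] at h3
    have h4 := σ.injective (h3.trans (map_one σ).symm)
    ext
    rw [Units.val_pow_eq_pow_val, Units.val_one, mul_comm, pow_mul]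
    exact h4
  rw [FiniteField.forall_pow_eq_one_iff, hF, ← nex_mul (by omega)] at h1
  have h2 := Nat.dvd_of_mul_dvd_mul_right (nex_pos (by omega) hd) h1
  exact absurd (Nat.le_of_dvd hj h2) (by omega)

omit [IsDomain R] [Fintype F] in
theorem red_dl [DecidableEq F] (x : F) : π (dl R x) = σ (dl F x) := by
  unfold dl
  split_ifs <;> simp

include hχ in
omit [IsDomain R] in
theorem red_line (h5 : 5 ≤ q) (hd : 0 < d) (hk : Fintype.card k = q)
    (hF : Fintype.card F = q ^ d) (t : F) :
    π (line (0, 1, t) (chiN F χ)⁻¹) = σ (lineP t (ex q d)) := by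
  unfold line lineP
  rw [map_sum, map_sum]
  refine Finset.sum_congr rfl fun v _ => ?_
  exact red_inv π σ χ hχ h5 hd hk hF _

include hχ in
omit [IsDomain R] in
theorem red_plane [DecidableEq F] (h5 : 5 ≤ q) (hd : 0 < d) (hk : Fintype.card k = q)
    (hF : Fintype.card F = q ^ d) (α : F × F × F) :
    π (plane α (chiN F χ)⁻¹) = σ (planeP α (ex q d)) := by
  unfold plane planeP
  rw [map_sum, map_sum]
  refine Finset.sum_congr rfl fun v _ => ?_
  rw [map_mul π, map_mul σ, red_dl π σ, red_inv π σ χ hχ h5 hd hk hF _]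

/-- the Euler product of a fibre -/
noncomputable def fibE (R : Type) [CommRing R] {k F : Type} [Field k] [Field F] [Algebra k F]
    (χ : MulChar k R) (c t : F) : PowerSeries R :=
  eulerProd (fun Q : MI F => Q.1.natDegree) (fun Q => 1 - PowerSeries.C
    (χ (Algebra.norm k (AdjoinRoot.mk Q.1 (C c * (X * (X - 1) * (X - C t)))))) *
      PowerSeries.X ^ Q.1.natDegree)

omit [Fintype k] [IsDomain R] in
theorem fibE_eq (c t : F) : fibE R χ c t * PowerSeries.mk (monSum (psi (chiN F χ) c (0, 1, t))) =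
    1 := by
  rw [← euler_wt (psi_one (chiN F χ) c (0, 1, t)) (psi_mul (chiN F χ) c (0, 1, t))]
  congr 1
  unfold fibE
  congr 1
  funext Q
  rw [← psi_eq_norm]
  simp

omit [Fintype F] [IsDomain R] in
theorem fibE_zero (t : F) : fibE R χ 0 t = 1 := by
  unfold fibE
  have h1 : ∀ Q : MI F, (1 - PowerSeries.C
    (χ (Algebra.norm k (AdjoinRoot.mk Q.1 (C (0 : F) * (X * (X - 1) * (X - C t)))))) *
      PowerSeries.X ^ Q.1.natDegree : PowerSeries R) = 1 := by
    intro Q
    have hirr : Fact (Irreducible Q.1) := ⟨Q.2.2⟩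
    have hfd : FiniteDimensional F (AdjoinRoot Q.1) := Q.2.1.finite_adjoinRoot
    have hfd' : FiniteDimensional k (AdjoinRoot Q.1) := FiniteDimensional.trans k F _
    rw [C_0, zero_mul, map_zero, Algebra.norm_zero, MulChar.map_zero, map_zero, zero_mul, sub_zero]
  rw [show (fun Q : MI F => (1 - PowerSeries.C
    (χ (Algebra.norm k (AdjoinRoot.mk Q.1 (C (0 : F) * (X * (X - 1) * (X - C t)))))) *
      PowerSeries.X ^ Q.1.natDegree : PowerSeries R)) = fun _ => 1 from funext h1]
  exact eulerProd_one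

variable [CharZero R]

include hχ in
/-- the functional equation of a fibre and its reduction -/
theorem fibre_fe (hu : ∀ r : R, π r ≠ 0 → IsUnit r) {p f : ℕ} [Fact p.Prime] [CharP F p]
    (hq : q = p ^ f) (hf : 0 < f) (hk : Fintype.card k = q) (h5 : 5 ≤ q) (hodd : Odd q)
    (hd : 0 < d) (hF : Fintype.card F = q ^ d) (h6 : (6 : F) ≠ 0) (c t : F) :
    ∃ P : R[X], P.coeff 0 = 1 ∧
      fibE R χ c t * PowerSeries.rescale ((q : R) ^ d) (P : PowerSeries R) = 1 ∧
      P.map π = (Xprod q c t d).charpolyRev.map σ := by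
  classical
  have hcard : ((q : R) ^ d) = (Fintype.card F : R) := by rw [hF, Nat.cast_pow]
  by_cases hc : c = 0
  · refine ⟨1, coeff_one_zero, ?_, ?_⟩
    · rw [hc, fibE_zero, one_mul, Polynomial.coe_one, map_one]
    · have h1 : Xprod q c t d = 0 := by
        rw [Xprod_eq, hc, zero_pow (nex_pos (by omega) hd).ne', zero_mul, zero_smul]
      rw [h1, charpolyRev_two]
      simp
  set ψ := chiN F χ with hψ
  have h1 : ψ ≠ 1 := by
    have := chiN_pow_ne π σ χ hχ hk hF hd (j := 1) one_pos (by omega)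
    rwa [pow_one] at this
  have h2 : ψ ^ 2 ≠ 1 := chiN_pow_ne π σ χ hχ hk hF hd (j := 2) two_pos (by omega)
  have h3 : ψ ^ 3 ≠ 1 := chiN_pow_ne π σ χ hχ hk hF hd (j := 3) (by norm_num) (by omega)
  have hE := fibE_eq (R := R) χ c t
  rw [← hψ] at hE
  by_cases ht : t = 0 ∨ t = 1
  · obtain ⟨hl, hcp⟩ := charpoly_bad hq hf h5 hodd hd hF h6 ht c
    have hw : IsUnit (line (0, 1, t) ψ⁻¹) := by
      apply hu
      rw [hψ, red_line π σ χ hχ h5 hd hk hF]
      exact (map_ne_zero σ).2 hl
    obtain ⟨w, hw⟩ := hw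
    have hmul := line_bad_mul h1 h2 h3 ht
    refine ⟨1 + C (ψ (-c) * (w⁻¹ : Rˣ)) * X, ?_, ?_, ?_⟩
    · simp
    · have h4 : PowerSeries.mk (monSum (psi ψ c (0, 1, t))) =
          PowerSeries.rescale ((q : R) ^ d)
            ((1 + C (ψ (-c) * (w⁻¹ : Rˣ)) * X : R[X]) : PowerSeries R) := by
        ext n
        rw [PowerSeries.coeff_mk, PowerSeries.coeff_rescale, Polynomial.coeff_coe]
        rcases Nat.lt_or_ge n 2 with hn | hn
        · interval_cases n
          · rw [monSum_at_zero]
            simp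
          · rw [monSum_at_one, coeff_add, coeff_C_mul, coeff_X_one, coeff_one, if_neg one_ne_zero,
              pow_one, hcard, ← hmul, ← hw]
            have h7 : (w : R) * ((w⁻¹ : Rˣ) : R) = 1 := by rw [← Units.val_mul, mul_inv_cancel]; rfl
            linear_combination (-(ψ (-c)) * line (0, 1, t) ψ) * h7
        · rw [monSum_zero h3 c (0, 1, t) (X * (X - C 1)) (monic_X.mul (monic_X_sub_C 1)) (by simp)
            (by simp) (by rcases ht with rfl | rfl <;> simp)
            (by rw [natDegree_mul (X_ne_zero) (X_sub_C_ne_zero 1), natDegree_X, natDegree_X_sub_C];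
                exact hn)
            (by rw [natDegree_mul (X_ne_zero) (X_sub_C_ne_zero 1), natDegree_X, natDegree_X_sub_C];
                norm_num), coeff_eq_zero_of_natDegree_lt, mul_zero]
          have h8 : (1 + C (ψ (-c) * (w⁻¹ : Rˣ)) * X : R[X]).natDegree ≤ 1 := by
            compute_degree
          omega
      rw [← h4]
      exact hE
    · rw [hcp, Polynomial.map_add, Polynomial.map_mul, Polynomial.map_one, map_C, map_X,
        Polynomial.map_add, Polynomial.map_mul, Polynomial.map_one, map_C, map_X]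
      congr 3
      have h9 : π (w⁻¹ : Rˣ) = (σ (lineP t (ex q d)))⁻¹ := by
        rw [eq_comm, inv_eq_iff_eq_inv, eq_comm, inv_eq_iff_eq_inv]
        have h10 : π (w : R) * π ((w⁻¹ : Rˣ) : R) = 1 := by
          rw [← map_mul, ← Units.val_mul, mul_inv_cancel, Units.val_one, map_one]
        rw [← red_line π σ χ hχ h5 hd hk hF, ← hψ, ← hw]
        exact eq_inv_of_mul_eq_one_right h10
      rw [map_mul, hψ, red_chi π σ χ hχ hk hF, h9, map_div₀, div_eq_mul_inv]
  · push Not at ht
    obtain ⟨ht0, ht1⟩ := ht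
    have ht1' : (1 : F) - t ≠ 0 := sub_ne_zero.2 ht1.symm
    have ht1'' : t - 1 ≠ 0 := sub_ne_zero.2 ht1
    obtain ⟨hl, hcp⟩ := charpoly_good hq hf h5 hodd hd hF h6 ht0 ht1 c
    have hw : IsUnit (plane (wts t) ψ⁻¹) := by
      apply hu
      rw [hψ, red_plane π σ χ hχ h5 hd hk hF]
      exact (map_ne_zero σ).2 hl
    obtain ⟨w, hw⟩ := hw
    have hα0 : (wts t).1 ≠ 0 := inv_ne_zero ht0
    have hα1 : (wts t).2.1 ≠ 0 := inv_ne_zero ht1'
    have hα2 : (wts t).2.2 ≠ 0 := inv_ne_zero (mul_ne_zero ht0 ht1'')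
    have hpl := plane_mul h3 (wts t) hα0 hα1 hα2
    have h1t : (1 - t)⁻¹ = -(t - 1)⁻¹ := by
      rw [← neg_sub t 1, inv_neg]
    have hln := line_mul h3 (wts t) (0, 1, t) hα0 hα1 hα2
      (by
        unfold wts
        dsimp only
        rw [h1t]
        field_simp
        ring)
      (by
        unfold wts
        dsimp only
        rw [h1t]
        field_simp
        ring)
      (by
        unfold wts
        dsimp only
        rw [h1t]
        field_simp
        ring)
      one_ne_zero ht1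
    have h7 : (w : R) * ((w⁻¹ : Rˣ) : R) = 1 := by rw [← Units.val_mul, mul_inv_cancel]; rfl
    refine ⟨1 + C (ψ (-c) * line (0, 1, t) ψ⁻¹ * (w⁻¹ : Rˣ)) * X +
      C (ψ (c ^ 2) * (w⁻¹ : Rˣ)) * X ^ 2, ?_, ?_, ?_⟩
    · simp
    · have h4 : PowerSeries.mk (monSum (psi ψ c (0, 1, t))) =
          PowerSeries.rescale ((q : R) ^ d)
            ((1 + C (ψ (-c) * line (0, 1, t) ψ⁻¹ * (w⁻¹ : Rˣ)) * X +
              C (ψ (c ^ 2) * (w⁻¹ : Rˣ)) * X ^ 2 : R[X]) : PowerSeries R) := by
        ext n
        rw [PowerSeries.coeff_mk, PowerSeries.coeff_rescale, Polynomial.coeff_coe]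
        rcases Nat.lt_or_ge n 3 with hn | hn
        · interval_cases n
          · rw [monSum_at_zero]
            simp
          · rw [monSum_at_one, coeff_add, coeff_add, coeff_C_mul, coeff_X_one, coeff_one,
              if_neg one_ne_zero, coeff_C_mul, coeff_X_pow, if_neg (by norm_num), pow_one, hcard]
            rw [← hw] at hln
            linear_combination (-(ψ (-c)) * line (0, 1, t) ψ) * h7 + (ψ (-c) * (w⁻¹ : Rˣ)) * hln
          · rw [monSum_at_two ψ c ht0 ht1, coeff_add, coeff_add, coeff_C_mul, coeff_X, coeff_one,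
              if_neg two_ne_zero, coeff_C_mul, coeff_X_pow, if_pos rfl, if_neg (by norm_num), hcard]
            rw [← hw] at hpl
            linear_combination (-(ψ (c ^ 2)) * plane (wts t) ψ) * h7 +
              (ψ (c ^ 2) * (w⁻¹ : Rˣ)) * hpl
        · have h10 : (X * ((X - C 1) * (X - C t)) : F[X]).natDegree = 3 := by
            rw [natDegree_mul X_ne_zero (mul_ne_zero (X_sub_C_ne_zero 1) (X_sub_C_ne_zero t)),
              natDegree_mul (X_sub_C_ne_zero 1) (X_sub_C_ne_zero t), natDegree_X,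
              natDegree_X_sub_C, natDegree_X_sub_C]
          rw [monSum_zero h3 c (0, 1, t) (X * ((X - C 1) * (X - C t)))
            (monic_X.mul ((monic_X_sub_C 1).mul (monic_X_sub_C t))) (by simp)
            (by simp) (by simp) (by rw [h10]; exact hn) (by rw [h10]; norm_num),
            coeff_eq_zero_of_natDegree_lt, mul_zero]
          have h8 : (1 + C (ψ (-c) * line (0, 1, t) ψ⁻¹ * (w⁻¹ : Rˣ)) * X +
              C (ψ (c ^ 2) * (w⁻¹ : Rˣ)) * X ^ 2 : R[X]).natDegree ≤ 2 := by
            compute_degree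
          omega
      rw [← h4]
      exact hE
    · rw [hcp]
      simp only [Polynomial.map_add, Polynomial.map_mul, Polynomial.map_one, map_C, map_X,
        Polynomial.map_pow]
      have h9 : π (w⁻¹ : Rˣ) = (σ (planeP (wts t) (ex q d)))⁻¹ := by
        have h10 : π (w : R) * π ((w⁻¹ : Rˣ) : R) = 1 := by
          rw [← map_mul, ← Units.val_mul, mul_inv_cancel, Units.val_one, map_one]
        rw [← red_plane π σ χ hχ h5 hd hk hF, ← hψ, ← hw]
        exact eq_inv_of_mul_eq_one_right h10
      have e1 : π (ψ (-c) * line (0, 1, t) ψ⁻¹ * (w⁻¹ : Rˣ)) =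
          σ ((-c) ^ nex q d * lineP t (ex q d) / planeP (wts t) (ex q d)) := by
        rw [map_mul π, map_mul π, hψ, red_chi π σ χ hχ hk hF, red_line π σ χ hχ h5 hd hk hF, h9,
          map_div₀, div_eq_mul_inv, map_mul σ]
      have e2 : π (ψ (c ^ 2) * (w⁻¹ : Rˣ)) =
          σ ((c ^ 2) ^ nex q d / planeP (wts t) (ex q d)) := by
        rw [map_mul π, hψ, red_chi π σ χ hχ hk hF, h9, map_div₀, div_eq_mul_inv]
      rw [e1, e2]

end fib

end Pool.Agent.Y709
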