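import Mathlib.NumberTheory.MulChar.Lemmas
import Mathlib.Algebra.BigOperators.Field
import Mathlib.Tactic.FieldSimp
import Mathlib.Tactic.LinearCombination

/-!
Character sums over planes and lines in the three-dimensional space over a finite field.
-/

set_option autoImplicit false

namespace Pool.Agent.Y709

variable {F : Type} [Field F] [Fintype F] [DecidableEq F] {R : Type} [CommRing R] [IsDomain R]

/-- the indicator function of `1` -/
def dl (R : Type) [CommRing R] {F : Type} [Field F] [DecidableEq F] (x : F) : R :=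
  if x = 1 then 1 else 0

/-- the sums of the values of a character are homogeneous -/
theorem sum_homog {χ : MulChar F R} (hχ : χ ^ 3 ≠ 1) (c : F × F × F → R)
    (hc : ∀ (a : F) (y : F × F × F), a ≠ 0 → c (a * y.1, a * y.2.1, a * y.2.2) = c y) :
    ∑ y : F × F × F, c y * χ (y.1 * y.2.1 * y.2.2) = 0 := by
  obtain ⟨a, ha⟩ : ∃ a : Fˣ, (χ ^ 3) a ≠ 1 := by
    by_contra h
    push Not at h
    apply hχ
    apply MulChar.ext
    intro a
    rw [h a, MulChar.one_apply_coe]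
  have ha0 : (a : F) ≠ 0 := a.ne_zero
  have h1 : ∑ y : F × F × F, c y * χ (y.1 * y.2.1 * y.2.2) =
      ∑ y : F × F × F, c (a * y.1, a * y.2.1, a * y.2.2) *
        χ ((a * y.1) * (a * y.2.1) * (a * y.2.2)) := by
    refine (Fintype.sum_equiv
      ((Equiv.mulLeft₀ (a : F) ha0).prodCongr ((Equiv.mulLeft₀ (a : F) ha0).prodCongr
        (Equiv.mulLeft₀ (a : F) ha0))) _ _ fun y => ?_).symm
    rfl
  have h2 : ∑ y : F × F × F, c (a * y.1, a * y.2.1, a * y.2.2) *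
        χ ((a * y.1) * (a * y.2.1) * (a * y.2.2)) =
      (χ ^ 3) a * ∑ y : F × F × F, c y * χ (y.1 * y.2.1 * y.2.2) := by
    rw [Finset.mul_sum]
    refine Finset.sum_congr rfl fun y _ => ?_
    rw [hc a y ha0, MulChar.pow_apply' χ three_ne_zero, ← map_pow]
    have h3 : (a * y.1) * (a * y.2.1) * (a * y.2.2) = (a : F) ^ 3 * (y.1 * y.2.1 * y.2.2) := by
      ring
    rw [h3, map_mul]
    ring
  rw [h2] at h1
  have h3 : (1 - (χ ^ 3) a) * ∑ y : F × F × F, c y * χ (y.1 * y.2.1 * y.2.2) = 0 := by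
    rw [sub_mul, one_mul, ← h1, sub_self]
  rcases mul_eq_zero.1 h3 with h | h
  · exact absurd (sub_eq_zero.1 h).symm ha
  · exact h

variable {χ : MulChar F R}

theorem ne_one_of_cube (hχ : χ ^ 3 ≠ 1) : χ ≠ 1 := by
  rintro rfl
  exact hχ (one_pow 3)

/-- the substitution `g = f y` -/
theorem sub_T (hχ : χ ≠ 1) (α f : F × F × F) :
    ∑ g : F × F × F, dl R (α.1 * g.1 + α.2.1 * g.2.1 + α.2.2 * g.2.2) *
        (χ (f.1 * f.2.1 * f.2.2) * χ⁻¹ (g.1 * g.2.1 * g.2.2)) =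
      ∑ y : F × F × F, dl R (α.1 * f.1 * y.1 + α.2.1 * f.2.1 * y.2.1 + α.2.2 * f.2.2 * y.2.2) *
        χ⁻¹ (y.1 * y.2.1 * y.2.2) := by
  have hinv : χ⁻¹ ≠ 1 := inv_ne_one.2 hχ
  have hz : ∑ x : F, χ⁻¹ x = 0 := MulChar.sum_eq_zero_of_ne_one hinv
  by_cases h0 : f.1 = 0
  · rw [h0]
    have h1 : ∀ g : F × F × F, dl R (α.1 * g.1 + α.2.1 * g.2.1 + α.2.2 * g.2.2) *
        (χ (0 * f.2.1 * f.2.2) * χ⁻¹ (g.1 * g.2.1 * g.2.2)) = 0 := by
      intro g
      rw [zero_mul, zero_mul, MulChar.map_zero, zero_mul, mul_zero]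
    rw [Finset.sum_eq_zero fun g _ => h1 g, Fintype.sum_prod_type, Finset.sum_comm]
    symm
    refine Finset.sum_eq_zero fun y _ => ?_
    have h2 : ∀ x : F, dl R (α.1 * 0 * x + α.2.1 * f.2.1 * y.1 + α.2.2 * f.2.2 * y.2) *
        χ⁻¹ (x * y.1 * y.2) = (dl R (α.2.1 * f.2.1 * y.1 + α.2.2 * f.2.2 * y.2) *
        χ⁻¹ (y.1 * y.2)) * χ⁻¹ x := by
      intro x
      rw [mul_zero, zero_mul, zero_add, mul_assoc x, map_mul (χ⁻¹) x]
      ring
    rw [Finset.sum_congr rfl fun x _ => h2 x, ← Finset.mul_sum, hz, mul_zero]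
  by_cases h0' : f.2.1 = 0
  · rw [h0']
    have h1 : ∀ g : F × F × F, dl R (α.1 * g.1 + α.2.1 * g.2.1 + α.2.2 * g.2.2) *
        (χ (f.1 * 0 * f.2.2) * χ⁻¹ (g.1 * g.2.1 * g.2.2)) = 0 := by
      intro g
      rw [mul_zero, zero_mul, MulChar.map_zero, zero_mul, mul_zero]
    rw [Finset.sum_eq_zero fun g _ => h1 g, Fintype.sum_prod_type]
    symm
    refine Finset.sum_eq_zero fun y0 _ => ?_
    rw [Fintype.sum_prod_type, Finset.sum_comm]
    refine Finset.sum_eq_zero fun y2 _ => ?_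
    have h2 : ∀ x : F, dl R (α.1 * f.1 * y0 + α.2.1 * 0 * x + α.2.2 * f.2.2 * y2) *
        χ⁻¹ (y0 * x * y2) = (dl R (α.1 * f.1 * y0 + α.2.2 * f.2.2 * y2) *
        χ⁻¹ (y0 * y2)) * χ⁻¹ x := by
      intro x
      rw [mul_zero, zero_mul, add_zero, mul_right_comm y0 x y2, map_mul (χ⁻¹) (y0 * y2)]
      ring
    rw [Finset.sum_congr rfl fun x _ => h2 x, ← Finset.mul_sum, hz, mul_zero]
  by_cases h0'' : f.2.2 = 0
  · rw [h0'']
    have h1 : ∀ g : F × F × F, dl R (α.1 * g.1 + α.2.1 * g.2.1 + α.2.2 * g.2.2) *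
        (χ (f.1 * f.2.1 * 0) * χ⁻¹ (g.1 * g.2.1 * g.2.2)) = 0 := by
      intro g
      rw [mul_zero, MulChar.map_zero, zero_mul, mul_zero]
    rw [Finset.sum_eq_zero fun g _ => h1 g, Fintype.sum_prod_type]
    symm
    refine Finset.sum_eq_zero fun y0 _ => ?_
    rw [Fintype.sum_prod_type]
    refine Finset.sum_eq_zero fun y1 _ => ?_
    have h2 : ∀ x : F, dl R (α.1 * f.1 * y0 + α.2.1 * f.2.1 * y1 + α.2.2 * 0 * x) *
        χ⁻¹ (y0 * y1 * x) = (dl R (α.1 * f.1 * y0 + α.2.1 * f.2.1 * y1) *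
        χ⁻¹ (y0 * y1)) * χ⁻¹ x := by
      intro x
      rw [mul_zero, zero_mul, add_zero, map_mul (χ⁻¹) (y0 * y1)]
      ring
    rw [Finset.sum_congr rfl fun x _ => h2 x, ← Finset.mul_sum, hz, mul_zero]
  symm
  refine Fintype.sum_equiv
      ((Equiv.mulLeft₀ f.1 h0).prodCongr ((Equiv.mulLeft₀ f.2.1 h0').prodCongr
        (Equiv.mulLeft₀ f.2.2 h0''))) _ _ fun y => ?_
  show dl R (α.1 * f.1 * y.1 + α.2.1 * f.2.1 * y.2.1 + α.2.2 * f.2.2 * y.2.2) *
        χ⁻¹ (y.1 * y.2.1 * y.2.2) =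
      dl R (α.1 * (f.1 * y.1) + α.2.1 * (f.2.1 * y.2.1) + α.2.2 * (f.2.2 * y.2.2)) *
        (χ (f.1 * f.2.1 * f.2.2) * χ⁻¹ ((f.1 * y.1) * (f.2.1 * y.2.1) * (f.2.2 * y.2.2)))
  have h3 : (f.1 * y.1) * (f.2.1 * y.2.1) * (f.2.2 * y.2.2) =
      (f.1 * f.2.1 * f.2.2) * (y.1 * y.2.1 * y.2.2) := by ring
  have h4 : f.1 * f.2.1 * f.2.2 ≠ 0 := mul_ne_zero (mul_ne_zero h0 h0') h0''
  have h5 : χ (f.1 * f.2.1 * f.2.2) * χ⁻¹ (f.1 * f.2.1 * f.2.2) = 1 := by
    rw [← MulChar.mul_apply, mul_inv_cancel, MulChar.one_apply (isUnit_iff_ne_zero.2 h4)]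
  rw [h3, map_mul (χ⁻¹) (f.1 * f.2.1 * f.2.2), ← mul_assoc (χ _), h5, one_mul, mul_assoc,
    mul_assoc, mul_assoc]

omit [IsDomain R] in
theorem sum_dl_line (a e : F) (ha : a ≠ 0) : ∑ x : F, dl R (a * x + e) = 1 := by
  rw [Finset.sum_eq_single ((1 - e) / a)]
  · unfold dl
    rw [if_pos (by field_simp; ring)]
  · intro x _ hx
    unfold dl
    rw [if_neg]
    intro h
    apply hx
    field_simp
    linear_combination h
  · intro h
    exact absurd (Finset.mem_univ _) h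

omit [IsDomain R] in
theorem sum_dl_two (a b c d e h : F) (hd : a * d - b * c ≠ 0) :
    ∑ x : F, ∑ y : F, dl R (a * x + b * y + e) * dl R (c * x + d * y + h) = 1 := by
  rw [← Finset.sum_product', Finset.univ_product_univ,
    Finset.sum_eq_single (((1 - e) * d - (1 - h) * b) / (a * d - b * c),
      ((1 - h) * a - (1 - e) * c) / (a * d - b * c))]
  · unfold dl
    dsimp only
    have k1 : a * ((1 - e) * d - (1 - h) * b) + b * ((1 - h) * a - (1 - e) * c) =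
        (1 - e) * (a * d - b * c) := by ring
    have k2 : c * ((1 - e) * d - (1 - h) * b) + d * ((1 - h) * a - (1 - e) * c) =
        (1 - h) * (a * d - b * c) := by ring
    rw [if_pos (by
      rw [← mul_div_assoc, ← mul_div_assoc, ← add_div, k1, mul_div_cancel_right₀ _ hd]
      ring), if_pos (by
      rw [← mul_div_assoc, ← mul_div_assoc, ← add_div, k2, mul_div_cancel_right₀ _ hd]
      ring), one_mul]
  · rintro ⟨x, y⟩ _ hx
    unfold dl
    dsimp only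
    by_cases h1 : a * x + b * y + e = 1
    · by_cases h2 : c * x + d * y + h = 1
      · exfalso
        apply hx
        rw [Prod.mk.injEq]
        constructor
        · rw [eq_div_iff hd]
          linear_combination d * h1 - b * h2
        · rw [eq_div_iff hd]
          linear_combination a * h2 - c * h1
      · rw [if_neg h2, mul_zero]
    · rw [if_neg h1, zero_mul]
  · intro h
    exact absurd (Finset.mem_univ _) h

/-- the sum over the plane `α y = 1` -/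
def plane (α : F × F × F) (χ : MulChar F R) : R :=
  ∑ g : F × F × F, dl R (α.1 * g.1 + α.2.1 * g.2.1 + α.2.2 * g.2.2) * χ (g.1 * g.2.1 * g.2.2)

/-- the sum over the line `b + v` -/
def line (b : F × F × F) (χ : MulChar F R) : R :=
  ∑ v : F, χ ((b.1 + v) * (b.2.1 + v) * (b.2.2 + v))

omit [IsDomain R] in
theorem count_two (α : F × F × F) (h0 : α.1 ≠ 0) (h1 : α.2.1 ≠ 0) (h2 : α.2.2 ≠ 0)
    (y : F × F × F) :
    ∑ f : F × F × F, dl R (α.1 * f.1 + α.2.1 * f.2.1 + α.2.2 * f.2.2) *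
      dl R (α.1 * f.1 * y.1 + α.2.1 * f.2.1 * y.2.1 + α.2.2 * f.2.2 * y.2.2) =
      (Fintype.card F : R) - (if y.1 = y.2.1 ∧ y.2.1 = y.2.2 then (Fintype.card F : R) else 0) +
        (if y = (1, 1, 1) then (Fintype.card F : R) ^ 2 else 0) := by
  obtain ⟨y0, y1, y2⟩ := y
  dsimp only
  by_cases h : y0 = y1 ∧ y1 = y2
  · obtain ⟨rfl, rfl⟩ := h
    rw [if_pos ⟨rfl, rfl⟩, sub_self, zero_add]
    by_cases hc : y0 = 1
    · subst hc
      rw [if_pos rfl]
      have h3 : ∀ f : F × F × F, dl R (α.1 * f.1 + α.2.1 * f.2.1 + α.2.2 * f.2.2) *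
          dl R (α.1 * f.1 * 1 + α.2.1 * f.2.1 * 1 + α.2.2 * f.2.2 * 1) =
          dl R (α.1 * f.1 + (α.2.1 * f.2.1 + α.2.2 * f.2.2)) := by
        intro f
        rw [mul_one, mul_one, mul_one, ← add_assoc]
        unfold dl
        split_ifs
        · rw [one_mul]
        · rw [zero_mul]
      rw [Finset.sum_congr rfl fun f _ => h3 f, Fintype.sum_prod_type, Finset.sum_comm]
      have h4 : ∀ g : F × F, ∑ x : F, dl R (α.1 * x + (α.2.1 * g.1 + α.2.2 * g.2)) = 1 :=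
        fun g => sum_dl_line _ _ h0
      rw [Finset.sum_congr rfl fun g _ => h4 g, Finset.sum_const, Finset.card_univ,
        Fintype.card_prod, nsmul_eq_mul, mul_one, Nat.cast_mul, sq]
    · rw [if_neg (fun h' => hc (Prod.mk.inj h').1)]
      refine Finset.sum_eq_zero fun f _ => ?_
      unfold dl
      by_cases h3 : α.1 * f.1 + α.2.1 * f.2.1 + α.2.2 * f.2.2 = 1
      · rw [if_neg (c := α.1 * f.1 * y0 + α.2.1 * f.2.1 * y0 + α.2.2 * f.2.2 * y0 = 1), mul_zero]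
        intro h4
        apply hc
        linear_combination h4 - y0 * h3
      · rw [if_neg h3, zero_mul]
  · rw [if_neg h, sub_zero, if_neg (fun h' => h (by
      have := Prod.mk.inj h'
      have h5 := Prod.mk.inj this.2
      exact ⟨this.1.trans h5.1.symm, h5.1.trans h5.2.symm⟩)), add_zero]
    by_cases h3 : y0 = y1
    · have h4 : y1 ≠ y2 := fun h5 => h ⟨h3, h5⟩
      rw [Fintype.sum_prod_type]
      have h5 : ∀ x : F, ∑ g : F × F, dl R (α.1 * x + α.2.1 * g.1 + α.2.2 * g.2) *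
          dl R (α.1 * x * y0 + α.2.1 * g.1 * y1 + α.2.2 * g.2 * y2) = 1 := by
        intro x
        rw [Fintype.sum_prod_type, ← sum_dl_two (R := R) α.2.1 α.2.2 (α.2.1 * y1) (α.2.2 * y2)
          (α.1 * x) (α.1 * x * y0) (by
            have : α.2.1 * (α.2.2 * y2) - α.2.2 * (α.2.1 * y1) = α.2.1 * α.2.2 * (y2 - y1) := by
              ring
            rw [this]
            exact mul_ne_zero (mul_ne_zero h1 h2) (sub_ne_zero.2 h4.symm))]
        refine Finset.sum_congr rfl fun u _ => Finset.sum_congr rfl fun v _ => ?_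
        congr 2 <;> ring
      rw [Finset.sum_congr rfl fun x _ => h5 x, Finset.sum_const, Finset.card_univ, nsmul_eq_mul,
        mul_one]
    · rw [Fintype.sum_prod_type]
      have h5 : ∑ x : F, ∑ g : F × F, dl R (α.1 * x + α.2.1 * g.1 + α.2.2 * g.2) *
          dl R (α.1 * x * y0 + α.2.1 * g.1 * y1 + α.2.2 * g.2 * y2) =
          ∑ z : F, ∑ x : F, ∑ y : F, dl R (α.1 * x + α.2.1 * y + α.2.2 * z) *
          dl R (α.1 * y0 * x + α.2.1 * y1 * y + α.2.2 * z * y2) := by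
        rw [Finset.sum_comm (s := (Finset.univ : Finset F)) (t := (Finset.univ : Finset F))]
        refine Finset.sum_congr rfl fun x _ => ?_
        rw [Fintype.sum_prod_type, Finset.sum_comm]
        refine Finset.sum_congr rfl fun z _ => Finset.sum_congr rfl fun u _ => ?_
        congr 2
        ring
      rw [h5, Finset.sum_congr rfl fun z _ => sum_dl_two (R := R) α.1 α.2.1 (α.1 * y0) (α.2.1 * y1)
          (α.2.2 * z) (α.2.2 * z * y2) (by
            have : α.1 * (α.2.1 * y1) - α.2.1 * (α.1 * y0) = α.1 * α.2.1 * (y1 - y0) := by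
              ring
            rw [this]
            exact mul_ne_zero (mul_ne_zero h0 h1) (sub_ne_zero.2 (fun h' => h3 h'.symm))),
        Finset.sum_const, Finset.card_univ, nsmul_eq_mul, mul_one]

/-- the absolute value of the sum over the plane -/
theorem plane_mul (hχ : χ ^ 3 ≠ 1) (α : F × F × F) (h0 : α.1 ≠ 0) (h1 : α.2.1 ≠ 0)
    (h2 : α.2.2 ≠ 0) : plane α χ * plane α χ⁻¹ = (Fintype.card F : R) ^ 2 := by
  have hχ1 := ne_one_of_cube hχ
  have hχi : (χ⁻¹) ^ 3 ≠ 1 := by rwa [inv_pow, Ne, inv_eq_one]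
  have e1 : plane α χ * plane α χ⁻¹ =
      ∑ f : F × F × F, dl R (α.1 * f.1 + α.2.1 * f.2.1 + α.2.2 * f.2.2) *
        ∑ g : F × F × F, dl R (α.1 * g.1 + α.2.1 * g.2.1 + α.2.2 * g.2.2) *
        (χ (f.1 * f.2.1 * f.2.2) * χ⁻¹ (g.1 * g.2.1 * g.2.2)) := by
    unfold plane
    rw [Finset.sum_mul]
    refine Finset.sum_congr rfl fun f _ => ?_
    rw [mul_assoc, Finset.mul_sum]
    congr 1
    refine Finset.sum_congr rfl fun g _ => ?_
    ring
  have e2 : plane α χ * plane α χ⁻¹ = ∑ y : F × F × F, χ⁻¹ (y.1 * y.2.1 * y.2.2) *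
      ∑ f : F × F × F, dl R (α.1 * f.1 + α.2.1 * f.2.1 + α.2.2 * f.2.2) *
      dl R (α.1 * f.1 * y.1 + α.2.1 * f.2.1 * y.2.1 + α.2.2 * f.2.2 * y.2.2) := by
    rw [e1]
    simp only [sub_T hχ1, Finset.mul_sum]
    rw [Finset.sum_comm]
    refine Finset.sum_congr rfl fun y _ => Finset.sum_congr rfl fun f _ => ?_
    ring
  rw [e2]
  simp only [count_two α h0 h1 h2, mul_add, mul_sub]
  rw [Finset.sum_add_distrib, Finset.sum_sub_distrib]
  have e3 : ∑ y : F × F × F, χ⁻¹ (y.1 * y.2.1 * y.2.2) * (Fintype.card F : R) = 0 := by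
    have := sum_homog hχi (fun _ => (Fintype.card F : R)) (fun _ _ _ => rfl)
    rw [← this]
    exact Finset.sum_congr rfl fun y _ => mul_comm _ _
  have e4 : ∑ y : F × F × F, χ⁻¹ (y.1 * y.2.1 * y.2.2) *
      (if y.1 = y.2.1 ∧ y.2.1 = y.2.2 then (Fintype.card F : R) else 0) = 0 := by
    have := sum_homog hχi (fun y => if y.1 = y.2.1 ∧ y.2.1 = y.2.2 then (Fintype.card F : R) else 0)
      (fun a y ha => by
        dsimp only
        congr 1
        rw [mul_right_inj' ha, mul_right_inj' ha])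
    refine Eq.trans ?_ this
    exact Finset.sum_congr rfl fun y _ => mul_comm _ _
  have e5 : ∑ y : F × F × F, χ⁻¹ (y.1 * y.2.1 * y.2.2) *
      (if y = (1, 1, 1) then (Fintype.card F : R) ^ 2 else 0) = (Fintype.card F : R) ^ 2 := by
    rw [Finset.sum_eq_single (1, 1, 1)]
    · rw [if_pos rfl, one_mul, one_mul, MulChar.map_one, one_mul]
    · intro y _ hy
      rw [if_neg hy, mul_zero]
    · intro h
      exact absurd (Finset.mem_univ _) h
  rw [e3, e4, e5, sub_zero, zero_add]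

omit [IsDomain R] in
theorem count_one (α b : F × F × F) (y : F × F × F) :
    ∑ v : F, dl R (α.1 * (b.1 + v) * y.1 + α.2.1 * (b.2.1 + v) * y.2.1 +
      α.2.2 * (b.2.2 + v) * y.2.2) =
      1 - (if α.1 * y.1 + α.2.1 * y.2.1 + α.2.2 * y.2.2 = 0 then (1 : R) else 0) +
        (Fintype.card F : R) * (if α.1 * y.1 + α.2.1 * y.2.1 + α.2.2 * y.2.2 = 0 ∧
          α.1 * b.1 * y.1 + α.2.1 * b.2.1 * y.2.1 + α.2.2 * b.2.2 * y.2.2 = 1 then 1 else 0) := by
  set A := α.1 * y.1 + α.2.1 * y.2.1 + α.2.2 * y.2.2 with hA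
  set B := α.1 * b.1 * y.1 + α.2.1 * b.2.1 * y.2.1 + α.2.2 * b.2.2 * y.2.2 with hB
  have h1 : ∀ v : F, α.1 * (b.1 + v) * y.1 + α.2.1 * (b.2.1 + v) * y.2.1 +
      α.2.2 * (b.2.2 + v) * y.2.2 = A * v + B := by
    intro v
    rw [hA, hB]
    ring
  simp only [h1]
  by_cases h : A = 0
  · rw [h]
    simp only [zero_mul, zero_add, true_and, if_true, sub_self]
    rw [Finset.sum_const, Finset.card_univ, nsmul_eq_mul]
    rfl
  · rw [if_neg h, if_neg (fun h' => h h'.1), sum_dl_line A B h]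
    ring

/-- the functional equation for the sum over the line -/
theorem line_mul (hχ : χ ^ 3 ≠ 1) (α b : F × F × F) (h0 : α.1 ≠ 0) (h1 : α.2.1 ≠ 0)
    (h2 : α.2.2 ≠ 0) (s0 : α.1 + α.2.1 + α.2.2 = 0)
    (s1 : α.1 * b.1 + α.2.1 * b.2.1 + α.2.2 * b.2.2 = 0)
    (s2 : α.1 * b.1 ^ 2 + α.2.1 * b.2.1 ^ 2 + α.2.2 * b.2.2 ^ 2 = 1)
    (hb1 : b.2.1 ≠ b.1) (hb2 : b.2.2 ≠ b.2.1) :
    line b χ * plane α χ⁻¹ = (Fintype.card F : R) * line b χ⁻¹ := by
  have hχ1 := ne_one_of_cube hχ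
  have hχi : (χ⁻¹) ^ 3 ≠ 1 := by rwa [inv_pow, Ne, inv_eq_one]
  have e2 : line b χ * plane α χ⁻¹ = ∑ y : F × F × F, χ⁻¹ (y.1 * y.2.1 * y.2.2) *
      ∑ v : F, dl R (α.1 * (b.1 + v) * y.1 + α.2.1 * (b.2.1 + v) * y.2.1 +
      α.2.2 * (b.2.2 + v) * y.2.2) := by
    have e1 : line b χ * plane α χ⁻¹ = ∑ v : F,
        ∑ g : F × F × F, dl R (α.1 * g.1 + α.2.1 * g.2.1 + α.2.2 * g.2.2) *
        (χ ((b.1 + v) * (b.2.1 + v) * (b.2.2 + v)) * χ⁻¹ (g.1 * g.2.1 * g.2.2)) := by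
      unfold line plane
      rw [Finset.sum_mul]
      refine Finset.sum_congr rfl fun f _ => ?_
      rw [Finset.mul_sum]
      refine Finset.sum_congr rfl fun g _ => ?_
      ring
    rw [e1]
    have e1' := fun v => sub_T (R := R) hχ1 α (b.1 + v, b.2.1 + v, b.2.2 + v)
    dsimp only at e1'
    simp only [e1', Finset.mul_sum]
    rw [Finset.sum_comm]
    refine Finset.sum_congr rfl fun y _ => Finset.sum_congr rfl fun f _ => ?_
    ring
  rw [e2]
  have e6 : ∀ y : F × F × F, χ⁻¹ (y.1 * y.2.1 * y.2.2) *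
      ∑ v : F, dl R (α.1 * (b.1 + v) * y.1 + α.2.1 * (b.2.1 + v) * y.2.1 +
      α.2.2 * (b.2.2 + v) * y.2.2) = χ⁻¹ (y.1 * y.2.1 * y.2.2) * (1 : R) -
      χ⁻¹ (y.1 * y.2.1 * y.2.2) *
      (if α.1 * y.1 + α.2.1 * y.2.1 + α.2.2 * y.2.2 = 0 then (1 : R) else 0) +
      χ⁻¹ (y.1 * y.2.1 * y.2.2) *
      ((Fintype.card F : R) * (if α.1 * y.1 + α.2.1 * y.2.1 + α.2.2 * y.2.2 = 0 ∧
          α.1 * b.1 * y.1 + α.2.1 * b.2.1 * y.2.1 + α.2.2 * b.2.2 * y.2.2 = 1 then 1 else 0)) := by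
    intro y
    rw [count_one α b]
    ring
  rw [Finset.sum_congr rfl fun y _ => e6 y, Finset.sum_add_distrib, Finset.sum_sub_distrib]
  have e3 : ∑ y : F × F × F, χ⁻¹ (y.1 * y.2.1 * y.2.2) * (1 : R) = 0 := by
    have := sum_homog hχi (fun _ => (1 : R)) (fun _ _ _ => rfl)
    rw [← this]
    exact Finset.sum_congr rfl fun y _ => mul_comm _ _
  have e4 : ∑ y : F × F × F, χ⁻¹ (y.1 * y.2.1 * y.2.2) *
      (if α.1 * y.1 + α.2.1 * y.2.1 + α.2.2 * y.2.2 = 0 then (1 : R) else 0) = 0 := by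
    have := sum_homog hχi (fun y => if α.1 * y.1 + α.2.1 * y.2.1 + α.2.2 * y.2.2 = 0 then (1 : R)
      else 0) (fun a y ha => by
        dsimp only
        have h3 : α.1 * (a * y.1) + α.2.1 * (a * y.2.1) + α.2.2 * (a * y.2.2) =
          a * (α.1 * y.1 + α.2.1 * y.2.1 + α.2.2 * y.2.2) := by ring
        refine if_congr ?_ rfl rfl
        rw [h3, mul_eq_zero, or_iff_right ha])
    refine Eq.trans ?_ this
    exact Finset.sum_congr rfl fun y _ => mul_comm _ _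
  rw [e3, e4, sub_zero, zero_add]
  have e5 : ∀ y : F × F × F, χ⁻¹ (y.1 * y.2.1 * y.2.2) *
      ((Fintype.card F : R) * (if α.1 * y.1 + α.2.1 * y.2.1 + α.2.2 * y.2.2 = 0 ∧
          α.1 * b.1 * y.1 + α.2.1 * b.2.1 * y.2.1 + α.2.2 * b.2.2 * y.2.2 = 1 then 1 else 0)) =
      if α.1 * y.1 + α.2.1 * y.2.1 + α.2.2 * y.2.2 = 0 ∧
          α.1 * b.1 * y.1 + α.2.1 * b.2.1 * y.2.1 + α.2.2 * b.2.2 * y.2.2 = 1 then
        (Fintype.card F : R) * χ⁻¹ (y.1 * y.2.1 * y.2.2) else 0 := by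
    intro y
    split_ifs
    · ring
    · ring
  rw [Finset.sum_congr rfl fun y _ => e5 y, ← Finset.sum_filter]
  unfold line
  rw [Finset.mul_sum]
  symm
  refine Finset.sum_bij (fun v _ => (b.1 + v, b.2.1 + v, b.2.2 + v)) ?_ ?_ ?_ ?_
  · intro v _
    rw [Finset.mem_filter]
    refine ⟨Finset.mem_univ _, ?_, ?_⟩
    · dsimp only
      linear_combination s1 + v * s0
    · dsimp only
      linear_combination s2 + v * s1
  · intro v _ v' _ h
    have := (Prod.mk.inj h).1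
    exact add_left_cancel this
  · rintro ⟨y0, y1, y2⟩ hy
    rw [Finset.mem_filter] at hy
    obtain ⟨_, h3, h4⟩ := hy
    dsimp only at h3 h4
    refine ⟨y0 - b.1, Finset.mem_univ _, ?_⟩
    have hk : ∀ z1 z2 : F, α.2.1 * z1 + α.2.2 * z2 = 0 →
        α.2.1 * b.2.1 * z1 + α.2.2 * b.2.2 * z2 = 0 → z1 = 0 ∧ z2 = 0 := by
      intro z1 z2 k1 k2
      have k3 : α.2.2 * (b.2.2 - b.2.1) * z2 = 0 := by
        linear_combination k2 - b.2.1 * k1
      have k4 : z2 = 0 := by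
        rcases mul_eq_zero.1 k3 with k | k
        · exact absurd k (mul_ne_zero h2 (sub_ne_zero.2 hb2))
        · exact k
      rw [k4, mul_zero, add_zero] at k1
      exact ⟨(mul_eq_zero.1 k1).resolve_left h1, k4⟩
    obtain ⟨k1, k2⟩ := hk (y1 - (b.2.1 + (y0 - b.1))) (y2 - (b.2.2 + (y0 - b.1)))
      (by linear_combination h3 - s1 - (y0 - b.1) * s0)
      (by linear_combination h4 - s2 - (y0 - b.1) * s1)
    rw [Prod.mk.injEq, Prod.mk.injEq]
    refine ⟨by ring, ?_, ?_⟩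
    · linear_combination -k1
    · linear_combination -k2
  · intro v _
    rfl

end Pool.Agent.Y709
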