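import Pool.Agent.Y709.Wt
import Pool.Agent.Y709.Tri
import Mathlib.RingTheory.Norm.Transitivity
import Mathlib.RingTheory.AdjoinRoot
import Mathlib.LinearAlgebra.Matrix.Charpoly.Minpoly

/-!
The `L`-functions of the fibres.
-/

set_option autoImplicit false

open Polynomial

namespace Pool.Agent.Y709

open Pool.Agent.W313.Hyp Pool.Agent.W343.BSD

section norm

variable {F : Type} [Field F]

/-- the norm of `x - b` -/
theorem norm_mk_sub (Q : MI F) (b : F) :
    Algebra.norm F (AdjoinRoot.mk Q.1 (X - C b)) = (-1) ^ Q.1.natDegree * Q.1.eval b := by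
  classical
  have hirr : Fact (Irreducible Q.1) := ⟨Q.2.2⟩
  let pb := AdjoinRoot.powerBasis Q.2.1.ne_zero
  have hgen : pb.gen = AdjoinRoot.root Q.1 := AdjoinRoot.powerBasis_gen _
  have hdim : Fintype.card (Fin pb.dim) = Q.1.natDegree := by
    rw [Fintype.card_fin, AdjoinRoot.powerBasis_dim]
  have h1 : AdjoinRoot.mk Q.1 (X - C b) = -(algebraMap F (AdjoinRoot Q.1) b - pb.gen) := by
    rw [hgen, map_sub, AdjoinRoot.mk_X, AdjoinRoot.mk_C]
    have : (AdjoinRoot.of Q.1) b = algebraMap F (AdjoinRoot Q.1) b := rfl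
    rw [this]
    ring
  rw [h1, Algebra.norm_eq_matrix_det pb.basis, map_neg, Matrix.det_neg, hdim, map_sub,
    AlgHom.commutes]
  congr 1
  have h2 := charpoly_leftMulMatrix pb
  have h3 : minpoly F pb.gen = Q.1 := by
    rw [hgen, AdjoinRoot.minpoly_root Q.2.1.ne_zero, Q.2.1.leadingCoeff, inv_one, C_1, mul_one]
  have h4 : (minpoly F pb.gen).eval b = Q.1.eval b := by rw [h3]
  rw [← h4, ← h2, Matrix.eval_charpoly]
  rfl

end norm

section psi

variable {F : Type} [Field F] {R : Type} [CommRing R]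

/-- the weight of a polynomial -/
noncomputable def psi (χ : MulChar F R) (c : F) (b : F × F × F) (g : F[X]) : R :=
  χ ((-c) ^ g.natDegree * (g.eval b.1 * g.eval b.2.1 * g.eval b.2.2))

theorem psi_one (χ : MulChar F R) (c : F) (b : F × F × F) : psi χ c b 1 = 1 := by
  unfold psi
  rw [natDegree_one, pow_zero, eval_one, eval_one, eval_one]
  simp

theorem psi_mul (χ : MulChar F R) (c : F) (b : F × F × F) (P : MI F) (g : F[X]) (hg : g.Monic) :
    psi χ c b (P.1 * g) = psi χ c b P.1 * psi χ c b g := by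
  unfold psi
  rw [P.2.1.natDegree_mul hg, ← map_mul, eval_mul, eval_mul, eval_mul]
  congr 1
  ring

variable {k : Type} [Field k] [Algebra k F] [FiniteDimensional k F]

/-- the composite of a character with the norm -/
noncomputable def chiN (F : Type) [Field F] [Algebra k F] [FiniteDimensional k F]
    (χ : MulChar k R) : MulChar F R :=
  MulChar.mk ((χ : k →* R).comp (Algebra.norm k : F →* k)) (by
    intro a ha
    have h0 : a = 0 := by
      by_contra h
      exact ha (isUnit_iff_ne_zero.2 h)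
    show χ (Algebra.norm k a) = 0
    rw [h0, Algebra.norm_zero, MulChar.map_zero])

theorem chiN_apply (χ : MulChar k R) (a : F) : chiN F χ a = χ (Algebra.norm k a) := rfl

theorem chiN_pow (χ : MulChar k R) (n : ℕ) : (chiN F χ) ^ n = chiN F (χ ^ n) := by
  apply MulChar.ext
  intro a
  have h : IsUnit (Algebra.norm k (a : F)) := a.isUnit.map _
  rw [MulChar.pow_apply_coe, chiN_apply, chiN_apply]
  obtain ⟨u, hu⟩ := h
  rw [← hu, MulChar.pow_apply_coe]

theorem chiN_inv (χ : MulChar k R) : (chiN F χ)⁻¹ = chiN F χ⁻¹ := by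
  apply MulChar.ext
  intro a
  have h1 : Algebra.norm k ((a : F)⁻¹) = (Algebra.norm k (a : F))⁻¹ := by
    apply eq_inv_of_mul_eq_one_left
    rw [← map_mul, inv_mul_cancel₀ a.ne_zero, map_one]
  rw [MulChar.inv_apply', chiN_apply, chiN_apply, MulChar.inv_apply', h1]

/-- the weight of a closed point as a norm -/
theorem psi_eq_norm (χ : MulChar k R) (c : F) (b : F × F × F) (Q : MI F) :
    χ (Algebra.norm k (AdjoinRoot.mk Q.1
      (C c * ((X - C b.1) * (X - C b.2.1) * (X - C b.2.2))))) = psi (chiN F χ) c b Q.1 := by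
  have hirr : Fact (Irreducible Q.1) := ⟨Q.2.2⟩
  have hfd : FiniteDimensional F (AdjoinRoot Q.1) := Q.2.1.finite_adjoinRoot
  rw [← Algebra.norm_norm (S := F)]
  unfold psi
  rw [chiN_apply]
  congr 2
  rw [map_mul, map_mul, map_mul, map_mul, map_mul, map_mul, norm_mk_sub, norm_mk_sub, norm_mk_sub]
  have h1 : Algebra.norm F (AdjoinRoot.mk Q.1 (C c)) = c ^ Q.1.natDegree := by
    have h2 : AdjoinRoot.mk Q.1 (C c) = algebraMap F (AdjoinRoot Q.1) c := rfl
    rw [h2, Algebra.norm_algebraMap, (AdjoinRoot.powerBasis Q.2.1.ne_zero).finrank,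
      AdjoinRoot.powerBasis_dim]
  rw [h1, neg_pow c]
  have h3 : ((-1 : F) ^ Q.1.natDegree) ^ 2 = 1 := by
    rw [← pow_mul, mul_comm, pow_mul, neg_one_sq, one_pow]
  linear_combination (c ^ Q.1.natDegree * (-1 : F) ^ Q.1.natDegree * (Q.1.eval b.1 *
    Q.1.eval b.2.1 * Q.1.eval b.2.2)) * h3

end psi

section sums

variable {F : Type} [Field F] [Finite F] {R : Type} [CommRing R] [IsDomain R]

/-- the sums over the monic polynomials of large degree vanish -/
theorem monSum_zero {χ : MulChar F R} (hχ : χ ^ 3 ≠ 1) (c : F) (b : F × F × F) (h : F[X])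
    (hm : h.Monic) (h0 : h.eval b.1 = 0) (h1 : h.eval b.2.1 = 0) (h2 : h.eval b.2.2 = 0) {n : ℕ}
    (hn : h.natDegree ≤ n) (hd : 0 < h.natDegree) : monSum (psi χ c b) n = 0 := by
  classical
  obtain ⟨a, ha⟩ : ∃ a : Fˣ, (χ ^ 3) a ≠ 1 := by
    by_contra h
    push Not at h
    apply hχ
    apply MulChar.ext
    intro a
    rw [h a, MulChar.one_apply_coe]
  have ha0 : (a : F) ≠ 0 := a.ne_zero
  have hdeg : ∀ (l : F) (g : F[X]), g.Monic → g.natDegree = n →
      (g + C (l - 1) * (g %ₘ h)).Monic ∧ (g + C (l - 1) * (g %ₘ h)).natDegree = n := by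
    intro l g hg hgn
    have h3 : (C (l - 1) * (g %ₘ h)).degree < g.degree := by
      rw [← smul_eq_C_mul]
      refine lt_of_le_of_lt (degree_smul_le _ _) (lt_of_lt_of_le (degree_modByMonic_lt g hm) ?_)
      rw [degree_eq_natDegree hm.ne_zero, degree_eq_natDegree hg.ne_zero, hgn]
      exact_mod_cast hn
    refine ⟨hg.add_of_left h3, ?_⟩
    rw [natDegree_add_eq_left_of_degree_lt h3, hgn]
  have hmod : ∀ (l : F) (g : F[X]), (g + C (l - 1) * (g %ₘ h)) %ₘ h = C l * (g %ₘ h) := by
    intro l g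
    rw [add_modByMonic, ← smul_eq_C_mul, smul_modByMonic,
      (modByMonic_eq_self_iff hm).2 (degree_modByMonic_lt g hm), smul_eq_C_mul, C_sub, C_1]
    ring
  have hev : ∀ (g : F[X]) (x : F), h.eval x = 0 → g.eval x = (g %ₘ h).eval x := by
    intro g x hx
    conv_lhs => rw [← modByMonic_add_div g h]
    rw [eval_add, eval_mul, hx, zero_mul, add_zero]
  have hval : ∀ g : F[X], g.Monic → g.natDegree = n →
      psi χ c b (g + C ((a : F) - 1) * (g %ₘ h)) = (χ ^ 3) a * psi χ c b g := by
    intro g hg hgn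
    unfold psi
    rw [(hdeg a g hg hgn).2, hgn, MulChar.pow_apply' χ three_ne_zero, ← map_pow, ← map_mul]
    congr 1
    rw [hev _ _ h0, hev _ _ h1, hev _ _ h2, hmod, hev g _ h0, hev g _ h1, hev g _ h2, eval_mul,
      eval_mul, eval_mul, eval_C, eval_C, eval_C]
    ring
  have h4 : monSum (psi χ c b) n = (χ ^ 3) a * monSum (psi χ c b) n := by
    conv_rhs => rw [monSum, Finset.mul_sum]
    rw [monSum]
    symm
    refine Finset.sum_bij' (fun g _ => g + C ((a : F) - 1) * (g %ₘ h))
      (fun g _ => g + C ((a : F)⁻¹ - 1) * (g %ₘ h)) ?_ ?_ ?_ ?_ ?_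
    · intro g hg
      rw [Set.Finite.mem_toFinset] at hg ⊢
      exact hdeg _ g hg.1 hg.2
    · intro g hg
      rw [Set.Finite.mem_toFinset] at hg ⊢
      exact hdeg _ g hg.1 hg.2
    · intro g hg
      rw [hmod]
      have : (C ((a : F)⁻¹ - 1) * (C (a : F) * (g %ₘ h)) : F[X]) =
          C (((a : F)⁻¹ - 1) * (a : F)) * (g %ₘ h) := by
        rw [C_mul]; ring
      rw [this, sub_mul, inv_mul_cancel₀ ha0, one_mul, add_assoc, ← add_mul, ← C_add]
      simp
    · intro g hg
      rw [hmod]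
      have : (C ((a : F) - 1) * (C ((a : F)⁻¹) * (g %ₘ h)) : F[X]) =
          C (((a : F) - 1) * (a : F)⁻¹) * (g %ₘ h) := by
        rw [C_mul]; ring
      rw [this, sub_mul, mul_inv_cancel₀ ha0, one_mul, add_assoc, ← add_mul, ← C_add]
      simp
    · intro g hg
      rw [Set.Finite.mem_toFinset] at hg
      exact (hval g hg.1 hg.2).symm
  have h5 : (1 - (χ ^ 3) a) * monSum (psi χ c b) n = 0 := by
    rw [sub_mul, one_mul, ← h4, sub_self]
  rcases mul_eq_zero.1 h5 with h6 | h6
  · exact absurd (sub_eq_zero.1 h6).symm ha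
  · exact h6

omit [IsDomain R] in
theorem monSum_at_zero (χ : MulChar F R) (c : F) (b : F × F × F) :
    monSum (psi χ c b) 0 = 1 := by
  classical
  have h1 : (finite_mon (F := F) 0).toFinset = {1} := by
    ext g
    rw [Set.Finite.mem_toFinset, Finset.mem_singleton]
    constructor
    · intro h
      exact h.1.natDegree_eq_zero.1 h.2
    · rintro rfl
      exact ⟨monic_one, natDegree_one⟩
  rw [monSum, h1, Finset.sum_singleton, psi_one]

end sums

section line

variable {F : Type} [Field F] [Fintype F] [DecidableEq F] {R : Type} [CommRing R]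

theorem monSum_at_one (χ : MulChar F R) (c : F) (b : F × F × F) :
    monSum (psi χ c b) 1 = χ (-c) * line b χ := by
  rw [monSum, line, Finset.mul_sum]
  symm
  refine Finset.sum_bij (fun v _ => X + C v) ?_ ?_ ?_ ?_
  · intro v _
    rw [Set.Finite.mem_toFinset]
    exact ⟨monic_X_add_C v, natDegree_X_add_C v⟩
  · intro v _ v' _ h
    exact C_injective (add_left_cancel h)
  · intro g hg
    rw [Set.Finite.mem_toFinset] at hg
    refine ⟨g.coeff 0, Finset.mem_univ _, ?_⟩
    obtain ⟨h1, h2⟩ := hg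
    have h3 := g.as_sum_range_C_mul_X_pow
    rw [h2, Finset.sum_range_succ, Finset.sum_range_one, pow_zero, mul_one, pow_one] at h3
    have h4 : g.coeff 1 = 1 := by
      have := h1.coeff_natDegree
      rwa [h2] at this
    rw [h4, C_1, one_mul] at h3
    rw [add_comm]
    exact h3.symm
  · intro v _
    unfold psi
    rw [natDegree_X_add_C, pow_one, ← map_mul]
    simp

/-- the weights of the plane for the points `0, 1, t` -/
def wts (t : F) : F × F × F := (t⁻¹, (1 - t)⁻¹, (t * (t - 1))⁻¹)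

theorem monSum_at_two (χ : MulChar F R) (c : F) {t : F} (ht : t ≠ 0) (ht1 : t ≠ 1) :
    monSum (psi χ c (0, 1, t)) 2 = χ (c ^ 2) * plane (wts t) χ := by
  have h1' : (1 : F) - t ≠ 0 := sub_ne_zero.2 ht1.symm
  have h1'' : t - 1 ≠ 0 := sub_ne_zero.2 ht1
  have h1 : plane (wts t) χ = ∑ y : F × F, χ (y.1 * y.2 * (t ^ 2 + (y.2 - 1 - y.1) * t + y.1)) := by
    unfold plane wts
    dsimp only
    rw [Fintype.sum_prod_type, Fintype.sum_prod_type]
    refine Finset.sum_congr rfl fun y0 _ => ?_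
    rw [Fintype.sum_prod_type]
    refine Finset.sum_congr rfl fun y1 _ => ?_
    dsimp only
    have h2 : ∀ z : F, t⁻¹ * y0 + (1 - t)⁻¹ * y1 + (t * (t - 1))⁻¹ * z = 1 ↔
        z = t ^ 2 + (y1 - 1 - y0) * t + y0 := by
      intro z
      have h3 : t⁻¹ * y0 + (1 - t)⁻¹ * y1 + (t * (t - 1))⁻¹ * z - 1 =
          (z - (t ^ 2 + (y1 - 1 - y0) * t + y0)) * (t * (t - 1))⁻¹ := by
        have h4 : (1 - t)⁻¹ = -(t - 1)⁻¹ := by
          rw [← neg_sub t 1, inv_neg]
        rw [h4, mul_inv]
        field_simp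
        ring
      rw [← sub_eq_zero, h3, mul_eq_zero, sub_eq_zero]
      constructor
      · rintro (h | h)
        · exact h
        · exact absurd h (inv_ne_zero (mul_ne_zero ht h1''))
      · intro h
        exact Or.inl h
    rw [Finset.sum_eq_single (t ^ 2 + (y1 - 1 - y0) * t + y0)]
    · unfold dl
      rw [if_pos ((h2 _).2 rfl), one_mul]
    · intro z _ hz
      unfold dl
      rw [if_neg (fun h => hz ((h2 z).1 h)), zero_mul]
    · intro h
      exact absurd (Finset.mem_univ _) h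
  rw [monSum, h1, Finset.mul_sum]
  symm
  refine Finset.sum_bij (fun y _ => X ^ 2 + C (y.2 - 1 - y.1) * X + C y.1) ?_ ?_ ?_ ?_
  · intro v _
    rw [Set.Finite.mem_toFinset]
    have h3 : (X ^ 2 + C (v.2 - 1 - v.1) * X + C v.1 : F[X]) =
        C 1 * X ^ 2 + C (v.2 - 1 - v.1) * X + C v.1 := by rw [C_1, one_mul]
    have h4 : (X ^ 2 + C (v.2 - 1 - v.1) * X + C v.1 : F[X]).natDegree = 2 := by
      rw [h3]
      exact natDegree_quadratic one_ne_zero
    refine ⟨?_, h4⟩
    unfold Monic
    rw [h3]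
    exact leadingCoeff_quadratic one_ne_zero
  · rintro ⟨v0, v1⟩ _ ⟨w0, w1⟩ _ h
    dsimp only at h
    have h3 := congrArg (eval 0) h
    have h4 := congrArg (eval 1) h
    simp only [eval_add, eval_mul, eval_pow, eval_X, eval_C] at h3 h4
    have h5 : v0 = w0 := by linear_combination h3
    rw [Prod.mk.injEq]
    exact ⟨h5, by linear_combination h4⟩
  · intro g hg
    rw [Set.Finite.mem_toFinset] at hg
    obtain ⟨h3, h4⟩ := hg
    refine ⟨(g.eval 0, g.eval 1), Finset.mem_univ _, ?_⟩
    have h5 := g.as_sum_range_C_mul_X_pow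
    rw [h4, Finset.sum_range_succ, Finset.sum_range_succ, Finset.sum_range_one, pow_zero, mul_one,
      pow_one] at h5
    have h6 : g.coeff 2 = 1 := by
      have := h3.coeff_natDegree
      rwa [h4] at this
    rw [h6, C_1, one_mul] at h5
    have h7 : g.eval 0 = g.coeff 0 := (coeff_zero_eq_eval_zero g).symm
    have h8 : g.eval 1 = g.coeff 0 + g.coeff 1 + 1 := by
      conv_lhs => rw [h5]
      simp
    dsimp only
    rw [h7, h8]
    conv_rhs => rw [h5]
    have h9 : g.coeff 0 + g.coeff 1 + 1 - 1 - g.coeff 0 = g.coeff 1 := by ring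
    rw [h9]
    ring
  · rintro ⟨y0, y1⟩ _
    dsimp only
    have h3 : (X ^ 2 + C (y1 - 1 - y0) * X + C y0 : F[X]).natDegree = 2 := by
      have h3 : (X ^ 2 + C (y1 - 1 - y0) * X + C y0 : F[X]) =
        C 1 * X ^ 2 + C (y1 - 1 - y0) * X + C y0 := by rw [C_1, one_mul]
      rw [h3]
      exact natDegree_quadratic one_ne_zero
    unfold psi
    dsimp only
    rw [h3, ← map_mul]
    congr 1
    simp only [eval_add, eval_mul, eval_pow, eval_X, eval_C]
    ring

end line

end Pool.Agent.Y709
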