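import Mathlib.Algebra.Polynomial.Expand
import Mathlib.LinearAlgebra.Matrix.Trace
import Mathlib.Data.Matrix.Mul
import Mathlib.Algebra.Polynomial.BigOperators

/-!
Products of the matrices of the operators `ψ ∘ G`.
-/

set_option autoImplicit false

open Polynomial

namespace Pool.Agent.Y709

variable {R : Type} [CommRing R] {ι : Type} [Fintype ι] [DecidableEq ι]

/-- the product `F (n - 1) ⋯ F 0` -/
def mprod {S κ : Type} [CommRing S] [Fintype κ] [DecidableEq κ] (F : ℕ → Matrix κ κ S) :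
    ℕ → Matrix κ κ S
  | 0 => 1
  | n + 1 => F n * mprod F n

/-- the product `G_{n-1}(x ^ (q ^ (n - 1))) ⋯ G_1(x ^ q) G_0(x)` -/
noncomputable def gprod (q : ℕ) (G : ℕ → Matrix ι ι R[X]) : ℕ → Matrix ι ι R[X] :=
  mprod fun n => (G n).map (expand R (q ^ n))

/-- the matrix of `ψ ∘ G` on `x R[x]` in degrees at most `m` -/
noncomputable def kmat (q m : ℕ) (G : Matrix ι ι R[X]) : Matrix (Fin m × ι) (Fin m × ι) R :=
  Matrix.of fun p r => (X ^ ((r.1 : ℕ) + 1) * G p.2 r.2).coeff (q * ((p.1 : ℕ) + 1))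

theorem mprod_succ {S κ : Type} [CommRing S] [Fintype κ] [DecidableEq κ]
    (F : ℕ → Matrix κ κ S) (n : ℕ) : mprod F (n + 1) = F n * mprod F n := rfl

theorem natDegree_gprod {q β : ℕ} {G : ℕ → Matrix ι ι R[X]}
    (hG : ∀ n a b, (G n a b).natDegree ≤ β) (n : ℕ) (a b : ι) :
    (gprod q G n a b).natDegree ≤ β * ∑ j ∈ Finset.range n, q ^ j := by
  induction n generalizing a b with
  | zero =>
    unfold gprod mprod
    rw [Matrix.one_apply]
    split_ifs <;> simp
  | succ n ih =>
    have h0 : gprod q G (n + 1) = (G n).map (expand R (q ^ n)) * gprod q G n := rfl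
    rw [h0, Matrix.mul_apply]
    refine natDegree_sum_le_of_forall_le _ _ fun c _ => ?_
    refine natDegree_mul_le.trans ?_
    rw [Matrix.map_apply, natDegree_expand]
    have h1 := hG n a c
    have h2 := ih c b
    rw [Finset.sum_range_succ, mul_add, add_comm]
    exact Nat.add_le_add h2 (Nat.mul_le_mul_right _ h1)

theorem geom_q {q : ℕ} (hq : 0 < q) (n : ℕ) : (q - 1) * ∑ j ∈ Finset.range n, q ^ j = q ^ n - 1 := by
  have := Nat.geomSum_eq (m := q)
  rcases Nat.lt_or_ge 1 q with h | h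
  · rw [Nat.geomSum_eq h, Nat.mul_div_cancel']
    have h1 := Nat.sub_dvd_pow_sub_pow q 1 n
    rwa [one_pow] at h1
  · have h1 : q = 1 := le_antisymm h hq
    subst h1
    simp

/-- the coefficient of a product with a polynomial in `x ^ Q` -/
theorem coeff_expand_mul {Q : ℕ} (hQ : 0 < Q) {m : ℕ} (A B : R[X]) (h0 : B.coeff 0 = 0)
    (hB : ∀ u, m < u → B.coeff (u * Q) = 0) (N : ℕ) :
    (expand R Q A * B).coeff (N * Q) =
      ∑ s : Fin m, (X ^ ((s : ℕ) + 1) * A).coeff N * B.coeff (Q * ((s : ℕ) + 1)) := by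
  rw [← coeff_contract hQ.ne', mul_comm, contract_mul_expand hQ.ne']
  have h1 : contract Q B = ∑ s : Fin m, C (B.coeff (Q * ((s : ℕ) + 1))) * X ^ ((s : ℕ) + 1) := by
    ext u
    rw [coeff_contract hQ.ne', finsetSum_coeff]
    simp only [coeff_C_mul, coeff_X_pow, mul_ite, mul_one, mul_zero]
    by_cases hu0 : u = 0
    · subst hu0
      rw [zero_mul, h0]
      refine (Finset.sum_eq_zero fun s _ => ?_).symm
      rw [if_neg (by omega)]
    · by_cases hum : m < u
      · rw [hB u hum]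
        refine (Finset.sum_eq_zero fun s _ => ?_).symm
        rw [if_neg (by have := s.2; omega)]
      · rw [Finset.sum_eq_single (⟨u - 1, by omega⟩ : Fin m)]
        · rw [if_pos (by show u = u - 1 + 1; omega)]
          congr 1
          show u * Q = Q * (u - 1 + 1)
          rw [mul_comm, show u - 1 + 1 = u by omega]
        · intro s _ hs
          rw [if_neg]
          intro h
          apply hs
          apply Fin.ext
          show (s : ℕ) = u - 1
          omega
        · intro h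
          exact absurd (Finset.mem_univ _) h
  rw [h1, Finset.sum_mul, finsetSum_coeff]
  refine Finset.sum_congr rfl fun s _ => ?_
  rw [mul_assoc, coeff_C_mul, mul_comm]

theorem bound_aux {q m n : ℕ} (hq : 0 < q) (h : 0 < (q - 1) * (m + 1)) :
    m + ((q - 1) * (m + 1) - 1) * ∑ j ∈ Finset.range n, q ^ j < q ^ n * (m + 1) := by
  have h1 := geom_q hq n
  have hQ : 0 < q ^ n := pow_pos hq n
  rw [Nat.sub_mul, one_mul, mul_right_comm, h1]
  have h2 : (q ^ n - 1) * (m + 1) ≤ q ^ n * (m + 1) - (m + 1) := by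
    rw [Nat.sub_mul, one_mul]
  have h3 : m + 1 ≤ q ^ n * (m + 1) := Nat.le_mul_of_pos_left _ hQ
  omega

theorem mprod_kmat {q m : ℕ} (hq : 0 < q) {G : ℕ → Matrix ι ι R[X]}
    (hG : ∀ n a b, (G n a b).natDegree < (q - 1) * (m + 1)) (n : ℕ) (p r : Fin m × ι) :
    mprod (fun j => kmat q m (G j)) n p r =
      (X ^ ((r.1 : ℕ) + 1) * gprod q G n p.2 r.2).coeff (q ^ n * ((p.1 : ℕ) + 1)) := by
  induction n generalizing p r with
  | zero =>
    unfold gprod mprod
    rw [Matrix.one_apply, Matrix.one_apply, pow_zero, one_mul]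
    by_cases h : p = r
    · subst h
      rw [if_pos rfl, if_pos rfl, mul_one, coeff_X_pow, if_pos rfl]
    · rw [if_neg h]
      by_cases h2 : p.2 = r.2
      · rw [if_pos h2, mul_one, coeff_X_pow, if_neg]
        intro h3
        exact h (Prod.ext (Fin.ext (by omega)) h2)
      · rw [if_neg h2, mul_zero, coeff_zero]
  | succ n ih =>
    have hQ : 0 < q ^ n := pow_pos hq n
    have h0 : gprod q G (n + 1) = (G n).map (expand R (q ^ n)) * gprod q G n := rfl
    rw [mprod_succ, h0, Matrix.mul_apply, Matrix.mul_apply, Finset.mul_sum, finsetSum_coeff,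
      Fintype.sum_prod_type_right]
    refine Finset.sum_congr rfl fun c _ => ?_
    have h1 : X ^ ((r.1 : ℕ) + 1) * ((G n).map (expand R (q ^ n)) p.2 c * gprod q G n c r.2) =
        expand R (q ^ n) (G n p.2 c) * (X ^ ((r.1 : ℕ) + 1) * gprod q G n c r.2) := by
      rw [Matrix.map_apply]; ring
    have h2 : q ^ (n + 1) * ((p.1 : ℕ) + 1) = (q * ((p.1 : ℕ) + 1)) * q ^ n := by
      rw [pow_succ]; ring
    rw [h1, h2, coeff_expand_mul hQ (m := m)]
    · refine Finset.sum_congr rfl fun s _ => ?_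
      rw [ih]
      rfl
    · rw [coeff_X_pow_mul', if_neg (by omega)]
    · intro u hu
      apply coeff_eq_zero_of_natDegree_lt
      refine lt_of_le_of_lt natDegree_mul_le ?_
      have h3 := natDegree_gprod (q := q) (β := (q - 1) * (m + 1) - 1)
        (fun n a b => Nat.le_sub_one_of_lt (hG n a b)) n c r.2
      have h4 : (X ^ ((r.1 : ℕ) + 1) : R[X]).natDegree ≤ m :=
        (natDegree_X_pow_le _).trans r.1.2
      have h5 := bound_aux hq (m := m) (n := n) (Nat.lt_of_le_of_lt (Nat.zero_le _) (hG 0 c c))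
      have h6 : q ^ n * (m + 1) ≤ u * q ^ n := by
        rw [mul_comm u]
        exact Nat.mul_le_mul_left _ hu
      omega

/-- the trace of the product -/
theorem trace_mprod_kmat {q m : ℕ} (hq : 0 < q) {G : ℕ → Matrix ι ι R[X]}
    (hG : ∀ n a b, (G n a b).natDegree < (q - 1) * (m + 1)) (n : ℕ) :
    (mprod (fun j => kmat q m (G j)) n).trace =
      ∑ i ∈ Finset.range m, ((gprod q G n).trace).coeff ((q ^ n - 1) * (i + 1)) := by
  unfold Matrix.trace
  simp only [Matrix.diag_apply]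
  rw [Fintype.sum_prod_type, ← Fin.sum_univ_eq_sum_range
    (fun i => (∑ a, gprod q G n a a).coeff ((q ^ n - 1) * (i + 1)))]
  refine Finset.sum_congr rfl fun i _ => ?_
  rw [finsetSum_coeff]
  refine Finset.sum_congr rfl fun a _ => ?_
  have hQ : 0 < q ^ n := pow_pos hq n
  rw [mprod_kmat hq hG, coeff_X_pow_mul']
  have h1 : (i : ℕ) + 1 ≤ q ^ n * ((i : ℕ) + 1) := Nat.le_mul_of_pos_left _ hQ
  rw [if_pos h1]
  congr 1
  rw [Nat.sub_mul, one_mul]

theorem natDegree_trace_gprod {q m : ℕ} (hq : 0 < q) {G : ℕ → Matrix ι ι R[X]}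
    (hG : ∀ n a b, (G n a b).natDegree < (q - 1) * (m + 1)) {n : ℕ} (hn : 0 < n) (hm : 0 < (q - 1) * (m + 1)) :
    ((gprod q G n).trace).natDegree < (q ^ n - 1) * (m + 1) := by
  have h1 : ((gprod q G n).trace).natDegree ≤
      ((q - 1) * (m + 1) - 1) * ∑ j ∈ Finset.range n, q ^ j :=
    natDegree_sum_le_of_forall_le _ _ fun a _ => natDegree_gprod
      (fun n a b => Nat.le_sub_one_of_lt (hG n a b)) n a a
  refine lt_of_le_of_lt h1 ?_
  rw [Nat.sub_mul, one_mul, mul_right_comm, geom_q hq n]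
  have h2 : 0 < ∑ j ∈ Finset.range n, q ^ j :=
    Finset.sum_pos (fun j _ => pow_pos hq j) ⟨0, Finset.mem_range.2 hn⟩
  have h3 : 0 < (q ^ n - 1) * (m + 1) := by
    rw [← geom_q hq n, mul_right_comm]
    exact Nat.mul_pos hm h2
  omega

end Pool.Agent.Y709
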