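import Pool.Agent.Y709.Cart
import Pool.Agent.Y709.Path
import Mathlib.LinearAlgebra.Matrix.ToLinearEquiv

/-!
The fixed vectors.
-/

set_option autoImplicit false

open Polynomial

namespace Pool.Agent.Y709

variable {k K : Type} [Field k] [Field K] [Algebra k K]

theorem eval_charpolyRev_one {κ : Type} [Fintype κ] [DecidableEq κ] (A : Matrix κ κ K) :
    A.charpolyRev.eval 1 = (1 - A).det := by
  unfold Matrix.charpolyRev
  rw [← coe_evalRingHom, RingHom.map_det]
  congr 1
  refine Matrix.ext fun a b => ?_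
  rw [RingHom.mapMatrix_apply, Matrix.map_apply, Matrix.sub_apply, Matrix.smul_apply,
    Matrix.map_apply, Matrix.sub_apply, coe_evalRingHom, eval_sub, smul_eq_mul, eval_mul, eval_X,
    eval_C, one_mul, Matrix.one_apply, Matrix.one_apply]
  split_ifs
  · rw [Polynomial.eval_one]
  · rw [eval_zero]

/-- a fixed vector from the eigenvalue one -/
theorem fixed_of_det (q m : ℕ) (hq : 2 ≤ q) (D : k[X]) (M : Matrix (Fin 2) (Fin 2) k[X])
    (hM : ∀ i j, 6 * M i j =
      D * (!![3 * X - 2, 1; X ^ 3, 3 * X ^ 2 - 2 * X ^ 3] : Matrix (Fin 2) (Fin 2) k[X]) i j)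
    (hdeg : ∀ i j, (M i j).natDegree < (q - 1) * (m + 1))
    (hdet : (kmat q m (M.map (Polynomial.map (algebraMap k K)))).charpolyRev.eval 1 = 0) :
    ∃ w : k[X] × k[X], w ≠ 0 ∧ IsFixed q D w := by
  classical
  rw [eval_charpolyRev_one] at hdet
  have h1 : kmat q m (M.map (Polynomial.map (algebraMap k K))) =
      (kmat q m M).map (algebraMap k K) := by
    refine Matrix.ext fun a b => ?_
    unfold kmat
    rw [Matrix.map_apply, Matrix.of_apply, Matrix.of_apply, Matrix.map_apply,
      ← Polynomial.coeff_map, Polynomial.map_mul, Polynomial.map_pow, map_X]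
  have h2 : (1 - kmat q m M).det = 0 := by
    apply (algebraMap k K).injective
    rw [RingHom.map_det, map_zero, ← hdet, h1]
    congr 1
    refine Matrix.ext fun a b => ?_
    rw [RingHom.mapMatrix_apply, Matrix.map_apply, Matrix.sub_apply, Matrix.sub_apply,
      Matrix.map_apply, map_sub, Matrix.one_apply, Matrix.one_apply]
    split_ifs <;> simp
  obtain ⟨v, hv0, hv⟩ := Matrix.exists_mulVec_eq_zero_iff.2 h2
  rw [Matrix.sub_mulVec, Matrix.one_mulVec, sub_eq_zero] at hv
  let w : Fin 2 → k[X] := fun a => ∑ i : Fin m, C (v (i, a)) * X ^ (i : ℕ)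
  have hwc : ∀ a (n : ℕ), (w a).coeff n = if h : n < m then v (⟨n, h⟩, a) else 0 := by
    intro a n
    show (∑ i : Fin m, C (v (i, a)) * X ^ (i : ℕ)).coeff n = _
    rw [finsetSum_coeff]
    simp only [coeff_C_mul, coeff_X_pow]
    split_ifs with h
    · rw [Finset.sum_eq_single (⟨n, h⟩ : Fin m)]
      · simp
      · intro b _ hb
        rw [if_neg, mul_zero]
        intro h'
        exact hb (Fin.ext h'.symm)
      · intro h'
        exact absurd (Finset.mem_univ _) h'
    · refine Finset.sum_eq_zero fun b _ => ?_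
      rw [if_neg, mul_zero]
      intro h'
      exact h (h' ▸ b.2)
  have hwd : ∀ a, (w a).natDegree ≤ m - 1 := by
    intro a
    rw [natDegree_le_iff_coeff_eq_zero]
    intro n hn
    rw [hwc, dif_neg (by omega)]
  -- the fixed equation for the polynomials
  have hfix : ∀ b : Fin 2, cart q (∑ a : Fin 2, M b a * w a) = w b := by
    intro b
    ext n
    rw [coeff_cart (by omega), hwc]
    split_ifs with h
    · have h3 := congrFun hv (⟨n, h⟩, b)
      rw [h3, Matrix.mulVec, dotProduct, Fintype.sum_prod_type, Finset.sum_comm, finsetSum_coeff]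
      refine Finset.sum_congr rfl fun a _ => ?_
      show (M b a * ∑ i : Fin m, C (v (i, a)) * X ^ (i : ℕ)).coeff (q * n + (q - 1)) = _
      rw [Finset.mul_sum, finsetSum_coeff]
      refine Finset.sum_congr rfl fun i _ => ?_
      unfold kmat
      rw [Matrix.of_apply]
      have h4 : q * (n + 1) = (q * n + (q - 1)) + 1 := by
        rw [Nat.mul_add]; omega
      show _ = (X ^ ((i : ℕ) + 1) * M b a).coeff (q * (n + 1)) * v (i, a)
      have h5 : (X ^ ((i : ℕ) + 1) * M b a : k[X]) = (X ^ (i : ℕ) * M b a) * X := by ring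
      rw [h4, h5, coeff_mul_X]
      have h6 : M b a * (C (v (i, a)) * X ^ (i : ℕ)) = C (v (i, a)) * (X ^ (i : ℕ) * M b a) := by
        ring
      rw [h6, coeff_C_mul, mul_comm]
    · rw [finsetSum_coeff]
      refine Finset.sum_eq_zero fun a _ => ?_
      rcases Nat.eq_zero_or_pos m with hm | hm
      · have hw0 : w a = 0 := by
          ext l
          rw [hwc, dif_neg (by omega), coeff_zero]
        rw [hw0, mul_zero, coeff_zero]
      apply coeff_eq_zero_of_natDegree_lt
      refine natDegree_mul_le.trans_lt ?_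
      have h3 := hdeg b a
      have h4 := hwd a
      have h5 : q * m ≤ q * n := Nat.mul_le_mul_left q (by omega)
      have h6 : (q - 1) * (m + 1) + (m + 1) = q * m + q := by
        rw [← Nat.succ_mul, Nat.succ_eq_add_one, Nat.sub_add_cancel (by omega), Nat.mul_add,
          mul_one]
      omega
  refine ⟨(w 0, w 1), ?_, ?_, ?_⟩
  · intro h
    apply hv0
    funext x
    obtain ⟨i, a⟩ := x
    have h0 : w 0 = 0 := (Prod.mk.inj h).1
    have h1 : w 1 = 0 := (Prod.mk.inj h).2
    have h3 : w a = 0 := by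
      fin_cases a
      · exact h0
      · exact h1
    have h4 : (w a).coeff (i : ℕ) = 0 := by rw [h3, coeff_zero]
    rw [hwc, dif_pos i.2] at h4
    exact h4
  · have h3 : D * vone (w 0, w 1) = C 6 * ∑ a : Fin 2, M 0 a * w a := by
      have h4 := hM 0 0
      have h5 := hM 0 1
      simp at h4 h5
      rw [Fin.sum_univ_two, map_ofNat, mul_add, ← mul_assoc, ← mul_assoc, h4, h5]
      unfold vone
      ring
    rw [h3, cart_C_mul (by omega), hfix 0, map_ofNat]
  · have h3 : D * vtwo (w 0, w 1) = C 6 * ∑ a : Fin 2, M 1 a * w a := by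
      have h4 := hM 1 0
      have h5 := hM 1 1
      simp at h4 h5
      rw [Fin.sum_univ_two, map_ofNat, mul_add, ← mul_assoc, ← mul_assoc, h4, h5]
      unfold vtwo
      ring
    rw [h3, cart_C_mul (by omega), hfix 1, map_ofNat]

end Pool.Agent.Y709
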