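import Pool.Agent.Y709.Cart
import Mathlib.LinearAlgebra.Matrix.Determinant.Basic

/-!
Statements of the counting parts of the general theorem (rank `r`).
-/

set_option autoImplicit false

open Polynomial

namespace Pool.Agent.Y709

/-- Part G1: saturated lattices of rank `r` for the `q`-th powers. -/
def LatGen (k : Type) [Field k] (q r : ℕ) : Prop :=
  ∀ v : Fin r → k[X], (∀ a : Fin r → k[X], ∑ i, expand k q (a i) * v i = 0 → a = 0) →
  ∃ (n : Fin r → k[X]) (A : Fin r → Fin r → k[X]),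
    (∀ j, n j ≠ 0) ∧
    (∀ i j, i ≠ j → ¬ (n i).natDegree ≡ (n j).natDegree [MOD q]) ∧
    (∀ i, v i = ∑ j, expand k q (A i j) * n j) ∧
    (∀ i j, A i j = 0 ∨ q * (A i j).natDegree + (n j).natDegree ≤ (v i).natDegree) ∧
    ∀ N : ℕ, ∑ j, (N + 1 + (n j).natDegree) / q < (r + 1) * ((N + 1) / q) →
      Nat.card {D : k[X] // D.natDegree ≤ N ∧ ∀ i, cart q (D * v i) = 0} *
        Nat.card k ^ (∑ j, (N + 1 + (n j).natDegree) / q) ≤ Nat.card k ^ (N + 1)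

/-- Part G2: the number of polynomials with a fixed vector. -/
def CountGen (k : Type) [Field k] (q r : ℕ) : Prop :=
  ∀ (Φ : Matrix (Fin r) (Fin r) k[X]) (f ρ M N : ℕ), Φ.det ≠ 0 →
    (∀ i j, (Φ i j).natDegree ≤ f) → r * f + 3 * r ^ 2 + 6 * r + 8 ≤ q → r + 1 ≤ ρ →
    ρ + f ≤ q - 1 → 4 * r ^ 2 + 8 ≤ M → N + 1 = (q - 1) * M + ρ →
    Nat.card {D : k[X] // D.natDegree ≤ N ∧ ∃ w : Fin r → k[X], w ≠ 0 ∧
      ∀ i, cart q (D * ∑ j, Φ i j * w j) = w i} ≤ 2 * r * q ^ N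

end Pool.Agent.Y709
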