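import Pool.Agent.Y709.GStm

/-!
Statement of the counting part without a bound on the degree of the matrix.
-/

set_option autoImplicit false

open Polynomial

namespace Pool.Agent.Y709

/-- There is no proper subspace that is stable under the semilinear map of `Φ`: for every set `S` of
linear forms that is not zero and has a nonzero common zero `u₀`, there is a common zero `x` of `S`
for which `Φ x` is not a common zero of the twisted forms. -/
def IrrX {k : Type} [Field k] (q : ℕ) {r : ℕ} (Φ : Matrix (Fin r) (Fin r) k[X]) : Prop :=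
  ∀ (S : Set (Fin r → k[X])) (L₀ u₀ : Fin r → k[X]), L₀ ∈ S → L₀ ≠ 0 → u₀ ≠ 0 →
    (∀ L ∈ S, ∑ b, L b * u₀ b = 0) →
    ∃ x : Fin r → k[X], (∀ L ∈ S, ∑ b, L b * x b = 0) ∧
      ∃ L ∈ S, ∑ b, expand k q (L b) * ∑ j, Φ b j * x j ≠ 0

/-- Part G4: the number of polynomials with a fixed vector, for a matrix of any degree `f` whose
leading matrix is invertible, whose elementary divisors have no irreducible factor of multiplicity
more than `κ`, and which is irreducible. -/
def CountDet (k : Type) [Field k] (q r : ℕ) : Prop :=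
  ∀ (Φ Ψ : Matrix (Fin r) (Fin r) k[X]) (δ : k[X]) (f κ ρ V N : ℕ),
    (∀ i j, (Φ i j).natDegree ≤ f) → (Matrix.of fun i j => (Φ i j).coeff f).det ≠ 0 →
    δ ≠ 0 → Φ * Ψ = δ • (1 : Matrix (Fin r) (Fin r) k[X]) →
    (∀ P : k[X], Irreducible P → ¬ P ^ (κ + 1) ∣ δ) → IrrX q Φ →
    κ + 3 * r + 4 ≤ q → 4 * (r + 1) ^ 2 ≤ q → 2 * r + 1 ≤ ρ → ρ + 2 ≤ q →
    8 * (r + 1) ^ 2 * (f + 1) ≤ V → N + f = (q - 1) * V + ρ →
    Nat.card {D : k[X] // D.natDegree ≤ N ∧ ∃ w : Fin r → k[X], w ≠ 0 ∧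
      ∀ i, cart q (D * ∑ j, Φ i j * w j) = w i} ≤ 2 * q ^ N

end Pool.Agent.Y709
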