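import Pool.Agent.Y709.GStm3

/-!
Irreducibility for the semilinear count without a bound on the degree of the matrix.
-/

set_option autoImplicit false

open Polynomial

namespace Pool.Agent.Y709

/-- There is no proper subspace that is stable under the semilinear map of `Φ`: for every set `S` of
linear forms that is not zero and has a nonzero common zero `u₀`, there is a common zero `x` of `S`
for which `Φ x` is not a common zero of the twisted forms. -/
def IrrXS {k : Type} [Field k] (q : ℕ) (σ : k →+* k) {r : ℕ} (Φ : Matrix (Fin r) (Fin r) k[X]) :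
    Prop :=
  ∀ (S : Set (Fin r → k[X])) (L₀ u₀ : Fin r → k[X]), L₀ ∈ S → L₀ ≠ 0 → u₀ ≠ 0 →
    (∀ L ∈ S, ∑ b, L b * u₀ b = 0) →
    ∃ x : Fin r → k[X], (∀ L ∈ S, ∑ b, L b * x b = 0) ∧
      ∃ L ∈ S, ∑ b, expand k q ((L b).map σ) * ∑ j, Φ b j * x j ≠ 0

end Pool.Agent.Y709
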