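import Pool.Agent.W313.Hyp.Irr

/-!
The Euler product of a multiplicative function on the monic polynomials over a finite field
(after Pool.Agent.W313.Hyp.Irr).
-/

set_option autoImplicit false

open PowerSeries

namespace Pool.Agent.Y709

open Pool.Agent.W313.Hyp Pool.Agent.W343.BSD

variable {F : Type} [Field F] [Finite F] {R : Type} [CommRing R]

/-- the sum of the values at the monic polynomials of degree `n` -/
noncomputable def monSum (ψ : Polynomial F → R) (n : ℕ) : R :=
  ∑ g ∈ (finite_mon (F := F) n).toFinset, ψ g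

/-- the generating function -/
noncomputable def GW (ψ : Polynomial F → R) (A : Finset (MI F)) : PowerSeries R :=
  PowerSeries.mk fun n => ∑ g ∈ (SA_finite A n).toFinset, ψ g

theorem GW_empty {ψ : Polynomial F → R} (h1 : ψ 1 = 1) : GW ψ (∅ : Finset (MI F)) = 1 := by
  ext n
  rw [GW, coeff_mk, coeff_one]
  have h2 : (SA_finite (∅ : Finset (MI F)) n).toFinset = if n = 0 then {1} else ∅ := by
    ext g
    rw [Set.Finite.mem_toFinset, SA_empty]
    split_ifs
    · rw [Set.mem_singleton_iff, Finset.mem_singleton]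
    · simp
  rw [h2]
  split_ifs with h
  · rw [Finset.sum_singleton, h1]
  · rw [Finset.sum_empty]

theorem GW_insert {ψ : Polynomial F → R} (hψ : ∀ (P : MI F) (g : Polynomial F), g.Monic →
    ψ (P.1 * g) = ψ P.1 * ψ g) [DecidableEq (MI F)] (A : Finset (MI F)) (P : MI F) (hP : P ∉ A) :
    (1 - C (ψ P.1) * X ^ P.1.natDegree) * GW ψ (insert P A) = GW ψ A := by
  classical
  ext n
  rw [sub_mul, one_mul, map_sub, mul_assoc, coeff_C_mul, coeff_X_pow_mul', GW, GW, coeff_mk,
    coeff_mk]
  have h1 : (SA_finite (insert P A) n).toFinset = (SA_finite A n).toFinset ∪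
      (if P.1.natDegree ≤ n then ((SA_finite (insert P A) (n - P.1.natDegree)).toFinset).image
        (fun g => P.1 * g) else ∅) := by
    ext g
    rw [Set.Finite.mem_toFinset, SA_insert A P hP n, Finset.mem_union, Set.Finite.mem_toFinset,
      Set.mem_union]
    split_ifs with hle
    · rw [Finset.mem_image, Set.mem_image]
      simp only [Set.Finite.mem_toFinset]
    · simp
  have hdisj : Disjoint (SA_finite A n).toFinset
      (if P.1.natDegree ≤ n then ((SA_finite (insert P A) (n - P.1.natDegree)).toFinset).image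
        (fun g => P.1 * g) else ∅) := by
    rw [Finset.disjoint_left]
    intro g hg hg'
    rw [Set.Finite.mem_toFinset] at hg
    split_ifs at hg' with hle
    · rw [Finset.mem_image] at hg'
      obtain ⟨h, _, rfl⟩ := hg'
      exact hP (hg.2 P (Dvd.intro _ rfl))
    · exact absurd hg' (Finset.notMem_empty g)
  rw [h1, Finset.sum_union hdisj]
  split_ifs with hle
  · rw [Finset.sum_image (fun a _ b _ h => mul_right_injective₀ P.2.1.ne_zero h), coeff_mk,
      Finset.mul_sum]
    have h2 : ∑ x ∈ (SA_finite (insert P A) (n - P.1.natDegree)).toFinset, ψ (P.1 * x) =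
        ∑ x ∈ (SA_finite (insert P A) (n - P.1.natDegree)).toFinset, ψ P.1 * ψ x := by
      refine Finset.sum_congr rfl fun g hg => ?_
      rw [Set.Finite.mem_toFinset] at hg
      exact hψ P g hg.1.1
    rw [h2]
    ring
  · rw [Finset.sum_empty, coeff_mk]
    ring

theorem prod_mul_GW {ψ : Polynomial F → R} (h1 : ψ 1 = 1)
    (hψ : ∀ (P : MI F) (g : Polynomial F), g.Monic → ψ (P.1 * g) = ψ P.1 * ψ g)
    (A : Finset (MI F)) :
    (∏ P ∈ A, (1 - C (ψ P.1) * X ^ P.1.natDegree : PowerSeries R)) * GW ψ A = 1 := by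
  classical
  induction A using Finset.induction_on with
  | empty => rw [Finset.prod_empty, one_mul, GW_empty h1]
  | insert P A hP ih =>
    rw [Finset.prod_insert hP, mul_comm (1 - C (ψ P.1) * X ^ P.1.natDegree : PowerSeries R),
      mul_assoc, GW_insert hψ A P hP, ih]

theorem wt_mod (ψ : Polynomial F → R) (P : MI F) :
    (X : PowerSeries R) ^ P.1.natDegree ∣ (1 - C (ψ P.1) * X ^ P.1.natDegree) - 1 := by
  rw [sub_right_comm, sub_self, zero_sub]
  exact (dvd_neg).2 (dvd_mul_left _ _)

/-- **the Euler product** -/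
theorem euler_wt {ψ : Polynomial F → R} (h1 : ψ 1 = 1)
    (hψ : ∀ (P : MI F) (g : Polynomial F), g.Monic → ψ (P.1 * g) = ψ P.1 * ψ g) :
    eulerProd (fun P : MI F => P.1.natDegree) (fun P => 1 - C (ψ P.1) * X ^ P.1.natDegree) *
      PowerSeries.mk (monSum ψ) = 1 := by
  apply eq_of_mod
  intro n
  have h2 := eulerProd_mod (fun n => finite_deg_le (F := F) n) (wt_mod ψ) n
    (finite_deg_le n).toFinset (fun P hP => by rw [Set.Finite.mem_toFinset]; exact hP)
  have h3 := prod_mul_GW h1 hψ (finite_deg_le (F := F) n).toFinset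
  have h4 : (X : PowerSeries R) ^ (n + 1) ∣ PowerSeries.mk (monSum ψ) -
      GW ψ (finite_deg_le (F := F) n).toFinset := by
    rw [X_pow_dvd_iff]
    intro m hm
    rw [map_sub, sub_eq_zero, coeff_mk, GW, coeff_mk, monSum]
    congr 1
    ext g
    rw [Set.Finite.mem_toFinset, Set.Finite.mem_toFinset]
    constructor
    · intro h
      refine ⟨h, fun P hP => ?_⟩
      rw [Set.Finite.mem_toFinset]
      have h5 := Polynomial.natDegree_le_of_dvd hP h.1.ne_zero
      have h6 := h.2
      show P.1.natDegree ≤ n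
      omega
    · intro h
      exact h.1
  have h5 := mul_congr_mod h2 h4
  rw [h3] at h5
  exact h5

end Pool.Agent.Y709
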