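import Pool.Agent.Y709.Trace
import Pool.Agent.Y709.Tri

/-!
Power sums over finite fields of characteristic `p`.
-/

set_option autoImplicit false

open Polynomial

namespace Pool.Agent.Y709

section one

variable {R : Type} [CommRing R]

/-- a `1 × 1` matrix -/
def one' {S : Type} (a : S) : Matrix Unit Unit S := Matrix.of fun _ _ => a

theorem mprod_one' {S : Type} [CommRing S] (f : ℕ → S) (n : ℕ) :
    mprod (fun j => one' (f j)) n = one' (∏ j ∈ Finset.range n, f j) := by
  induction n with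
  | zero =>
    refine Matrix.ext fun i j => ?_
    show (1 : Matrix Unit Unit S) i j = _
    rw [Subsingleton.elim i j, Matrix.one_apply_eq, Finset.prod_range_zero]
    rfl
  | succ n ih =>
    rw [mprod_succ, ih, Finset.prod_range_succ]
    refine Matrix.ext fun i j => ?_
    rw [Matrix.mul_apply]
    simp [one', mul_comm]

theorem trace_one' {S : Type} [CommRing S] (a : S) : (one' a).trace = a := by
  simp [Matrix.trace, one']

end one

section sums

variable {F : Type} [Field F] [Fintype F]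

theorem cast_q {q d : ℕ} (hd : 0 < d) (hF : Fintype.card F = q ^ d) : (q : F) = 0 := by
  have h1 : ((Fintype.card F : ℕ) : F) = 0 := FiniteField.cast_card_eq_zero F
  rw [hF, Nat.cast_pow] at h1
  exact (pow_eq_zero_iff hd.ne').1 h1

/-- the sum of a product of conjugate polynomials -/
theorem sum_conj {q d m : ℕ} (hq : 1 < q) (hd : 0 < d) (hF : Fintype.card F = q ^ d)
    (g : ℕ → F[X]) (hg : ∀ j, (g j).natDegree < (q - 1) * (m + 1)) :
    ∑ a : F, ∏ j ∈ Finset.range d, (g j).eval (a ^ (q ^ j)) =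
      -(mprod (fun j => kmat q m (one' (g j))) d).trace := by
  have h1 := sum_trace_gen (R := F) (E := F) (MonoidHom.id F) (fun _ _ h => h) rfl (m := m) hq hd hF
    (fun j => one' (g j)) (fun j _ _ => hg j)
  have h2 : ∀ u : F, ((gprod q (fun j => one' (g j)) d).trace).eval (MonoidHom.id F u) =
      ∏ j ∈ Finset.range d, (g j).eval (u ^ (q ^ j)) := by
    intro u
    unfold gprod
    have h3 : (fun n => (one' (g n)).map (expand F (q ^ n))) =
        fun n => one' (expand F (q ^ n) (g n)) := by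
      funext n
      rfl
    rw [h3, mprod_one', trace_one', eval_prod]
    refine Finset.prod_congr rfl fun j _ => ?_
    rw [expand_eval]
    rfl
  rw [Finset.sum_congr rfl fun u _ => h2 u] at h1
  rw [h1, cast_q hd hF, zero_pow hd.ne']
  ring

/-- the special case of a one-dimensional space -/
theorem sum_conj_one {q d : ℕ} (hq : 1 < q) (hd : 0 < d) (hF : Fintype.card F = q ^ d)
    (g : ℕ → F[X]) (hg : ∀ j, (g j).natDegree < (q - 1) * 2) (c : F)
    (hc : ∀ j, (g j).coeff (q - 1) = c) :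
    ∑ a : F, ∏ j ∈ Finset.range d, (g j).eval (a ^ (q ^ j)) = - c ^ d := by
  rw [sum_conj hq hd hF g (m := 1) hg]
  congr 1
  have h1 : ∀ j, kmat q 1 (one' (g j)) = Matrix.of fun _ _ => c := by
    intro j
    refine Matrix.ext fun a b => ?_
    unfold kmat one'
    rw [Matrix.of_apply, Matrix.of_apply, Matrix.of_apply]
    have ha : ((a.1 : Fin 1) : ℕ) = 0 := by omega
    have hb : ((b.1 : Fin 1) : ℕ) = 0 := by omega
    rw [ha, hb, zero_add, mul_one, coeff_X_pow_mul', if_pos (by omega), hc]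
  have h2 : (fun j => kmat q 1 (one' (g j))) =
      fun _ => (Matrix.of fun _ _ => c : Matrix (Fin 1 × Unit) (Fin 1 × Unit) F) := funext h1
  rw [h2, mprod_const]
  have h3 : ∀ n : ℕ, (Matrix.of fun _ _ => c : Matrix (Fin 1 × Unit) (Fin 1 × Unit) F) ^ n =
      Matrix.of fun _ _ => c ^ n := by
    intro n
    induction n with
    | zero =>
      refine Matrix.ext fun a b => ?_
      rw [pow_zero, Matrix.of_apply, pow_zero, Subsingleton.elim a b, Matrix.one_apply_eq]
    | succ n ih =>
      refine Matrix.ext fun a b => ?_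
      rw [pow_succ, ih, Matrix.mul_apply, Matrix.of_apply, pow_succ]
      simp
  rw [h3]
  simp [Matrix.trace]

/-- the exponent of the norm -/
def nex (q d : ℕ) : ℕ := ∑ i ∈ Finset.range d, q ^ i

theorem pow_nex {M : Type} [CommMonoid M] (a : M) (q d : ℕ) :
    a ^ nex q d = ∏ j ∈ Finset.range d, a ^ (q ^ j) := by
  unfold nex
  rw [Finset.prod_pow_eq_pow_sum]

theorem nex_mul {q : ℕ} (hq : 0 < q) (d : ℕ) : (q - 1) * nex q d = q ^ d - 1 := geom_q hq d

theorem nex_pos {q d : ℕ} (hq : 0 < q) (hd : 0 < d) : 0 < nex q d :=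
  Finset.sum_pos (fun j _ => pow_pos hq j) ⟨0, Finset.mem_range.2 hd⟩

theorem frob_add {p : ℕ} [Fact p.Prime] [CharP F p] {f q : ℕ} (hq : q = p ^ f) (a b : F) (j : ℕ) :
    (a + b) ^ (q ^ j) = a ^ (q ^ j) + b ^ (q ^ j) := by
  rw [hq, ← pow_mul, add_pow_char_pow]

theorem frob_sub {p : ℕ} [Fact p.Prime] [CharP F p] {f q : ℕ} (hq : q = p ^ f) (a b : F) (j : ℕ) :
    (a - b) ^ (q ^ j) = a ^ (q ^ j) - b ^ (q ^ j) := by
  rw [hq, ← pow_mul, sub_pow_char_pow]

end sums

section binom

variable {F : Type} [Field F] {p : ℕ} [hp : Fact p.Prime] [CharP F p] {f q : ℕ} (hq : q = p ^ f)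
  (hf : 0 < f)

include hq hf in
theorem cast_q' : (q : F) = 0 := by
  rw [hq, Nat.cast_pow, CharP.cast_eq_zero, zero_pow hf.ne']

include hq in
/-- the coefficients of `(x - a) ^ (q - 1)` -/
theorem coeff_sub_pow (a : F) (i : ℕ) :
    ((X - C a) ^ (q - 1) : F[X]).coeff i = if i < q then a ^ (q - 1 - i) else 0 := by
  have h1 : (∑ i ∈ Finset.range q, (X : F[X]) ^ i * (C a) ^ (q - 1 - i)) * (X - C a) =
      (X - C a) ^ q := by
    rw [geom_sum₂_mul, hq, sub_pow_char_pow]
  have hq0 : 0 < q := by rw [hq]; exact pow_pos hp.out.pos f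
  have h2 : (X - C a : F[X]) ^ q = (X - C a) ^ (q - 1) * (X - C a) := by
    rw [← pow_succ, Nat.sub_add_cancel hq0]
  rw [h2] at h1
  rw [← mul_right_cancel₀ (X_sub_C_ne_zero a) h1, finsetSum_coeff]
  simp only [← C_pow, mul_comm (X ^ _ : F[X]), coeff_C_mul, coeff_X_pow, mul_ite, mul_one, mul_zero]
  rw [Finset.sum_ite_eq]
  simp only [Finset.mem_range]

include hq hf in
/-- the coefficients of `(x - a) ^ (q - 2)` -/
theorem coeff_sub_pow_two (a : F) (i : ℕ) :
    ((X - C a) ^ (q - 2) : F[X]).coeff i =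
      if i + 1 < q then -((i : F) + 1) * a ^ (q - 2 - i) else 0 := by
  have hq1 : 1 < q := by
    rw [hq]
    exact Nat.one_lt_pow hf.ne' hp.out.one_lt
  have h1 : derivative ((X - C a) ^ (q - 1) : F[X]) = -(X - C a) ^ (q - 2) := by
    rw [derivative_X_sub_C_pow, Nat.cast_sub hq1.le, cast_q' hq hf, Nat.cast_one, zero_sub, map_neg,
      map_one, neg_one_mul]
    congr 2
  have h2 := congrArg (fun g => coeff g i) h1
  simp only [coeff_derivative, coeff_neg] at h2
  rw [coeff_sub_pow hq] at h2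
  have h4 : ((X - C a) ^ (q - 2) : F[X]).coeff i =
      -((if i + 1 < q then a ^ (q - 1 - (i + 1)) else 0) * ((i : F) + 1)) := by
    rw [h2, neg_neg]
  rw [h4]
  split_ifs with h
  · have h3 : q - 1 - (i + 1) = q - 2 - i := by omega
    rw [h3]
    ring
  · ring

end binom

end Pool.Agent.Y709
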