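import Pool.Agent.Y709.Mat
import Pool.Agent.Y709.Fib

/-!
The comparison of the fibres in characteristic `p`.
-/

set_option autoImplicit false

open Polynomial

namespace Pool.Agent.Y709

section small

variable {F : Type} [Field F]

theorem coeff_one_sub_pow (n : ℕ) : ((1 - X) ^ n : F[X]).coeff 0 = 1 ∧
    ((1 - X) ^ n : F[X]).coeff 1 = -(n : F) := by
  induction n with
  | zero => simp [coeff_one]
  | succ n ih =>
    obtain ⟨h0, h1⟩ := ih
    rw [pow_succ, mul_sub, mul_one]
    refine ⟨?_, ?_⟩
    · rw [coeff_sub, h0, coeff_mul_X_zero, sub_zero]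
    · rw [coeff_sub, h1, coeff_mul_X, h0]
      push_cast
      ring

end small

section mat

variable {F : Type} [Field F]

theorem charpolyRev_two (A : Matrix (Fin 2) (Fin 2) F) :
    A.charpolyRev = 1 - C A.trace * X + C A.det * X ^ 2 := by
  unfold Matrix.charpolyRev
  rw [Matrix.det_fin_two, Matrix.trace_fin_two, Matrix.det_fin_two]
  simp only [Matrix.sub_apply, Matrix.smul_apply, Matrix.map_apply, smul_eq_mul, Matrix.one_apply]
  simp
  ring

theorem mprod_sub (N : ℕ → Matrix (Fin 2) (Fin 2) F) (n : ℕ) :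
    (mprod (fun j => (Matrix.of fun x y : Fin 2 × Unit => N j x.1 y.1 :
      Matrix (Fin 2 × Unit) (Fin 2 × Unit) F)) n).trace = (mprod N n).trace := by
  have h1 : ∀ n, mprod (fun j => (Matrix.of fun x y : Fin 2 × Unit => N j x.1 y.1 :
      Matrix (Fin 2 × Unit) (Fin 2 × Unit) F)) n =
      Matrix.of fun x y : Fin 2 × Unit => mprod N n x.1 y.1 := by
    intro n
    induction n with
    | zero =>
      refine Matrix.ext fun x y => ?_
      show (1 : Matrix (Fin 2 × Unit) (Fin 2 × Unit) F) x y =
        (1 : Matrix (Fin 2) (Fin 2) F) x.1 y.1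
      rw [Matrix.one_apply, Matrix.one_apply]
      congr 1
      rw [Prod.ext_iff]
      simp
    | succ n ih =>
      refine Matrix.ext fun x y => ?_
      rw [mprod_succ, ih, Matrix.mul_apply, Matrix.of_apply, mprod_succ, Matrix.mul_apply,
        Fintype.sum_prod_type]
      refine Finset.sum_congr rfl fun i _ => ?_
      rw [Fintype.sum_unique]
      rfl
  rw [h1]
  unfold Matrix.trace
  rw [Fintype.sum_prod_type]
  refine Finset.sum_congr rfl fun i _ => ?_
  rw [Fintype.sum_unique]
  rfl

theorem det_mprod {κ : Type} [Fintype κ] [DecidableEq κ] (N : ℕ → Matrix κ κ F) (n : ℕ) :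
    (mprod N n).det = ∏ j ∈ Finset.range n, (N j).det := by
  induction n with
  | zero =>
    show (1 : Matrix κ κ F).det = _
    rw [Matrix.det_one, Finset.prod_range_zero]
  | succ n ih => rw [mprod_succ, Matrix.det_mul, ih, Finset.prod_range_succ, mul_comm]

theorem mprod_smul {κ : Type} [Fintype κ] [DecidableEq κ] (c : ℕ → F) (N : ℕ → Matrix κ κ F)
    (n : ℕ) : mprod (fun j => c j • N j) n = (∏ j ∈ Finset.range n, c j) • mprod N n := by
  induction n with
  | zero => rw [Finset.prod_range_zero, one_smul]; rfl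
  | succ n ih =>
    rw [mprod_succ, ih, mprod_succ, Finset.prod_range_succ, smul_mul_smul_comm]
    congr 1
    ring

end mat

section good

variable {F : Type} [Field F] [Fintype F] {q d : ℕ}

/-- the conjugates -/
def cj (q : ℕ) {F : Type} [Field F] (t : F) (j : ℕ) : F := t ^ (q ^ j)

/-- the product of the matrices of the fibre -/
noncomputable def Aprod (q : ℕ) {F : Type} [Field F] (t : F) (n : ℕ) :
    Matrix (Fin 2) (Fin 2) F := mprod (fun j => Mx (cj q t j) (cj q t (j + 1))) n

/-- the product of the matrices `6 Φ` -/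
noncomputable def Pprod (q : ℕ) {F : Type} [Field F] (t : F) (n : ℕ) :
    Matrix (Fin 2) (Fin 2) F := mprod (fun j => Ph (cj q t j)) n

theorem cj_ne_zero {t : F} (h0 : t ≠ 0) (j : ℕ) : cj q t j ≠ 0 := pow_ne_zero _ h0

theorem cj_last (hF : Fintype.card F = q ^ d) (t : F) : cj q t d = t := by
  unfold cj
  rw [← hF, FiniteField.pow_card]

variable {p f : ℕ} [hp : Fact p.Prime] [CharP F p] (hq : q = p ^ f)

include hq in
theorem cj_ne_one {t : F} (h1 : t ≠ 1) (j : ℕ) : cj q t j ≠ 1 := by
  intro h
  have h2 := frob_sub hq t 1 j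
  rw [one_pow] at h2
  have h3 : (t - 1) ^ (q ^ j) = 0 := by
    rw [h2]
    exact sub_eq_zero.2 h
  exact h1 (sub_eq_zero.1 (eq_zero_of_pow_eq_zero h3))

include hq in
theorem conj_prod {t : F} (h0 : t ≠ 0) (h1 : t ≠ 1) (n : ℕ) :
    (Pprod q t n).transpose * Bm (cj q t n) * Aprod q t n = ((6 : F) ^ n) • Bm (cj q t 0) := by
  induction n with
  | zero =>
    show (1 : Matrix (Fin 2) (Fin 2) F).transpose * _ * (1 : Matrix (Fin 2) (Fin 2) F) = _
    rw [Matrix.transpose_one, one_mul, mul_one, pow_zero, one_smul]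
  | succ n ih =>
    have h2 := conj_id (cj_ne_zero (q := q) h0 n) (cj_ne_one hq h1 n)
      (cj_ne_zero (q := q) h0 (n + 1)) (cj_ne_one hq h1 (n + 1))
    have e1 : Pprod q t (n + 1) = Ph (cj q t n) * Pprod q t n := rfl
    have e2 : Aprod q t (n + 1) = Mx (cj q t n) (cj q t (n + 1)) * Aprod q t n := rfl
    rw [e1, e2, Matrix.transpose_mul]
    calc (Pprod q t n).transpose * (Ph (cj q t n)).transpose * Bm (cj q t (n + 1)) *
          (Mx (cj q t n) (cj q t (n + 1)) * Aprod q t n) =
        (Pprod q t n).transpose * ((Ph (cj q t n)).transpose * Bm (cj q t (n + 1)) *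
          Mx (cj q t n) (cj q t (n + 1))) * Aprod q t n := by
          simp only [mul_assoc]
      _ = (6 : F) • ((Pprod q t n).transpose * Bm (cj q t n) * Aprod q t n) := by
          rw [h2, Matrix.mul_smul, Matrix.smul_mul]
      _ = _ := by rw [ih, smul_smul, pow_succ']

include hq in
/-- the determinant and the trace of the two products -/
theorem trace_det (hF : Fintype.card F = q ^ d) (h6 : (6 : F) ≠ 0) {t : F} (h0 : t ≠ 0)
    (h1 : t ≠ 1) :
    (Pprod q t d).trace * (Aprod q t d).det = (6 : F) ^ d * (Aprod q t d).trace ∧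
      (Pprod q t d).det * (Aprod q t d).det = ((6 : F) ^ d) ^ 2 := by
  have h1' : (1 : F) - t ≠ 0 := sub_ne_zero.2 h1.symm
  have hc := conj_prod hq h0 h1 d
  have hc0 : cj q t 0 = t := by
    unfold cj
    rw [pow_zero, pow_one]
  rw [cj_last hF, hc0] at hc
  set P := Pprod q t d with hP
  set A := Aprod q t d with hA
  have hB : (Bm t).det ≠ 0 := by
    rw [det_Bm h0 h1]
    exact inv_ne_zero (mul_ne_zero h0 h1')
  have hdet : P.det * A.det = ((6 : F) ^ d) ^ 2 := by
    have h2 := congrArg Matrix.det hc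
    rw [Matrix.det_mul, Matrix.det_mul, Matrix.det_transpose, Matrix.det_smul,
      Fintype.card_fin] at h2
    apply mul_right_cancel₀ hB
    rw [← h2]
    ring
  refine ⟨?_, hdet⟩
  have hBu : IsUnit (Bm t).det := isUnit_iff_ne_zero.2 hB
  have h3 : A.det • P.transpose = ((6 : F) ^ d) • (Bm t * A.adjugate * (Bm t)⁻¹) := by
    have h4 : P.transpose * Bm t * A * A.adjugate * (Bm t)⁻¹ = A.det • P.transpose := by
      rw [mul_assoc (P.transpose * Bm t), Matrix.mul_adjugate, mul_smul_comm, mul_one,
        smul_mul_assoc, mul_assoc, Matrix.mul_nonsing_inv _ hBu, mul_one]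
    rw [← h4, hc, smul_mul_assoc, smul_mul_assoc]
  have h5 := congrArg Matrix.trace h3
  rw [Matrix.trace_smul, Matrix.trace_smul, Matrix.trace_transpose, Matrix.trace_mul_comm,
    ← mul_assoc, Matrix.nonsing_inv_mul _ hBu, one_mul, smul_eq_mul, smul_eq_mul] at h5
  have h6 : A.adjugate.trace = A.trace := by
    rw [Matrix.adjugate_fin_two, Matrix.trace_fin_two, Matrix.trace_fin_two]
    simp [add_comm]
  rw [h6] at h5
  rw [mul_comm, h5]

end good

end Pool.Agent.Y709
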