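import Pool.Agent.Y709.Glob

/-!
Vanishing at `s = 1` and the fixed vectors.
-/

set_option autoImplicit false

open Polynomial

namespace Pool.Agent.Y709

open Pool.Agent.W313.Hyp Pool.Agent.W343.BSD

variable {k R K : Type} [Field k] [Fintype k] [CommRing R] [IsDomain R] [CharZero R] [Field K]
  [Algebra k K] [IsAlgClosed K] [Algebra.IsAlgebraic k K] (π : R →+* K)
  (hu : ∀ r : R, π r ≠ 0 → IsUnit r) (χ : MulChar k R) (hχ : ∀ u : k, π (χ u) = algebraMap k K u)

omit [Fintype k] [Algebra.IsAlgebraic k K] in
theorem exists_root_MI (P : MI k) : ∃ r : K, aeval r P.1 = 0 := by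
  obtain ⟨r, hr⟩ := IsAlgClosed.exists_aeval_eq_zero K P.1
    (by
      intro h
      have h1 := natDegree_eq_zero_iff_degree_le_zero.2 h.le
      exact (MI.deg_pos P).ne' h1)
  exact ⟨r, hr⟩

include hu hχ in
/-- the global functional equation and its reduction -/
theorem global_fe {q m : ℕ} (hk : Fintype.card k = q) (h5 : 5 ≤ q) (h6 : (6 : k) ≠ 0) (D : k[X])
    (hm : D.natDegree + 3 < (q - 1) * (m + 1)) :
    ∃ L : PowerSeries R, LF χ D * PowerSeries.rescale (q : R) L = 1 ∧
      PowerSeries.map π L *
        ((kmat q m ((MD D).map (Polynomial.map (algebraMap k K)))).charpolyRev :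
          PowerSeries K) = 1 := by
  classical
  obtain ⟨p, hp⟩ := CharP.exists k
  have hpp : p.Prime := CharP.char_is_prime k p
  have hpf : Fact (Nat.Prime p) := ⟨hpp⟩
  obtain ⟨f, _, hqf⟩ := FiniteField.card k p
  rw [hk] at hqf
  have hp2 : p ≠ 2 := by
    rintro rfl
    apply h6
    have h2 : ((2 : ℕ) : k) = 0 := CharP.cast_eq_zero k 2
    have : (6 : k) = 3 * ((2 : ℕ) : k) := by norm_num
    rw [this, h2, mul_zero]
  have hodd : Odd q := by
    rw [hqf]
    exact (hpp.odd_of_ne_two hp2).pow
  have hfin := fun n => finite_deg_le (F := k) n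
  have hroot := fun P : MI k => exists_root_MI (K := K) P
  choose ρ hρ using hroot
  have hloc : ∀ P : MI k, ∃ Q : R[X], Q.coeff 0 = 1 ∧
      fibE R χ (val P D) (val P X) *
        PowerSeries.rescale ((q : R) ^ P.1.natDegree) (Q : PowerSeries R) = 1 ∧
      Q.map π = (loc (MonoidHom.id K) q ((MD D).map (Polynomial.map (algebraMap k K))) (ρ P)
        P.1.natDegree).charpolyRev := by
    intro P
    have hFt : Fintype (RS P) := Fintype.ofFinite _
    have hFc : Fintype.card (RS P) = q ^ P.1.natDegree := by
      rw [← Nat.card_eq_fintype_card, card_RS, Nat.card_eq_fintype_card, hk]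
    have hFp : CharP (RS P) p := charP_of_injective_algebraMap (algebraMap k (RS P)).injective p
    let σ : RS P →+* K := AdjoinRoot.lift (algebraMap k K) (ρ P) (hρ P)
    have hσc : ∀ a : k, σ (algebraMap k (RS P) a) = algebraMap k K a := fun a =>
      AdjoinRoot.lift_of (hρ P)
    have hσX : σ (val P X) = ρ P := by
      have h1 : val P X = AdjoinRoot.root P.1 := AdjoinRoot.mk_X
      rw [h1]
      exact AdjoinRoot.lift_root (hρ P)
    have h6' : (6 : RS P) ≠ 0 := by
      have h2 : (6 : RS P) = algebraMap k (RS P) 6 := (map_ofNat (algebraMap k (RS P)) 6).symm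
      rw [h2]
      exact (_root_.map_ne_zero _).2 h6
    obtain ⟨Q, h0, h1, h2⟩ := fibre_fe π σ χ (fun u => by rw [hχ, hσc]) hu hqf f.pos hk h5 hodd
      (MI.deg_pos P) hFc h6' (val P D) (val P X)
    exact ⟨Q, h0, h1, h2.trans (locF_MD hk D P (ρ P) σ hσc hσX)⟩
  choose Q hQ0 hQ1 hQ2 using hloc
  have hQc : ∀ P, PowerSeries.constantCoeff (Q P : PowerSeries R) = 1 := by
    intro P
    rw [← PowerSeries.coeff_zero_eq_constantCoeff_apply, Polynomial.coeff_coe, hQ0]
  refine ⟨eulerProd (fun P : MI k => P.1.natDegree)
    (fun P => PowerSeries.expand P.1.natDegree (deg_ne P) (Q P : PowerSeries R)), ?_, ?_⟩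
  · rw [rescale_euler hfin, LF_eq, ← eulerProd_mul hfin]
    · have h1 : (fun P : MI k => PowerSeries.expand P.1.natDegree (deg_ne P)
          (fibE R χ (val P D) (val P X)) * PowerSeries.rescale (q : R)
            (PowerSeries.expand P.1.natDegree (deg_ne P) (Q P : PowerSeries R))) =
          fun _ => 1 := by
        funext P
        rw [rescale_expand, ← map_mul, hQ1, map_one]
      rw [h1]
      exact eulerProd_one
    · intro P
      apply expand_mod
      have h1 := congrArg PowerSeries.constantCoeff (hQ1 P)
      rw [map_mul, map_one] at h1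
      have h2 : PowerSeries.constantCoeff (PowerSeries.rescale ((q : R) ^ P.1.natDegree)
          (Q P : PowerSeries R)) = 1 := by
        rw [← PowerSeries.coeff_zero_eq_constantCoeff_apply, PowerSeries.coeff_rescale, pow_zero,
          one_mul, PowerSeries.coeff_zero_eq_constantCoeff_apply, hQc]
      rwa [h2, mul_one] at h1
    · intro P
      rw [rescale_expand]
      apply expand_mod
      rw [← PowerSeries.coeff_zero_eq_constantCoeff_apply, PowerSeries.coeff_rescale, pow_zero,
          one_mul, PowerSeries.coeff_zero_eq_constantCoeff_apply, hQc]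
  · rw [map_eulerProd hfin]
    have h1 := formula_mod (k := k) (K := K) (m := m) (by rw [Nat.card_eq_fintype_card, hk])
      ((MD D).map (Polynomial.map (algebraMap k K))) (fun a b => by
        rw [Matrix.map_apply]
        exact (natDegree_map_le).trans_lt ((natDegree_MD D a b).trans_lt hm)) ρ hρ
    rw [← h1]
    congr 2
    funext P
    unfold locF
    rw [PowerSeries.map_expand, ← hQ2 P, Polynomial.polynomial_map_coe]

include hu hχ in
/-- vanishing at `s = 1` gives the eigenvalue one -/
theorem eval_at_one {q m : ℕ} (hk : Fintype.card k = q) (h5 : 5 ≤ q) (h6 : (6 : k) ≠ 0) (D : k[X])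
    (hm : D.natDegree + 3 < (q - 1) * (m + 1)) (G : R[X])
    (hG : LF χ D = (((1 - C (q : R) * X) * G : R[X]) : PowerSeries R)) :
    (kmat q m ((MD D).map (Polynomial.map (algebraMap k K)))).charpolyRev.eval 1 = 0 := by
  obtain ⟨L, h1, h2⟩ := global_fe π hu χ hχ hk h5 h6 D hm
  set Δ := (kmat q m ((MD D).map (Polynomial.map (algebraMap k K)))).charpolyRev with hΔ
  have hq0 : (q : R) ≠ 0 := by
    rw [Nat.cast_ne_zero]
    omega
  -- the inverse of `(1 - X) L`
  have hLu : IsUnit (PowerSeries.constantCoeff L) := by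
    have h3 := congrArg PowerSeries.constantCoeff h1
    rw [map_mul, map_one] at h3
    have h4 : PowerSeries.constantCoeff (PowerSeries.rescale (q : R) L) =
        PowerSeries.constantCoeff L := by
      rw [← PowerSeries.coeff_zero_eq_constantCoeff_apply, PowerSeries.coeff_rescale, pow_zero,
        one_mul, PowerSeries.coeff_zero_eq_constantCoeff_apply]
    rw [h4] at h3
    exact IsUnit.of_mul_eq_one _ (by rw [mul_comm]; exact h3)
  have hu2 : IsUnit ((1 - PowerSeries.X) * L) := by
    rw [PowerSeries.isUnit_iff_constantCoeff, map_mul, map_sub, map_one,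
      PowerSeries.constantCoeff_X, sub_zero, one_mul]
    exact hLu
  obtain ⟨H, hH⟩ := hu2.exists_right_inv
  have hH1 := congrArg (PowerSeries.rescale (q : R)) hH
  rw [map_mul, map_mul, map_one, map_sub, map_one, PowerSeries.rescale_X] at hH1
  have hHG : PowerSeries.rescale (q : R) H = (G : PowerSeries R) := by
    have h3 : (G : PowerSeries R) * ((1 - PowerSeries.C (q : R) * PowerSeries.X) *
        PowerSeries.rescale (q : R) L) = 1 := by
      have h4 := h1
      rw [hG, Polynomial.coe_mul, Polynomial.coe_sub, Polynomial.coe_mul, Polynomial.coe_C,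
        Polynomial.coe_X, Polynomial.coe_one] at h4
      exact Eq.trans (by ring) h4
    calc PowerSeries.rescale (q : R) H = (G : PowerSeries R) *
          ((1 - PowerSeries.C (q : R) * PowerSeries.X) * PowerSeries.rescale (q : R) L) *
          PowerSeries.rescale (q : R) H := by rw [h3, one_mul]
      _ = (G : PowerSeries R) * ((1 - PowerSeries.C (q : R) * PowerSeries.X) *
          PowerSeries.rescale (q : R) L * PowerSeries.rescale (q : R) H) := by ring
      _ = _ := by rw [hH1, mul_one]
  have hHn : ∀ n, G.natDegree < n → PowerSeries.coeff n H = 0 := by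
    intro n hn
    have h3 := congrArg (PowerSeries.coeff n) hHG
    rw [PowerSeries.coeff_rescale, Polynomial.coeff_coe, coeff_eq_zero_of_natDegree_lt hn] at h3
    exact (mul_eq_zero.1 h3).resolve_left (pow_ne_zero _ hq0)
  let H' : R[X] := PowerSeries.trunc (G.natDegree + 1) H
  have hH' : (H' : PowerSeries R) = H := by
    ext n
    rw [Polynomial.coeff_coe, PowerSeries.coeff_trunc]
    split_ifs with h
    · rfl
    · rw [hHn n (by omega)]
  rw [← hH'] at hH
  have h3 := congrArg (PowerSeries.map π) hH
  rw [map_mul, map_mul, map_one, map_sub, map_one, PowerSeries.map_X,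
    ← Polynomial.polynomial_map_coe] at h3
  have h4 : (Δ : PowerSeries K) = (((1 - X) * (H'.map π) : K[X]) : PowerSeries K) := by
    rw [Polynomial.coe_mul, Polynomial.coe_sub, Polynomial.coe_one, Polynomial.coe_X]
    calc (Δ : PowerSeries K) = (Δ : PowerSeries K) * ((1 - PowerSeries.X) * PowerSeries.map π L *
          ((H'.map π : K[X]) : PowerSeries K)) := by rw [h3, mul_one]
      _ = (PowerSeries.map π L * (Δ : PowerSeries K)) * ((1 - PowerSeries.X) *
          ((H'.map π : K[X]) : PowerSeries K)) := by ring
      _ = _ := by rw [h2, one_mul]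
  have h5' := Polynomial.coe_injective K h4
  rw [h5', eval_mul, eval_sub, Polynomial.eval_one, Polynomial.eval_X, sub_self, zero_mul]

end Pool.Agent.Y709
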