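import Pool.Agent.W343.BSD.Euler
import Mathlib.NumberTheory.MulChar.Lemmas
import Mathlib.RingTheory.Polynomial.Cyclotomic.Roots
import Mathlib.RingTheory.AdjoinRoot
import Mathlib.RingTheory.PowerSeries.WellKnown

/-!
Change of the ring of values of a character.
-/

set_option autoImplicit false

open Polynomial

namespace Pool.Agent.Y709

open Pool.Agent.W343.BSD

section char

variable {k : Type} [Field k] [Fintype k] {A : Type} [CommRing A] [IsDomain A]

omit [Fintype k] [IsDomain A] in
theorem prim_of_order (χ : MulChar k A) {n : ℕ} (hn : 0 < n) (hχ : orderOf χ = n) {g : kˣ}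
    (hg : ∀ x, x ∈ Subgroup.zpowers g) : IsPrimitiveRoot (χ (g : k)) n := by
  refine IsPrimitiveRoot.mk_of_lt _ hn ?_ ?_
  · rw [← MulChar.pow_apply_coe, ← hχ, pow_orderOf_eq_one, MulChar.one_apply_coe]
  · intro l hl hln h
    rw [← MulChar.pow_apply_coe] at h
    have h1 : χ ^ l = 1 := by
      rw [MulChar.eq_iff hg, h, MulChar.one_apply_coe]
    have h2 := orderOf_dvd_of_pow_eq_one h1
    rw [hχ] at h2
    exact absurd (Nat.le_of_dvd hl h2) (by omega)

end char

section cyc

variable {A : Type} [CommRing A] [IsDomain A]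

/-- the ring of the values -/
abbrev CR (n : ℕ) : Type := AdjoinRoot (cyclotomic n ℤ)

theorem cyc_root {n : ℕ} {ζ : A} (hn : 0 < n) (hζ : IsPrimitiveRoot ζ n) :
    (cyclotomic n ℤ).eval₂ (Int.castRingHom A) ζ = 0 := by
  rw [← eval_map, map_cyclotomic_int]
  exact hζ.isRoot_cyclotomic hn

/-- the evaluation -/
noncomputable def evR {n : ℕ} {ζ : A} (hn : 0 < n) (hζ : IsPrimitiveRoot ζ n) : CR n →+* A :=
  AdjoinRoot.lift (Int.castRingHom A) ζ (cyc_root hn hζ)

theorem evR_root {n : ℕ} {ζ : A} (hn : 0 < n) (hζ : IsPrimitiveRoot ζ n) :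
    evR hn hζ (AdjoinRoot.root _) = ζ := AdjoinRoot.lift_root _

theorem evR_inj [CharZero A] {n : ℕ} {ζ : A} (hn : 0 < n) (hζ : IsPrimitiveRoot ζ n) :
    Function.Injective (evR hn hζ) := by
  rw [injective_iff_map_eq_zero]
  intro x hx
  obtain ⟨g, rfl⟩ := AdjoinRoot.mk_surjective x
  rw [AdjoinRoot.mk_eq_zero]
  have h1 : g.eval₂ (Int.castRingHom A) ζ = 0 := by
    rw [← hx]
    unfold evR
    rw [AdjoinRoot.lift_mk]
  obtain ⟨L, _, f, hf⟩ : ∃ (L : Type) (_ : Field L) (f : A →+* L), Function.Injective f :=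
    ⟨FractionRing A, inferInstance, algebraMap A (FractionRing A),
      IsFractionRing.injective A (FractionRing A)⟩
  have hcz : CharZero L := f.charZero_iff hf |>.1 inferInstance
  have h2 : IsPrimitiveRoot (f ζ) n := hζ.map_of_injective hf
  have h3 := cyclotomic_eq_minpoly h2 hn
  rw [h3]
  refine (minpoly.isIntegrallyClosed_dvd_iff (h2.isIntegral hn) g).1 ?_
  have h4 := congrArg f h1
  rw [hom_eval₂, map_zero] at h4
  rw [← h4, aeval_def]
  congr 1
  exact RingHom.ext_int _ _

end cyc

section series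

theorem geom_series {A : Type} [CommRing A] (c : A) :
    (1 - PowerSeries.C c * PowerSeries.X) * PowerSeries.mk (fun n => c ^ n) = 1 := by
  ext n
  rw [sub_mul, one_mul, map_sub, PowerSeries.coeff_mk, mul_assoc, PowerSeries.coeff_C_mul,
    PowerSeries.coeff_one]
  rcases n with _ | n
  · rw [PowerSeries.coeff_zero_X_mul, if_pos rfl]
    simp
  · rw [PowerSeries.coeff_succ_X_mul, PowerSeries.coeff_mk, if_neg (Nat.succ_ne_zero n), pow_succ]
    ring

variable {k : Type} [Field k] [Fintype k] {A R : Type} [CommRing A] [IsDomain A] [CharZero A]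
  [CommRing R] [IsDomain R]

/-- **change of the ring of values** -/
theorem transfer (χ : MulChar k A) (hχ : orderOf χ = Fintype.card k - 1) (ψ : MulChar k R)
    (hψ : orderOf ψ = Fintype.card k - 1) {ι : Type} (d : ι → ℕ)
    (hfin : ∀ n, {i | d i ≤ n}.Finite) (a : ι → k) (q : ℕ) (G : A[X])
    (hG : eulerProd d (fun i => 1 - PowerSeries.C (χ (a i)) * PowerSeries.X ^ d i) =
      (((1 - C (q : A) * X) * G : A[X]) : PowerSeries A)) :
    ∃ G' : R[X], eulerProd d (fun i => 1 - PowerSeries.C (ψ (a i)) * PowerSeries.X ^ d i) =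
      (((1 - C (q : R) * X) * G' : R[X]) : PowerSeries R) := by
  classical
  have hn : 0 < Fintype.card k - 1 := by
    have := Fintype.one_lt_card (α := k)
    omega
  obtain ⟨g, hg⟩ := IsCyclic.exists_generator (α := kˣ)
  have h1 := prim_of_order χ hn hχ hg
  have h2 := prim_of_order ψ hn hψ hg
  let i := evR hn h1
  let j := evR hn h2
  have hex : ∀ u : k, ∃ r : CR (Fintype.card k - 1), i r = χ u ∧ j r = ψ u := by
    intro u
    by_cases hu : u = 0
    · refine ⟨0, ?_, ?_⟩
      · rw [map_zero, hu, MulChar.map_zero]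
      · rw [map_zero, hu, MulChar.map_zero]
    · obtain ⟨m, hm⟩ := (mem_powers_iff_mem_zpowers).2 (hg (Units.mk0 u hu))
      dsimp only at hm
      have hm' : u = (g : k) ^ m := by
        rw [← Units.val_pow_eq_pow_val, hm, Units.val_mk0]
      refine ⟨(AdjoinRoot.root _) ^ m, ?_, ?_⟩
      · rw [map_pow, evR_root, hm', map_pow]
      · rw [map_pow, evR_root, hm', map_pow]
  choose c hc1 hc2 using hex
  set E := eulerProd d (fun s => (1 - PowerSeries.C (c (a s)) * PowerSeries.X ^ d s :
    PowerSeries (CR (Fintype.card k - 1)))) with hE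
  have hEi : PowerSeries.map i E =
      eulerProd d (fun s => 1 - PowerSeries.C (χ (a s)) * PowerSeries.X ^ d s) := by
    rw [hE, map_eulerProd hfin]
    congr 1
    funext s
    rw [map_sub, map_one, map_mul, map_pow, PowerSeries.map_X, PowerSeries.map_C, hc1]
  have hEj : PowerSeries.map j E =
      eulerProd d (fun s => 1 - PowerSeries.C (ψ (a s)) * PowerSeries.X ^ d s) := by
    rw [hE, map_eulerProd hfin]
    congr 1
    funext s
    rw [map_sub, map_one, map_mul, map_pow, PowerSeries.map_X, PowerSeries.map_C, hc2]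
  set H := E * PowerSeries.mk (fun n => (q : CR (Fintype.card k - 1)) ^ n) with hH
  have hHE : (1 - PowerSeries.C (q : CR (Fintype.card k - 1)) * PowerSeries.X) * H = E := by
    rw [hH, mul_left_comm, geom_series, mul_one]
  have hHi : PowerSeries.map i H = (G : PowerSeries A) := by
    have h3 := congrArg (PowerSeries.map i) hHE
    rw [map_mul, map_sub, map_one, map_mul, PowerSeries.map_X, PowerSeries.map_C, map_natCast, hEi,
      hG, Polynomial.coe_mul, Polynomial.coe_sub, Polynomial.coe_mul, Polynomial.coe_C,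
      Polynomial.coe_X, Polynomial.coe_one] at h3
    have h4 := geom_series (q : A)
    calc PowerSeries.map i H = (1 - PowerSeries.C (q : A) * PowerSeries.X) *
          PowerSeries.mk (fun n => (q : A) ^ n) * PowerSeries.map i H := by rw [h4, one_mul]
      _ = PowerSeries.mk (fun n => (q : A) ^ n) *
          ((1 - PowerSeries.C (q : A) * PowerSeries.X) * PowerSeries.map i H) := by ring
      _ = (1 - PowerSeries.C (q : A) * PowerSeries.X) *
          PowerSeries.mk (fun n => (q : A) ^ n) * (G : PowerSeries A) := by rw [h3]; ring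
      _ = _ := by rw [h4, one_mul]
  have hHn : ∀ n, G.natDegree < n → PowerSeries.coeff n H = 0 := by
    intro n hn'
    apply evR_inj hn h1
    have h3 := congrArg (PowerSeries.coeff n) hHi
    rw [PowerSeries.coeff_map, Polynomial.coeff_coe, coeff_eq_zero_of_natDegree_lt hn'] at h3
    rw [map_zero]
    exact h3
  let H' : (CR (Fintype.card k - 1))[X] := PowerSeries.trunc (G.natDegree + 1) H
  have hH' : (H' : PowerSeries (CR (Fintype.card k - 1))) = H := by
    ext n
    rw [Polynomial.coeff_coe, PowerSeries.coeff_trunc]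
    split_ifs with h
    · rfl
    · rw [hHn n (by omega)]
  refine ⟨H'.map j, ?_⟩
  rw [← hEj, ← hHE, ← hH', map_mul, map_sub, map_one, map_mul, PowerSeries.map_X,
    PowerSeries.map_C, map_natCast, Polynomial.coe_mul, Polynomial.coe_sub, Polynomial.coe_mul,
    Polynomial.coe_C, Polynomial.coe_X, Polynomial.coe_one, Polynomial.polynomial_map_coe]

end series

end Pool.Agent.Y709
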