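import Pool.Agent.Y709.Van
import Pool.Agent.Y709.Fix
import Pool.Agent.Y709.Trf
import Pool.Agent.Y68.Lat709
import Pool.Agent.Y515.Cnt.Main
import Mathlib.RingTheory.WittVector.DiscreteValuationRing
import Mathlib.FieldTheory.IsAlgClosed.AlgebraicClosure

/-!
The main theorem.
-/

set_option autoImplicit false

open Polynomial

namespace Pool.Agent.Y709

open Pool.Agent.W313.Hyp Pool.Agent.W343.BSD

section teich

variable {k : Type} [Field k] (p : ℕ) [Fact p.Prime] [CharP k p]
  (K : Type) [Field K] [CharP K p] [Algebra k K]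

/-- the Teichmüller character -/
noncomputable def teichChar : MulChar k (WittVector p K) :=
  MulChar.mk ((WittVector.teichmuller p : K →* WittVector p K).comp (algebraMap k K : k →* K)) (by
    intro a ha
    have h0 : a = 0 := by
      by_contra h
      exact ha (isUnit_iff_ne_zero.2 h)
    show (WittVector.teichmuller p : K →* WittVector p K) (algebraMap k K a) = 0
    rw [h0, map_zero, teich_zero])

omit [CharP k p] in
theorem teichChar_apply (a : k) : teichChar p K a =
    (WittVector.teichmuller p : K →* WittVector p K) (algebraMap k K a) := rfl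

theorem orderOf_teichChar [Fintype k] :
    orderOf (teichChar (k := k) p K) = Fintype.card k - 1 := by
  classical
  apply Nat.dvd_antisymm
  · apply orderOf_dvd_of_pow_eq_one
    rw [← Fintype.card_units]
    exact MulChar.pow_card_eq_one _
  · rw [← FiniteField.forall_pow_eq_one_iff]
    intro x
    have h1 : (teichChar (k := k) p K) ^ orderOf (teichChar (k := k) p K) = 1 :=
      pow_orderOf_eq_one _
    have h2 := congrArg (fun ψ : MulChar k (WittVector p K) => ψ (x : k)) h1
    simp only [MulChar.pow_apply_coe, MulChar.one_apply_coe] at h2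
    rw [teichChar_apply, ← map_pow, ← map_pow,
      ← map_one (WittVector.teichmuller p : K →* WittVector p K)] at h2
    have h3 := teich_inj p K h2
    rw [← map_one (algebraMap k K)] at h3
    have h4 := (algebraMap k K).injective h3
    ext
    rw [Units.val_pow_eq_pow_val, Units.val_one]
    exact h4

end teich

/-- vanishing at `s = 1` implies that there is a fixed vector -/
theorem fixed_of_vanish {k : Type} [Field k] [Fintype k] {q : ℕ} (hk : Fintype.card k = q)
    (h5 : 5 ≤ q) (h6 : (6 : k) ≠ 0) {A : Type} [CommRing A] [IsDomain A] [CharZero A]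
    (χ : MulChar k A) (hχ : orderOf χ = q - 1) (D : k[X]) (G : A[X])
    (hG : LF χ D = (((1 - C (q : A) * X) * G : A[X]) : PowerSeries A)) :
    ∃ w : k[X] × k[X], w ≠ 0 ∧ IsFixed q D w := by
  obtain ⟨p, hp⟩ := CharP.exists k
  have hpf : Fact (Nat.Prime p) := ⟨CharP.char_is_prime k p⟩
  let K := AlgebraicClosure k
  have hpK : CharP K p := charP_of_injective_algebraMap (algebraMap k K).injective p
  have hc0 := witt_charZero p K
  obtain ⟨G', hG'⟩ := transfer χ (by rw [hχ, hk]) (teichChar (k := k) p K)
    (orderOf_teichChar p K) _ (plane_finite (k := k))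
    (fun z : Σ P : MI k, MI (RS P) => Algebra.norm k (AdjoinRoot.mk z.2.1
      (C (val z.1 D) * (X * (X - 1) * (X - C (val z.1 X)))))) q G hG
  have hm : D.natDegree + 3 < (q - 1) * (D.natDegree + 3 + 1) := by
    have h1 : 2 * (D.natDegree + 3 + 1) ≤ (q - 1) * (D.natDegree + 3 + 1) :=
      Nat.mul_le_mul_right _ (by omega)
    omega
  have h1 := eval_at_one (k := k) (K := K) (WittVector.constantCoeff (p := p) (R := K))
    (fun r hr => WittVector.isUnit_of_coeff_zero_ne_zero r hr) (teichChar (k := k) p K)
    (fun u => by rw [teichChar_apply]; exact coeff_teich p K _) hk h5 h6 D hm G' hG'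
  exact fixed_of_det q _ (by omega) D (MD D) (fun i j => MD_six h6 D i j)
    (fun i j => (natDegree_MD D i j).trans_lt hm) h1

theorem finite_natDegree_le {k : Type} [Field k] [Finite k] (N : ℕ) :
    {D : k[X] | D.natDegree ≤ N}.Finite := by
  have h1 : Function.Injective (fun D : {D : k[X] | D.natDegree ≤ N} =>
      fun i : Fin (N + 1) => D.1.coeff i) := by
    intro D E h
    apply Subtype.ext
    ext n
    rcases Nat.lt_or_ge N n with hn | hn
    · rw [coeff_eq_zero_of_natDegree_lt (D.2.trans_lt hn),
        coeff_eq_zero_of_natDegree_lt (E.2.trans_lt hn)]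
    · exact congrFun h ⟨n, by omega⟩
  exact Set.finite_coe_iff.1 (Finite.of_injective _ h1)

theorem ncard_natDegree_le {k : Type} [Field k] [Finite k] (N : ℕ) :
    {D : k[X] | D.natDegree ≤ N}.ncard = Nat.card k ^ (N + 1) := by
  have h1 : {D : k[X] | D.natDegree ≤ N} ≃ (Fin (N + 1) → k) :=
    { toFun := fun D i => D.1.coeff i
      invFun := fun f => ⟨∑ i : Fin (N + 1), C (f i) * X ^ (i : ℕ), by
        show (∑ i : Fin (N + 1), C (f i) * X ^ (i : ℕ) : k[X]).natDegree ≤ N
        refine natDegree_sum_le_of_forall_le _ _ fun i _ => ?_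
        exact (natDegree_C_mul_X_pow_le _ _).trans (by omega)⟩
      left_inv := by
        intro D
        apply Subtype.ext
        show (∑ i : Fin (N + 1), C (D.1.coeff i) * X ^ (i : ℕ) : k[X]) = D.1
        have h2 := D.1.as_sum_range_C_mul_X_pow' (n := N + 1) (Nat.lt_succ_of_le D.2)
        rw [Finset.sum_range] at h2
        exact h2.symm
      right_inv := by
        intro f
        funext i
        show (∑ i : Fin (N + 1), C (f i) * X ^ (i : ℕ) : k[X]).coeff i = f i
        rw [finsetSum_coeff]
        simp only [coeff_C_mul, coeff_X_pow]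
        rw [Finset.sum_eq_single i]
        · simp
        · intro j _ hj
          rw [if_neg (fun h => hj (Fin.ext h.symm)), mul_zero]
        · intro h
          exact absurd (Finset.mem_univ _) h }
  rw [← Nat.card_coe_set_eq, Nat.card_congr h1, Nat.card_fun, Nat.card_eq_fintype_card (α := Fin _),
    Fintype.card_fin]

/-- **the number of vanishing twists** -/
theorem main_count {k : Type} [Field k] [Fintype k] {q : ℕ} (hk : Fintype.card k = q)
    (h17 : 17 ≤ q) (h6 : (6 : k) ≠ 0) (N : ℕ) (hN : 3 * q ≤ N) :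
    {D : k[X] | D.natDegree ≤ N ∧ ∃ χ : MulChar k ℂ, orderOf χ = q - 1 ∧ ∃ G : ℂ[X],
      LF χ D = (((1 - C (q : ℂ) * X) * G : ℂ[X]) : PowerSeries ℂ)}.ncard ≤ 3 * q ^ N := by
  have h1 := Pool.Agent.Y515.cnt k q hk h17 h6 (Pool.Agent.Y68.lat k q hk) N hN
  refine le_trans ?_ h1
  have h2 : {D : k[X] | D.natDegree ≤ N ∧ ∃ w : k[X] × k[X], w ≠ 0 ∧ IsFixed q D w}.Finite :=
    (finite_natDegree_le N).subset fun D hD => hD.1
  refine (Set.ncard_le_ncard ?_ h2).trans (le_of_eq ?_)
  · rintro D ⟨hD, χ, hχ, G, hG⟩
    exact ⟨hD, fixed_of_vanish hk (by omega) h6 χ hχ D G hG⟩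
  · exact (Nat.card_coe_set_eq _).symm

end Pool.Agent.Y709
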