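import Pool.Agent.Y709.Trace
import Mathlib.RingTheory.WittVector.Domain
import Mathlib.RingTheory.WittVector.Teichmuller
import Mathlib.RingTheory.WittVector.DiscreteValuationRing

/-!
The trace formula for the operators `ψ ∘ M` on the line, in characteristic `p`.
-/

set_option autoImplicit false

open Polynomial Module

namespace Pool.Agent.Y709

open Pool.Agent.W313.Hyp Pool.Agent.W343.BSD

section witt

variable (p : ℕ) [hp : Fact p.Prime] (K : Type) [Field K] [CharP K p]

theorem witt_charZero : CharZero (WittVector p K) := by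
  obtain ⟨l, hl⟩ := CharP.exists (WittVector p K)
  rcases CharP.char_is_prime_or_zero (WittVector p K) l with h | h
  · exfalso
    have h1 : ((l : ℕ) : WittVector p K) = 0 := CharP.cast_eq_zero _ l
    have h2 := congrArg (WittVector.constantCoeff (p := p) (R := K)) h1
    rw [map_natCast, map_zero] at h2
    have h3 : p ∣ l := (CharP.cast_eq_zero_iff K p l).1 h2
    have h4 : p = l := (Nat.prime_dvd_prime_iff_eq hp.out h).1 h3
    rw [← h4] at h1
    exact WittVector.p_nonzero p K h1
  · rw [h] at hl
    exact CharP.charP_to_charZero _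

theorem teich_inj : Function.Injective (WittVector.teichmuller p : K →* WittVector p K) := by
  intro a b h
  have := congrArg (fun x : WittVector p K => x.coeff 0) h
  simpa using this

theorem teich_zero : (WittVector.teichmuller p : K →* WittVector p K) 0 = 0 :=
  WittVector.teichmuller_zero p

theorem coeff_teich (a : K) :
    WittVector.constantCoeff ((WittVector.teichmuller p : K →* WittVector p K) a) = a :=
  WittVector.teichmuller_coeff_zero p a

end witt

section lift

variable {R K : Type} [CommRing R] [Field K]

theorem exists_lift (π : R →+* K) (hπ : Function.Surjective π) (f : K[X]) :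
    ∃ g : R[X], g.map π = f ∧ g.natDegree ≤ f.natDegree := by
  have h1 : ∀ a, ∃ b, π b = a := hπ
  choose s hs using h1
  refine ⟨∑ i ∈ Finset.range (f.natDegree + 1), monomial i (s (f.coeff i)), ?_, ?_⟩
  · rw [Polynomial.map_sum]
    conv_rhs => rw [f.as_sum_range]
    refine Finset.sum_congr rfl fun i _ => ?_
    rw [Polynomial.map_monomial, hs]
  · refine natDegree_sum_le_of_forall_le _ _ fun i hi => ?_
    rw [Finset.mem_range] at hi
    exact (natDegree_monomial_le _).trans (by omega)

end lift

section reduction

variable {R R' : Type} [CommRing R] [CommRing R'] {ι : Type} [Fintype ι] [DecidableEq ι]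

theorem map_at (π : R →+* R') (M : Matrix ι ι R[X]) (z : R) :
    (at' M z).map π = at' (M.map (mapRingHom π)) (π z) := by
  refine Matrix.ext fun a b => ?_
  unfold at'
  rw [Matrix.map_apply, Matrix.map_apply, Matrix.map_apply, Matrix.map_apply, coe_mapRingHom,
    coe_evalRingHom, coe_evalRingHom, Polynomial.eval_map, Polynomial.eval₂_at_apply]

theorem map_kmat (π : R →+* R') (q m : ℕ) (M : Matrix ι ι R[X]) :
    (kmat q m M).map π = kmat q m (M.map (mapRingHom π)) := by
  refine Matrix.ext fun a b => ?_
  unfold kmat
  rw [Matrix.map_apply, Matrix.of_apply, Matrix.of_apply, Matrix.map_apply, coe_mapRingHom,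
    ← Polynomial.coeff_map, Polynomial.map_mul, Polynomial.map_pow, map_X]

variable {K : Type} [Field K]

theorem map_loc (π : R →+* R') (τ : K →* R) (τ' : K →* R') (h : ∀ a, π (τ a) = τ' a) (q : ℕ)
    (M : Matrix ι ι R[X]) (a : K) (d : ℕ) :
    (loc τ q M a d).map π = loc τ' q (M.map (mapRingHom π)) a d := by
  unfold loc
  rw [mprod_map]
  congr 1
  funext j
  rw [map_at, map_pow, h]

theorem map_locF (π : R →+* R') (τ : K →* R) (τ' : K →* R') (h : ∀ a, π (τ a) = τ' a) (q : ℕ)
    (M : Matrix ι ι R[X]) (a : K) (d : ℕ) (hd : d ≠ 0) :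
    PowerSeries.map π (locF τ q M a d hd) = locF τ' q (M.map (mapRingHom π)) a d hd := by
  unfold locF
  rw [PowerSeries.map_expand, ← Polynomial.polynomial_map_coe, map_charpolyRev, map_loc π τ τ' h]

theorem map_rescale (π : R →+* K) {q : R} (hq : π q = 0) (F : PowerSeries R)
    (hF : PowerSeries.constantCoeff F = 1) : PowerSeries.map π (PowerSeries.rescale q F) = 1 := by
  ext n
  rw [PowerSeries.coeff_map, PowerSeries.coeff_rescale, map_mul, map_pow, hq, PowerSeries.coeff_one]
  rcases Nat.eq_zero_or_pos n with h | h
  · rw [h, if_pos rfl, pow_zero, one_mul, PowerSeries.coeff_zero_eq_constantCoeff_apply, hF, map_one]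
  · rw [if_neg h.ne', zero_pow h.ne', zero_mul]

end reduction

variable {ι : Type} [Fintype ι] [DecidableEq ι]
variable {k : Type} [Field k] [Finite k] {K : Type} [Field K] [Algebra k K] [IsAlgClosed K]
  [Algebra.IsAlgebraic k K]

/-- the trace formula in characteristic `p` -/
theorem formula_mod {q m : ℕ} (hq : Nat.card k = q) (M : Matrix ι ι K[X])
    (hM : ∀ a b, (M a b).natDegree < (q - 1) * (m + 1))
    (ρ : MI k → K) (hρ : ∀ P : MI k, aeval (ρ P) P.1 = 0) :
    eulerProd (fun P : MI k => P.1.natDegree)
        (fun P => locF (MonoidHom.id K) q M (ρ P) P.1.natDegree (deg_ne P)) *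
        ((kmat q m M).charpolyRev : PowerSeries K) = 1 := by
  obtain ⟨p, hp⟩ := CharP.exists k
  have hpf : Fact (Nat.Prime p) := ⟨CharP.char_is_prime k p⟩
  have hpK : CharP K p := charP_of_injective_algebraMap (algebraMap k K).injective p
  have hc0 := witt_charZero p K
  have hq0 : ((q : ℕ) : K) = 0 := by
    have h1 : ((q : ℕ) : k) = 0 := by
      have hF : Fintype k := Fintype.ofFinite k
      rw [← hq, Nat.card_eq_fintype_card]
      exact FiniteField.cast_card_eq_zero k
    rw [← map_natCast (algebraMap k K), h1, map_zero]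
  let π : WittVector p K →+* K := WittVector.constantCoeff
  have hπ : Function.Surjective π := fun a => ⟨WittVector.teichmuller p a, coeff_teich p K a⟩
  have hl : ∀ a b, ∃ g : (WittVector p K)[X], g.map π = M a b ∧ g.natDegree ≤ (M a b).natDegree :=
    fun a b => exists_lift π hπ (M a b)
  choose L hL1 hL2 using hl
  have h1 := formula (k := k) (K := K) (WittVector.teichmuller p : K →* WittVector p K)
    (teich_inj p K) (teich_zero p K) hq (Matrix.of L) (m := m)
    (fun a b => (hL2 a b).trans_lt (hM a b)) ρ hρ
  have h2 := congrArg (PowerSeries.map π) h1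
  have hML : (Matrix.of L).map (mapRingHom π) = M := by
    refine Matrix.ext fun a b => ?_
    rw [Matrix.map_apply, Matrix.of_apply, coe_mapRingHom, hL1]
  rw [map_mul, map_mul, map_rescale π (by rw [map_natCast]; exact hq0) _
    (constantCoeff_charpolyRev _), map_rescale π (by rw [map_natCast]; exact hq0) _
    (constantCoeff_charpolyRev _), mul_one, map_eulerProd (fun n => finite_deg_le (F := k) n),
    ← Polynomial.polynomial_map_coe, map_charpolyRev, map_kmat, hML] at h2
  rw [← h2]
  congr 2
  funext P
  rw [map_locF π _ (MonoidHom.id K) (fun a => coeff_teich p K a), hML]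

end Pool.Agent.Y709
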