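import Pool.Agent.Y709.Fe
import Pool.Agent.Y709.Witt
import Pool.Agent.W313.Hyp.Sigma

/-!
The global functional equation and its reduction.
-/

set_option autoImplicit false

open Polynomial

namespace Pool.Agent.Y709

open Pool.Agent.W313.Hyp Pool.Agent.W343.BSD

section series

variable {R : Type} [CommRing R]

/-- substitution of `X ^ r` in an Euler product (after Pool.Agent.W343.BSD.Rel) -/
theorem expand_euler {ι : Type} {d : ι → ℕ} (hfin : ∀ n, {i | d i ≤ n}.Finite) {r : ℕ}
    (hr : r ≠ 0) {f : ι → PowerSeries R} (hf : ∀ i, (PowerSeries.X : PowerSeries R) ^ d i ∣ f i - 1) :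
    PowerSeries.expand r hr (eulerProd d f) =
      eulerProd (fun i => r * d i) (fun i => PowerSeries.expand r hr (f i)) := by
  have hfin' : ∀ n, {i | r * d i ≤ n}.Finite := fun n => (hfin n).subset fun i hi => by
    rw [Set.mem_ofPred_eq] at hi ⊢
    exact (Nat.le_mul_of_pos_left _ (Nat.pos_of_ne_zero hr)).trans hi
  have hmap : ∀ (k : ℕ) (g : PowerSeries R), (PowerSeries.X : PowerSeries R) ^ k ∣ g →
      (PowerSeries.X : PowerSeries R) ^ (r * k) ∣ PowerSeries.expand r hr g := by
    rintro k g ⟨q, rfl⟩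
    rw [map_mul, map_pow, PowerSeries.expand_X, ← pow_mul]
    exact dvd_mul_right _ _
  have hf' : ∀ i, (PowerSeries.X : PowerSeries R) ^ (r * d i) ∣
      PowerSeries.expand r hr (f i) - 1 := fun i => by
    have := hmap _ _ (hf i)
    rwa [map_sub, map_one] at this
  apply eq_of_mod
  intro n
  have h1 := hmap _ _ (eulerProd_mod hfin hf n (hfin n).toFinset (fun i hi => by
    rw [Set.Finite.mem_toFinset]; exact hi))
  rw [map_sub, map_prod] at h1
  have h2 := eulerProd_mod hfin' hf' n (hfin n).toFinset (fun i hi => by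
    rw [Set.Finite.mem_toFinset]
    exact (Nat.le_mul_of_pos_left _ (Nat.pos_of_ne_zero hr)).trans hi)
  have h3 : (PowerSeries.X : PowerSeries R) ^ (n + 1) ∣ PowerSeries.X ^ (r * (n + 1)) :=
    pow_dvd_pow _ (Nat.le_mul_of_pos_left _ (Nat.pos_of_ne_zero hr))
  exact mod_trans (h3.trans h1) (mod_symm h2)

theorem rescale_euler {ι : Type} {d : ι → ℕ} (hfin : ∀ n, {i | d i ≤ n}.Finite) (c : R)
    (f : ι → PowerSeries R) :
    PowerSeries.rescale c (eulerProd d f) = eulerProd d (fun i => PowerSeries.rescale c (f i)) := by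
  ext n
  rw [PowerSeries.coeff_rescale, coeff_eulerProd hfin, coeff_eulerProd hfin, ← map_prod,
    PowerSeries.coeff_rescale]

theorem rescale_expand {r : ℕ} (hr : r ≠ 0) (c : R) (f : PowerSeries R) :
    PowerSeries.rescale c (PowerSeries.expand r hr f) =
      PowerSeries.expand r hr (PowerSeries.rescale (c ^ r) f) := by
  ext n
  rw [PowerSeries.coeff_rescale]
  by_cases h : r ∣ n
  · obtain ⟨m, rfl⟩ := h
    rw [PowerSeries.coeff_expand_mul, PowerSeries.coeff_expand_mul,
      PowerSeries.coeff_rescale, pow_mul]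
  · rw [PowerSeries.coeff_expand_of_not_dvd _ _ _ h, PowerSeries.coeff_expand_of_not_dvd _ _ _ h,
      mul_zero]

theorem expand_mod {r : ℕ} (hr : r ≠ 0) {f : PowerSeries R}
    (hf : PowerSeries.constantCoeff f = 1) :
    (PowerSeries.X : PowerSeries R) ^ r ∣ PowerSeries.expand r hr f - 1 := by
  have h1 : (PowerSeries.X : PowerSeries R) ∣ f - 1 := by
    rw [PowerSeries.X_dvd_iff, map_sub, hf, map_one, sub_self]
  obtain ⟨g, hg⟩ := h1
  have h2 := congrArg (PowerSeries.expand r hr) hg
  rw [map_sub, map_one, map_mul, PowerSeries.expand_X] at h2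
  rw [h2]
  exact dvd_mul_right _ _

end series

section plane

variable {k : Type} [Field k]

instance factIrr (P : MI k) : Fact (Irreducible P.1) := ⟨P.2.2⟩

/-- the residue field -/
abbrev RS (P : MI k) : Type := AdjoinRoot P.1

instance RS.finiteDimensional (P : MI k) : FiniteDimensional k (RS P) :=
  P.2.1.finite_adjoinRoot

instance RS.finite [Finite k] (P : MI k) : Finite (RS P) := Module.finite_of_finite k

/-- the value of a polynomial at a closed point -/
noncomputable def val (P : MI k) (g : k[X]) : RS P := AdjoinRoot.mk P.1 g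

theorem card_RS [Finite k] (P : MI k) : Nat.card (RS P) = Nat.card k ^ P.1.natDegree := by
  have h1 := Module.natCard_eq_pow_finrank (K := k) (V := RS P)
  rw [h1]
  congr 1
  have h2 := (AdjoinRoot.powerBasis P.2.1.ne_zero).finrank
  rw [AdjoinRoot.powerBasis_dim] at h2
  exact h2

variable {R : Type} [CommRing R]

/-- the factor of a closed point of the plane -/
noncomputable def fac (χ : MulChar k R) (D : k[X]) (z : Σ P : MI k, MI (RS P)) : R :=
  χ (Algebra.norm k (AdjoinRoot.mk z.2.1
    (C (val z.1 D) * (X * (X - 1) * (X - C (val z.1 X))))))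

/-- the Euler product over the plane -/
noncomputable def LF (χ : MulChar k R) (D : k[X]) : PowerSeries R :=
  eulerProd (fun z : Σ P : MI k, MI (RS P) => z.1.1.natDegree * z.2.1.natDegree)
    (fun z => 1 - PowerSeries.C (fac χ D z) *
      PowerSeries.X ^ (z.1.1.natDegree * z.2.1.natDegree))

theorem plane_finite [Finite k] (n : ℕ) :
    {z : Σ P : MI k, MI (RS P) | z.1.1.natDegree * z.2.1.natDegree ≤ n}.Finite :=
  sigma_finite (fun n => finite_deg_le (F := k) n) (fun P => MI.deg_pos P)
    (fun P n => finite_deg_le (F := RS P) n) (fun P Q => MI.deg_pos Q) n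

theorem LF_eq [Finite k] (χ : MulChar k R) (D : k[X]) :
    LF χ D = eulerProd (fun P : MI k => P.1.natDegree)
      (fun P => PowerSeries.expand P.1.natDegree (deg_ne P) (fibE R χ (val P D) (val P X))) := by
  have hdv : ∀ (a : R) (n : ℕ), (PowerSeries.X : PowerSeries R) ^ n ∣
      (1 - PowerSeries.C a * PowerSeries.X ^ n) - 1 := by
    intro a n
    rw [sub_right_comm, sub_self, zero_sub]
    exact (dvd_neg).2 (dvd_mul_left _ _)
  unfold LF
  rw [eulerProd_sigma (fun n => finite_deg_le (F := k) n) (fun P => MI.deg_pos P)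
    (fun P n => finite_deg_le (F := RS P) n) (fun _ Q => MI.deg_pos Q) _ (fun z => hdv _ _)]
  congr 1
  funext P
  unfold fibE
  rw [expand_euler (fun n => finite_deg_le (F := RS P) n) (deg_ne P) (fun Q => hdv _ _)]
  congr 1
  funext Q
  rw [map_sub, map_one, map_mul, map_pow, PowerSeries.expand_X, PowerSeries.expand_C, ← pow_mul]
  rfl

end plane

section frob

variable {k K : Type} [Field k] [Fintype k] [Field K] [Algebra k K]

theorem aeval_frob {q : ℕ} (hk : Fintype.card k = q) (D : k[X]) (z : K) (j : ℕ) :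
    aeval (z ^ (q ^ j)) D = (aeval z D) ^ (q ^ j) := by
  induction j with
  | zero => rw [pow_zero, pow_one, pow_one]
  | succ j ih =>
    rw [pow_succ, pow_mul, pow_mul, ← ih, ← expand_aeval, ← hk, FiniteField.expand_card, map_pow]

end frob

section main

variable {k : Type} [Field k] [Fintype k] {K : Type} [Field K] [Algebra k K]

/-- the matrix `6 Φ` over the ring of polynomials -/
noncomputable def PhX (k : Type) [Field k] : Matrix (Fin 2) (Fin 2) k[X] :=
  !![3 * X - 2, 1; X ^ 3, 3 * X ^ 2 - 2 * X ^ 3]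

/-- the matrix `D Φ` -/
noncomputable def MD (D : k[X]) : Matrix (Fin 2) (Fin 2) k[X] :=
  Matrix.of fun i j => C ((6 : k)⁻¹) * (D * PhX k i j)

omit [Fintype k] in
theorem MD_six (h6 : (6 : k) ≠ 0) (D : k[X]) (i j : Fin 2) :
    6 * MD D i j = D * (!![3 * X - 2, 1; X ^ 3, 3 * X ^ 2 - 2 * X ^ 3] :
      Matrix (Fin 2) (Fin 2) k[X]) i j := by
  unfold MD PhX
  rw [Matrix.of_apply]
  have h1 : (6 : k[X]) * C ((6 : k)⁻¹) = 1 := by
    have : (6 : k[X]) = C 6 := (map_ofNat C 6).symm
    rw [this, ← C_mul, mul_inv_cancel₀ h6, C_1]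
  rw [← mul_assoc, h1, one_mul]

omit [Fintype k] in
theorem aeval_PhX (z : K) (i j : Fin 2) : aeval z (PhX k i j) = Ph z i j := by
  unfold PhX Ph
  have h3 : aeval z (3 : k[X]) = 3 := map_ofNat _ 3
  have h2 : aeval z (2 : k[X]) = 2 := map_ofNat _ 2
  fin_cases i <;> fin_cases j <;> simp [h2, h3]

omit [Fintype k] in
theorem natDegree_MD (D : k[X]) (i j : Fin 2) : (MD D i j).natDegree ≤ D.natDegree + 3 := by
  unfold MD
  rw [Matrix.of_apply]
  refine (natDegree_C_mul_le _ _).trans (natDegree_mul_le.trans (Nat.add_le_add_left ?_ _))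
  unfold PhX
  fin_cases i <;> fin_cases j <;> simp <;> compute_degree!

/-- the local factors -/
theorem locF_MD {q : ℕ} (hk : Fintype.card k = q) (D : k[X]) (P : MI k) (r : K)
    (σ : RS P →+* K) (hc : ∀ a : k, σ (algebraMap k (RS P) a) = algebraMap k K a)
    (hX : σ (val P X) = r) :
    (Xprod q (val P D) (val P X) P.1.natDegree).charpolyRev.map σ =
      (loc (MonoidHom.id K) q ((MD D).map (Polynomial.map (algebraMap k K))) r
        P.1.natDegree).charpolyRev := by
  rw [map_charpolyRev]
  congr 1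
  unfold Xprod loc
  rw [mprod_map]
  congr 1
  funext j
  refine Matrix.ext fun a b => ?_
  have h2 : ∀ g : k[X], σ (val P g) = aeval r g := by
    intro g
    let τ : RS P →ₐ[k] K := { σ with commutes' := hc }
    have h3 : τ (val P g) = aeval (τ (val P X)) g := by
      have h4 : val P g = aeval (val P X) g := by
        have h5 : (aeval (AdjoinRoot.root P.1) g : AdjoinRoot P.1) = AdjoinRoot.mk P.1 g :=
          AdjoinRoot.aeval_eq g
        exact h5.symm
      conv_lhs => rw [h4]
      rw [Polynomial.aeval_algHom_apply]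
    have h6 : τ (val P X) = r := hX
    rw [h6] at h3
    exact h3
  have h7 : (at' ((MD D).map (Polynomial.map (algebraMap k K)))
      ((MonoidHom.id K) r ^ q ^ j)) a b =
      aeval (r ^ (q ^ j)) (MD D a b) := by
    unfold at'
    rw [Matrix.map_apply, Matrix.map_apply, coe_evalRingHom, eval_map_algebraMap]
    rfl
  rw [h7]
  unfold MD
  rw [Matrix.of_apply, map_mul, map_mul, aeval_C, aeval_frob hk, aeval_PhX, Matrix.map_apply,
    Matrix.smul_apply, smul_eq_mul, map_mul, map_mul, map_pow, h2, map_inv₀, map_inv₀,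
    map_ofNat, map_ofNat]
  have h8 : σ (Ph (cj q (val P X) j) a b) = Ph (r ^ (q ^ j)) a b := by
    unfold Ph cj
    rw [← hX]
    have h3 : σ 3 = 3 := map_ofNat _ 3
    have h2 : σ 2 = 2 := map_ofNat _ 2
    fin_cases a <;> fin_cases b <;> simp [h2, h3]
  rw [h8]
  ring

end main

end Pool.Agent.Y709
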