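import Pool.Agent.Y709.Loc

/-!
Power sums of the fibres in characteristic `p`.
-/

set_option autoImplicit false

open Polynomial

namespace Pool.Agent.Y709

section sums

variable {F : Type} [Field F] [Fintype F] {q d : ℕ}
variable {p f : ℕ} [hp : Fact p.Prime] [CharP F p] (hq : q = p ^ f) (hf : 0 < f)

/-- the exponent of the inverse character -/
def ex (q d : ℕ) : ℕ := (q - 2) * nex q d

theorem pow_ex {M : Type} [CommMonoid M] (a : M) (q d : ℕ) :
    a ^ ex q d = ∏ j ∈ Finset.range d, (a ^ (q ^ j)) ^ (q - 2) := by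
  unfold ex
  rw [mul_comm, pow_mul, pow_nex, Finset.prod_pow]

include hq hf in
theorem sum_H (h5 : 5 ≤ q) (hd : 0 < d) (hF : Fintype.card F = q ^ d) {t : F} (h0 : t ≠ 0)
    (h1 : t ≠ 1) : ∑ a : F, (a * ((a - 1) * (a - t))) ^ ex q d = -(Aprod q t d).trace := by
  have h2 := sum_conj (m := 2) (by omega) hd hF (fun j => hpoly q (cj q t j))
    (fun j => natDegree_hpoly q h5 _)
  have h3 : (fun j => kmat q 2 (one' (hpoly q (cj q t j)))) =
      fun j => (Matrix.of fun x y : Fin 2 × Unit => Mx (cj q t j) (cj q t (j + 1)) x.1 y.1 :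
        Matrix (Fin 2 × Unit) (Fin 2 × Unit) F) := by
    funext j
    refine Matrix.ext fun x y => ?_
    have h4 : cj q t j ^ q = cj q t (j + 1) := by
      unfold cj
      rw [← pow_mul, pow_succ]
    rw [kmat_hpoly hq hf h5 (cj_ne_zero h0 j) (cj_ne_one hq h1 j), Matrix.of_apply, h4]
  rw [h3, mprod_sub (fun j => Mx (cj q t j) (cj q t (j + 1)))] at h2
  unfold Aprod
  rw [← h2]
  refine Finset.sum_congr rfl fun a _ => ?_
  rw [pow_ex]
  refine Finset.prod_congr rfl fun j _ => ?_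
  unfold hpoly cj
  rw [eval_pow, eval_mul, eval_mul, eval_X, eval_sub, eval_sub, eval_X, eval_C, eval_C,
    mul_pow a, mul_pow (a - 1), frob_sub hq, frob_sub hq, one_pow]

include hq hf in
theorem sum_B (h5 : 5 ≤ q) (hd : 0 < d) (hF : Fintype.card F = q ^ d) :
    ∑ a : F, (a * (1 - a)) ^ ex q d = -(2 : F) ^ d := by
  have hq2 : ((q : ℕ) : F) = 0 := cast_q' hq hf
  have h2 := sum_conj_one (by omega) hd hF (fun _ => (X ^ (q - 2) * (1 - X) ^ (q - 2) : F[X]))
    (fun j => by
      have h3 : ((1 - X : F[X]) ^ (q - 2)).natDegree ≤ (q - 2) * 1 := by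
        refine natDegree_pow_le.trans (Nat.mul_le_mul_left _ ?_)
        refine (natDegree_sub_le _ _).trans ?_
        rw [natDegree_one, natDegree_X]
        rfl
      have h4 := natDegree_mul_le (p := (X ^ (q - 2) : F[X])) (q := (1 - X) ^ (q - 2))
      rw [natDegree_X_pow] at h4
      omega) 2 (fun j => by
      rw [coeff_X_pow_mul', if_pos (by omega), show q - 1 - (q - 2) = 1 by omega,
        (coeff_one_sub_pow _).2, Nat.cast_sub (by omega), hq2]
      ring)
  rw [← h2]
  refine Finset.sum_congr rfl fun a _ => ?_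
  rw [pow_ex]
  refine Finset.prod_congr rfl fun j _ => ?_
  rw [eval_mul, eval_pow, eval_pow, eval_X, eval_sub, eval_one, eval_X, mul_pow, frob_sub hq,
    one_pow, mul_pow]

theorem pow_two_ex (hq5 : 5 ≤ q) (hd : 0 < d) (hF : Fintype.card F = q ^ d) (a : F) :
    a ^ (2 * ex q d) = ∏ j ∈ Finset.range d, (a ^ (q ^ j)) ^ (q - 3) := by
  have h1 : a ^ ((q - 3) * nex q d) = ∏ j ∈ Finset.range d, (a ^ (q ^ j)) ^ (q - 3) := by
    rw [mul_comm, pow_mul, pow_nex, Finset.prod_pow]
  rw [← h1]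
  have h2 : 2 * ex q d = (q - 1) * nex q d + (q - 3) * nex q d := by
    unfold ex
    rw [← mul_assoc, ← add_mul]
    congr 1
    omega
  have hn := nex_pos (q := q) (by omega) hd
  by_cases ha : a = 0
  · rw [ha, zero_pow, zero_pow]
    · exact (Nat.mul_pos (by omega) hn).ne'
    · rw [h2]
      have := Nat.mul_pos (show 0 < q - 1 by omega) hn
      omega
  · rw [h2, pow_add, nex_mul (by omega), ← hF, FiniteField.pow_card_sub_one_eq_one a ha, one_mul]

include hq hf in
theorem sum_B' (h5 : 5 ≤ q) (hd : 0 < d) (hF : Fintype.card F = q ^ d) :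
    ∑ a : F, a ^ ex q d * (1 - a) ^ (2 * ex q d) = -(3 : F) ^ d := by
  have hq2 : ((q : ℕ) : F) = 0 := cast_q' hq hf
  have h2 := sum_conj_one (by omega) hd hF (fun _ => (X ^ (q - 2) * (1 - X) ^ (q - 3) : F[X]))
    (fun j => by
      have h3 : ((1 - X : F[X]) ^ (q - 3)).natDegree ≤ (q - 3) * 1 := by
        refine natDegree_pow_le.trans (Nat.mul_le_mul_left _ ?_)
        refine (natDegree_sub_le _ _).trans ?_
        rw [natDegree_one, natDegree_X]
        rfl
      have h4 := natDegree_mul_le (p := (X ^ (q - 2) : F[X])) (q := (1 - X) ^ (q - 3))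
      rw [natDegree_X_pow] at h4
      omega) 3 (fun j => by
      rw [coeff_X_pow_mul', if_pos (by omega), show q - 1 - (q - 2) = 1 by omega,
        (coeff_one_sub_pow _).2, Nat.cast_sub (by omega), hq2]
      ring)
  rw [← h2]
  refine Finset.sum_congr rfl fun a _ => ?_
  rw [pow_ex, pow_two_ex h5 hd hF, ← Finset.prod_mul_distrib]
  refine Finset.prod_congr rfl fun j _ => ?_
  rw [eval_mul, eval_pow, eval_pow, eval_X, eval_sub, eval_one, eval_X, frob_sub hq, one_pow]

include hq hf in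
theorem sum_deg (h5 : 5 ≤ q) (hd : 0 < d) (hF : Fintype.card F = q ^ d) :
    ∑ a : F, (a * (1 + a) * (0 + a)) ^ ex q d = -(3 : F) ^ d := by
  rw [← sum_B' hq hf h5 hd hF]
  refine Fintype.sum_equiv (Equiv.addRight (1 : F)) _ _ fun a => ?_
  rw [Equiv.coe_addRight, two_mul, pow_add, ← mul_pow, ← mul_pow]
  congr 1
  ring

omit [Fintype F] in
theorem neg_one_nex (hodd : Odd q) (d : ℕ) : (-1 : F) ^ nex q d = (-1) ^ d := by
  induction d with
  | zero => rfl
  | succ d ih =>
    have h1 : nex q (d + 1) = nex q d + q ^ d := Finset.sum_range_succ _ _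
    rw [h1, pow_add, ih, pow_succ]
    congr 1
    exact (hodd.pow).neg_one_pow

/-- the power sum over the plane -/
def planeP (α : F × F × F) [DecidableEq F] (e : ℕ) : F :=
  ∑ g : F × F × F, dl F (α.1 * g.1 + α.2.1 * g.2.1 + α.2.2 * g.2.2) * (g.1 * g.2.1 * g.2.2) ^ e

theorem planeP_scale [DecidableEq F] (α : F × F × F) (h0 : α.1 ≠ 0) (h1 : α.2.1 ≠ 0)
    (h2 : α.2.2 ≠ 0) (e : ℕ) :
    (α.1 * α.2.1 * α.2.2) ^ e * planeP α e = planeP (1, 1, 1) e := by
  unfold planeP
  rw [Finset.mul_sum]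
  refine Fintype.sum_equiv ((Equiv.mulLeft₀ α.1 h0).prodCongr ((Equiv.mulLeft₀ α.2.1 h1).prodCongr
        (Equiv.mulLeft₀ α.2.2 h2))) _ _ fun y => ?_
  show _ = dl F (1 * (α.1 * y.1) + 1 * (α.2.1 * y.2.1) + 1 * (α.2.2 * y.2.2)) *
    ((α.1 * y.1) * (α.2.1 * y.2.1) * (α.2.2 * y.2.2)) ^ e
  rw [one_mul, one_mul, one_mul, mul_left_comm, ← mul_pow]
  congr 2
  ring

include hq hf in
theorem planeP_one [DecidableEq F] (h5 : 5 ≤ q) (hd : 0 < d) (hF : Fintype.card F = q ^ d) :
    planeP ((1 : F), (1 : F), (1 : F)) (ex q d) = 6 ^ d := by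
  have hn := nex_pos (q := q) (by omega) hd
  have hex : 0 < ex q d := Nat.mul_pos (by omega) hn
  have h1 : planeP ((1 : F), (1 : F), (1 : F)) (ex q d) =
      ∑ x : F, x ^ ex q d * ∑ y : F, (y * (1 - x - y)) ^ ex q d := by
    unfold planeP
    rw [Fintype.sum_prod_type]
    refine Finset.sum_congr rfl fun x _ => ?_
    rw [Fintype.sum_prod_type, Finset.mul_sum]
    refine Finset.sum_congr rfl fun y _ => ?_
    dsimp only
    rw [Finset.sum_eq_single (1 - x - y)]
    · unfold dl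
      rw [if_pos (by ring), one_mul, ← mul_pow]
      congr 1
      ring
    · intro z _ hz
      unfold dl
      rw [if_neg, zero_mul]
      intro h
      apply hz
      linear_combination h
    · intro h
      exact absurd (Finset.mem_univ _) h
  have h2 : ∀ s : F, ∑ y : F, (y * (s - y)) ^ ex q d = s ^ (2 * ex q d) * -(2 : F) ^ d := by
    intro s
    by_cases hs : s = 0
    · rw [hs, zero_pow (by omega), zero_mul]
      have h3 : ∀ y : F, (y * (0 - y)) ^ ex q d = (-1) ^ ex q d * y ^ (2 * ex q d) := by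
        intro y
        rw [two_mul, pow_add, ← mul_pow, ← mul_pow]
        congr 1
        ring
      rw [Finset.sum_congr rfl fun y _ => h3 y, ← Finset.mul_sum]
      have h4 := sum_pow' (MonoidHom.id F) (fun _ _ h => h) rfl (j := 2 * ex q d) (by omega)
      rw [if_neg] at h4
      · have h5 : ∑ y : F, y ^ (2 * ex q d) = 0 := h4
        rw [h5, mul_zero]
      · rw [hF, ← nex_mul (by omega)]
        intro h
        unfold ex at h
        rw [← mul_assoc] at h
        have h6 : q - 1 ∣ 2 * (q - 2) := Nat.dvd_of_mul_dvd_mul_right hn h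
        have h7 : 2 * (q - 2) = (q - 1) + (q - 3) := by omega
        rw [h7, Nat.dvd_add_right (dvd_refl _)] at h6
        have := Nat.le_of_dvd (by omega) h6
        omega
    · rw [← sum_B hq hf h5 hd hF, Finset.mul_sum]
      symm
      refine Fintype.sum_equiv (Equiv.mulLeft₀ s hs) _ _ fun a => ?_
      show _ = (s * a * (s - s * a)) ^ ex q d
      rw [two_mul, pow_add, ← mul_pow, ← mul_pow]
      congr 1
      ring
  rw [h1]
  have h3 : ∀ x : F, x ^ ex q d * ∑ y : F, (y * (1 - x - y)) ^ ex q d =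
      (x ^ ex q d * (1 - x) ^ (2 * ex q d)) * -(2 : F) ^ d := by
    intro x
    rw [h2, mul_assoc]
  rw [Finset.sum_congr rfl fun x _ => h3 x, ← Finset.sum_mul, sum_B' hq hf h5 hd hF, neg_mul_neg,
    ← mul_pow]
  congr 1
  norm_num

theorem pow_ex_mul (h5 : 5 ≤ q) (hF : Fintype.card F = q ^ d) {a : F} (ha : a ≠ 0) :
    a ^ ex q d * a ^ nex q d = 1 := by
  rw [← pow_add]
  have h1 : ex q d + nex q d = (q - 1) * nex q d := by
    unfold ex
    rw [← Nat.succ_mul]
    congr 1
    omega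
  rw [h1, nex_mul (by omega), ← hF, FiniteField.pow_card_sub_one_eq_one a ha]

include hq hf in
/-- the power sum over the plane is the determinant -/
theorem planeP_eq [DecidableEq F] (h5 : 5 ≤ q) (hodd : Odd q) (hd : 0 < d)
    (hF : Fintype.card F = q ^ d) (h6 : (6 : F) ≠ 0) {t : F} (h0 : t ≠ 0) (h1 : t ≠ 1) :
    planeP (wts t) (ex q d) = (Aprod q t d).det := by
  have h1' : (1 : F) - t ≠ 0 := sub_ne_zero.2 h1.symm
  have h1'' : t - 1 ≠ 0 := sub_ne_zero.2 h1
  have h6d : (6 : F) ^ d ≠ 0 := pow_ne_zero _ h6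
  obtain ⟨_, hdet⟩ := trace_det hq hF h6 h0 h1
  have hP : (Pprod q t d).det = (-6) ^ d * ((t * (1 - t)) ^ 2) ^ nex q d := by
    unfold Pprod
    rw [det_mprod]
    have h2 : ∀ j, (Ph (cj q t j)).det = (-6) * ((t * (1 - t)) ^ 2) ^ (q ^ j) := by
      intro j
      rw [det_Ph]
      unfold cj
      rw [← pow_mul, mul_comm 2, pow_mul, mul_pow t, frob_sub hq, one_pow]
    rw [Finset.prod_congr rfl fun j _ => h2 j, Finset.prod_mul_distrib, Finset.prod_const,
      Finset.card_range, pow_nex]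
  have hs := planeP_scale (wts t) (inv_ne_zero h0) (inv_ne_zero h1')
    (inv_ne_zero (mul_ne_zero h0 h1'')) (ex q d)
  have hw : (wts t).1 * (wts t).2.1 * (wts t).2.2 = -(((t * (1 - t)) ^ 2)⁻¹) := by
    unfold wts
    dsimp only
    have h4 : t * (t - 1) = -(t * (1 - t)) := by ring
    rw [h4, inv_neg, ← mul_inv, mul_neg, ← mul_inv, sq]
  rw [planeP_one hq hf h5 hd hF, hw] at hs
  set u := (t * (1 - t)) ^ 2 with hu
  have hu0 : u ≠ 0 := pow_ne_zero _ (mul_ne_zero h0 h1')
  have e1 : (-(u⁻¹)) ^ ex q d * (-(u⁻¹)) ^ nex q d = 1 :=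
    pow_ex_mul h5 hF (neg_ne_zero.2 (inv_ne_zero hu0))
  have e2 : (-(u⁻¹)) ^ nex q d * ((-1) ^ d * u ^ nex q d) = 1 := by
    rw [← neg_one_nex hodd d, ← mul_pow, ← mul_pow]
    have : -(u⁻¹) * (-1 * u) = 1 := by
      field_simp
    rw [this, one_pow]
  have e3 : (-(u⁻¹)) ^ ex q d = (-1) ^ d * u ^ nex q d := by
    have e4 : (-(u⁻¹)) ^ ex q d * (-(u⁻¹)) ^ nex q d * ((-1) ^ d * u ^ nex q d) =
        1 * ((-1) ^ d * u ^ nex q d) := by rw [e1]
    rw [mul_assoc, e2, mul_one, one_mul] at e4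
    exact e4
  have hP' : (Pprod q t d).det = 6 ^ d * ((-1) ^ d * u ^ nex q d) := by
    rw [hP, neg_pow]
    ring
  rw [e3] at hs
  have hne : (-1 : F) ^ d * u ^ nex q d ≠ 0 := by
    intro h
    rw [h, zero_mul] at hs
    exact h6d hs.symm
  apply mul_left_cancel₀ hne
  apply mul_left_cancel₀ h6d
  rw [hs, ← mul_assoc, ← hP', hdet, sq]

end sums

end Pool.Agent.Y709
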