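import Pool.Agent.Y709.Loc2

/-!
The characteristic polynomials of the fibres in characteristic `p`.
-/

set_option autoImplicit false

open Polynomial

namespace Pool.Agent.Y709

section mats

variable {F : Type} [Field F]

theorem pow_of_det_zero {N : Matrix (Fin 2) (Fin 2) F} (h : N.det = 0) (n : ℕ) :
    N ^ (n + 1) = (N.trace ^ n) • N := by
  have h2 : N * N = N.trace • N := by
    rw [Matrix.det_fin_two] at h
    rw [Matrix.trace_fin_two]
    refine Matrix.ext fun i j => ?_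
    rw [Matrix.mul_apply, Fin.sum_univ_two, Matrix.smul_apply, smul_eq_mul]
    fin_cases i <;> fin_cases j <;> simp <;> first | linear_combination (-1 : F) * h | ring
  induction n with
  | zero => rw [zero_add, pow_one, pow_zero, one_smul]
  | succ n ih => rw [pow_succ, ih, smul_mul_assoc, h2, smul_smul, pow_succ]

end mats

section good

variable {F : Type} [Field F] [Fintype F] {q d : ℕ}
variable {p f : ℕ} [hp : Fact p.Prime] [CharP F p] (hq : q = p ^ f) (hf : 0 < f)

/-- the matrix of the fibre -/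
noncomputable def Xprod (q : ℕ) (c t : F) (n : ℕ) : Matrix (Fin 2) (Fin 2) F :=
  mprod (fun j => ((c ^ (q ^ j)) * (6 : F)⁻¹) • Ph (cj q t j)) n

omit [Fintype F] in
theorem Xprod_eq (q : ℕ) (c t : F) (n : ℕ) :
    Xprod q c t n = (c ^ nex q n * ((6 : F)⁻¹) ^ n) • Pprod q t n := by
  unfold Xprod Pprod
  rw [mprod_smul, Finset.prod_mul_distrib, Finset.prod_const, Finset.card_range, pow_nex]

/-- the power sum over the line -/
def lineP (t : F) (e : ℕ) : F := ∑ v : F, ((0 + v) * (1 + v) * (t + v)) ^ e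

include hq hf in
theorem lineP_good (h5 : 5 ≤ q) (hd : 0 < d) (hF : Fintype.card F = q ^ d) {t : F} (h0 : t ≠ 0)
    (h1 : t ≠ 1) : lineP t (ex q d) = (-1) ^ ex q d * -(Aprod q t d).trace := by
  rw [← sum_H hq hf h5 hd hF h0 h1, Finset.mul_sum]
  unfold lineP
  refine Fintype.sum_equiv (Equiv.neg F) _ _ fun v => ?_
  rw [Equiv.neg_apply, ← mul_pow]
  congr 1
  ring

include hq hf in
theorem lineP_zero (h5 : 5 ≤ q) (hd : 0 < d) (hF : Fintype.card F = q ^ d) :
    lineP (0 : F) (ex q d) = -(3 : F) ^ d := by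
  rw [← sum_deg hq hf h5 hd hF]
  unfold lineP
  refine Finset.sum_congr rfl fun v _ => ?_
  rw [zero_add]

include hq hf in
theorem lineP_one (h5 : 5 ≤ q) (hd : 0 < d) (hF : Fintype.card F = q ^ d) :
    lineP (1 : F) (ex q d) = (-1) ^ ex q d * -(3 : F) ^ d := by
  rw [← sum_deg hq hf h5 hd hF, Finset.mul_sum]
  unfold lineP
  refine Fintype.sum_equiv ((Equiv.addRight (1 : F)).trans (Equiv.neg F)) _ _ fun v => ?_
  rw [← mul_pow]
  congr 1
  simp only [Equiv.trans_apply, Equiv.coe_addRight, Equiv.neg_apply]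
  ring

include hq hf in
/-- the characteristic polynomial at a good point -/
theorem charpoly_good [DecidableEq F] (h5 : 5 ≤ q) (hodd : Odd q) (hd : 0 < d)
    (hF : Fintype.card F = q ^ d) (h6 : (6 : F) ≠ 0) {t : F} (h0 : t ≠ 0) (h1 : t ≠ 1) (c : F) :
    planeP (wts t) (ex q d) ≠ 0 ∧ (Xprod q c t d).charpolyRev =
      1 + C ((-c) ^ nex q d * lineP t (ex q d) / planeP (wts t) (ex q d)) * X +
        C ((c ^ 2) ^ nex q d / planeP (wts t) (ex q d)) * X ^ 2 := by
  have h6d : (6 : F) ^ d ≠ 0 := pow_ne_zero _ h6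
  obtain ⟨htr, hdet⟩ := trace_det hq hF h6 h0 h1
  rw [planeP_eq hq hf h5 hodd hd hF h6 h0 h1]
  have hA : (Aprod q t d).det ≠ 0 := by
    intro h
    rw [h, mul_zero] at hdet
    exact pow_ne_zero 2 h6d hdet.symm
  refine ⟨hA, ?_⟩
  have e1 : (Xprod q c t d).trace =
      -((-c) ^ nex q d * lineP t (ex q d) / (Aprod q t d).det) := by
    rw [lineP_good hq hf h5 hd hF h0 h1, Xprod_eq, Matrix.trace_smul, smul_eq_mul, eq_neg_iff_add_eq_zero]
    have h2 : (-c) ^ nex q d = (-1) ^ nex q d * c ^ nex q d := by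
      rw [← mul_pow, neg_one_mul]
    have h3 : (-1 : F) ^ ex q d * (-1) ^ nex q d = 1 :=
      pow_ex_mul h5 hF (neg_ne_zero.2 one_ne_zero)
    have h4 : ((6 : F)⁻¹) ^ d * 6 ^ d = 1 := by
      rw [← mul_pow, inv_mul_cancel₀ h6, one_pow]
    have h5' : (-c) ^ nex q d * ((-1) ^ ex q d * -(Aprod q t d).trace) =
        -(c ^ nex q d * (Aprod q t d).trace) := by
      rw [h2]
      linear_combination (-(c ^ nex q d) * (Aprod q t d).trace) * h3
    have h6' : c ^ nex q d * ((6 : F)⁻¹) ^ d * (Pprod q t d).trace =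
        c ^ nex q d * (Aprod q t d).trace / (Aprod q t d).det := by
      rw [eq_div_iff hA, mul_assoc, htr]
      linear_combination (c ^ nex q d * (Aprod q t d).trace) * h4
    rw [h5', h6']
    ring
  have e2 : (Xprod q c t d).det = (c ^ 2) ^ nex q d / (Aprod q t d).det := by
    rw [Xprod_eq, Matrix.det_smul, Fintype.card_fin, eq_div_iff hA, mul_assoc, hdet, mul_pow]
    have h4 : ((6 : F)⁻¹) ^ d * 6 ^ d = 1 := by
      rw [← mul_pow, inv_mul_cancel₀ h6, one_pow]
    have h3 : (c ^ 2) ^ nex q d = (c ^ nex q d) ^ 2 := by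
      rw [← pow_mul, ← pow_mul, mul_comm]
    rw [h3]
    linear_combination ((c ^ nex q d) ^ 2) * ((6 : F)⁻¹ ^ d * 6 ^ d + 1) * h4
  rw [charpolyRev_two, e1, e2, map_neg]
  ring

include hq hf in
/-- the characteristic polynomial at the two bad points -/
theorem charpoly_bad (h5 : 5 ≤ q) (hodd : Odd q) (hd : 0 < d)
    (hF : Fintype.card F = q ^ d) (h6 : (6 : F) ≠ 0) {t : F} (h0 : t = 0 ∨ t = 1) (c : F) :
    lineP t (ex q d) ≠ 0 ∧ (Xprod q c t d).charpolyRev =
      1 + C ((-c) ^ nex q d / lineP t (ex q d)) * X := by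
  have h3 : (3 : F) ≠ 0 := by
    intro h
    apply h6
    linear_combination 2 * h
  have h2 : (2 : F) ≠ 0 := by
    intro h
    apply h6
    linear_combination 3 * h
  have h3d : (3 : F) ^ d ≠ 0 := pow_ne_zero _ h3
  have hc : ∀ j, cj q t j = t := by
    intro j
    unfold cj
    rcases h0 with rfl | rfl
    · rw [zero_pow (pow_ne_zero _ (by omega))]
    · rw [one_pow]
  have hdet : (Ph t).det = 0 := by
    rw [det_Ph]
    rcases h0 with rfl | rfl <;> ring
  obtain ⟨n, rfl⟩ : ∃ n, d = n + 1 := ⟨d - 1, by omega⟩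
  have hP : Pprod q t (n + 1) = ((Ph t).trace ^ n) • Ph t := by
    unfold Pprod
    have : (fun j => Ph (cj q t j)) = fun _ => Ph t := by
      funext j
      rw [hc]
    rw [this, mprod_const, pow_of_det_zero hdet]
  have h4 : (-1 : F) ^ ex q (n + 1) * (-1) ^ nex q (n + 1) = 1 :=
    pow_ex_mul h5 hF (neg_ne_zero.2 one_ne_zero)
  have h7 : (-1 : F) ^ nex q (n + 1) = (-1) ^ (n + 1) := neg_one_nex hodd _
  have h8 : ((-1 : F) ^ (n + 1)) * (-1) ^ (n + 1) = 1 := by
    rw [← mul_pow]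
    simp
  have h9 : (-c) ^ nex q (n + 1) = (-1) ^ nex q (n + 1) * c ^ nex q (n + 1) := by
    rw [← mul_pow, neg_one_mul]
  have hT : (Xprod q c t (n + 1)).trace =
      -((-c) ^ nex q (n + 1) / lineP t (ex q (n + 1))) ∧ lineP t (ex q (n + 1)) ≠ 0 := by
    rw [Xprod_eq, hP, smul_smul, Matrix.trace_smul, smul_eq_mul]
    have h10 : c ^ nex q (n + 1) * (6 : F)⁻¹ ^ (n + 1) * (Ph t).trace ^ n * (Ph t).trace =
        c ^ nex q (n + 1) * ((6 : F)⁻¹ * (Ph t).trace) ^ (n + 1) := by
      rw [mul_pow, pow_succ (Ph t).trace]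
      ring
    rw [h10]
    rcases h0 with rfl | rfl
    · rw [lineP_zero hq hf h5 hd hF]
      have h11 : (6 : F)⁻¹ * (Ph (0 : F)).trace = -1 * (3 : F)⁻¹ := by
        unfold Ph
        rw [Matrix.trace_fin_two_of]
        have : (6 : F) = 2 * 3 := by norm_num
        rw [this, mul_inv]
        field_simp
        ring
      refine ⟨?_, neg_ne_zero.2 h3d⟩
      rw [h11, mul_pow, h9, h7, div_neg, neg_neg, inv_pow, div_eq_mul_inv]
      ring
    · rw [lineP_one hq hf h5 hd hF]
      have h11 : (6 : F)⁻¹ * (Ph (1 : F)).trace = (3 : F)⁻¹ := by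
        unfold Ph
        rw [Matrix.trace_fin_two_of]
        have : (6 : F) = 2 * 3 := by norm_num
        rw [this, mul_inv]
        field_simp
        ring
      have h12 : (-1 : F) ^ ex q (n + 1) = (-1) ^ (n + 1) := by
        rw [h7] at h4
        have h14 : (-1 : F) ^ ex q (n + 1) * (-1) ^ (n + 1) * (-1) ^ (n + 1) =
            1 * (-1) ^ (n + 1) := by rw [h4]
        rwa [mul_assoc, h8, mul_one, one_mul] at h14
      have h13 : (-1 : F) ^ (n + 1) ≠ 0 := pow_ne_zero _ (neg_ne_zero.2 one_ne_zero)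
      refine ⟨?_, ?_⟩
      · rw [h11, h9, h7, h12, mul_neg, div_neg, neg_neg, mul_div_mul_left _ _ h13, inv_pow,
          div_eq_mul_inv]
      · rw [h12]
        exact mul_ne_zero h13 (neg_ne_zero.2 h3d)
  refine ⟨hT.2, ?_⟩
  have hD : (Xprod q c t (n + 1)).det = 0 := by
    rw [Xprod_eq, hP, smul_smul, Matrix.det_smul, hdet, mul_zero]
  rw [charpolyRev_two, hT.1, hD, map_neg]
  simp

end good

end Pool.Agent.Y709
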