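import Mathlib.RingTheory.PowerSeries.Derivative
import Mathlib.RingTheory.PowerSeries.Expand
import Pool.Agent.W343.BSD.Euler

/-!
Logarithmic derivatives of power series.
-/

set_option autoImplicit false

open PowerSeries

namespace Pool.Agent.Y709

open Pool.Agent.W343.BSD

variable {R : Type} [CommRing R]

/-- `X F' = - F S` -/
def Lg (F S : PowerSeries R) : Prop := (X : PowerSeries R) * derivative R F = -(F * S)

theorem Lg.mul {F G S T : PowerSeries R} (hF : Lg F S) (hG : Lg G T) : Lg (F * G) (S + T) := by
  unfold Lg at *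
  rw [Derivation.leibniz, smul_eq_mul, smul_eq_mul]
  linear_combination G * hF + F * hG

theorem Lg.one : Lg (1 : PowerSeries R) 0 := by
  unfold Lg
  rw [Derivation.map_one_eq_zero]
  ring

theorem Lg.prod {ι : Type} (s : Finset ι) {f S : ι → PowerSeries R}
    (h : ∀ i ∈ s, Lg (f i) (S i)) : Lg (∏ i ∈ s, f i) (∑ i ∈ s, S i) := by
  classical
  induction s using Finset.induction_on with
  | empty => exact Lg.one
  | insert i s hi ih =>
    rw [Finset.prod_insert hi, Finset.sum_insert hi]
    exact (h i (Finset.mem_insert_self i s)).mul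
      (ih fun j hj => h j (Finset.mem_insert_of_mem hj))

theorem coeff_X_derivative (F : PowerSeries R) (n : ℕ) :
    coeff n ((X : PowerSeries R) * derivative R F) = n * coeff n F := by
  rcases n with _ | n
  · rw [coeff_zero_X_mul, Nat.cast_zero, zero_mul]
  · rw [coeff_succ_X_mul, coeff_derivative]
    push_cast
    ring

theorem Lg.coeff {F S : PowerSeries R} (h : Lg F S) (n : ℕ) :
    n * PowerSeries.coeff n F =
      - ∑ p ∈ Finset.HasAntidiagonal.antidiagonal n,
        PowerSeries.coeff p.1 F * PowerSeries.coeff p.2 S := by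
  rw [← coeff_X_derivative, h, map_neg, PowerSeries.coeff_mul]

theorem Lg.of_coeff {F S : PowerSeries R} (h : ∀ n : ℕ, n * PowerSeries.coeff n F =
      - ∑ p ∈ Finset.HasAntidiagonal.antidiagonal n,
        PowerSeries.coeff p.1 F * PowerSeries.coeff p.2 S) : Lg F S := by
  ext n
  rw [coeff_X_derivative, h, map_neg, PowerSeries.coeff_mul]

/-- the logarithmic derivative determines the series -/
theorem Lg.unique [IsDomain R] [CharZero R] {F G S : PowerSeries R} (hF : Lg F S) (hG : Lg G S)
    (h0 : constantCoeff F = 1) (h1 : constantCoeff G = 1) : F = G := by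
  have hS0 : PowerSeries.coeff 0 S = 0 := by
    have := hF.coeff 0
    rw [Nat.cast_zero, zero_mul, Finset.Nat.antidiagonal_zero, Finset.sum_singleton,
      coeff_zero_eq_constantCoeff_apply, h0, one_mul] at this
    exact neg_eq_zero.1 this.symm
  ext n
  induction n using Nat.strong_induction_on with
  | _ n ih =>
    rcases Nat.eq_zero_or_pos n with hn | hn
    · subst hn
      rw [coeff_zero_eq_constantCoeff_apply, coeff_zero_eq_constantCoeff_apply, h0, h1]
    · have hn' : (n : R) ≠ 0 := Nat.cast_ne_zero.2 hn.ne'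
      apply mul_left_cancel₀ hn'
      rw [hF.coeff, hG.coeff]
      congr 1
      refine Finset.sum_congr rfl fun p hp => ?_
      rw [Finset.HasAntidiagonal.mem_antidiagonal] at hp
      by_cases h2 : p.2 = 0
      · rw [h2, hS0, mul_zero, mul_zero]
      · rw [ih p.1 (by omega)]

theorem Lg.expand {F S : PowerSeries R} (h : Lg F S) {d : ℕ} (hd : d ≠ 0) :
    Lg (PowerSeries.expand d hd F) ((d : PowerSeries R) * PowerSeries.expand d hd S) := by
  have h1 := congrArg (PowerSeries.expand d hd) h
  rw [map_mul, map_neg, map_mul, expand_X] at h1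
  unfold Lg
  rw [expand_apply, derivative_subst (HasSubst.X_pow hd), ← expand_apply d hd,
    ← expand_apply d hd, derivative_pow, derivative_X, mul_one]
  have h2 : (X : PowerSeries R) * (PowerSeries.expand d hd (derivative R F) *
      ((d : PowerSeries R) * X ^ (d - 1))) = (d : PowerSeries R) *
        (X ^ d * PowerSeries.expand d hd (derivative R F)) := by
    have h3 : (X : PowerSeries R) ^ d = X * X ^ (d - 1) := by
      rw [← pow_succ', Nat.sub_add_cancel (Nat.pos_of_ne_zero hd)]
    rw [h3]
    ring
  rw [h2, h1]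
  ring

theorem Lg.rescale {F S : PowerSeries R} (h : Lg F S) (q : R) :
    Lg (PowerSeries.rescale q F) (PowerSeries.rescale q S) := by
  have h1 : (X : PowerSeries R) * derivative R (PowerSeries.rescale q F) =
      PowerSeries.rescale q (X * derivative R F) := by
    ext n
    rw [coeff_X_derivative, coeff_rescale, coeff_rescale, coeff_X_derivative]
    ring
  unfold Lg
  rw [h1, h, map_neg, map_mul]

theorem Lg.map {F S : PowerSeries R} {R' : Type} [CommRing R'] (h : Lg F S) (φ : R →+* R') :
    Lg (PowerSeries.map φ F) (PowerSeries.map φ S) := by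
  apply Lg.of_coeff
  intro n
  have h1 := congrArg φ (h.coeff n)
  rw [map_mul, map_natCast, map_neg, map_sum] at h1
  rw [coeff_map, h1]
  congr 1
  refine Finset.sum_congr rfl fun p _ => ?_
  rw [coeff_map, coeff_map, map_mul]

theorem dvd_log {F S : PowerSeries R} (h : Lg F S) {d : ℕ} (hd : (X : PowerSeries R) ^ d ∣ F - 1) :
    (X : PowerSeries R) ^ d ∣ S := by
  rcases Nat.eq_zero_or_pos d with h0 | h0
  · subst h0
    rw [pow_zero]
    exact one_dvd _
  have h1 : (X : PowerSeries R) ^ d ∣ X * derivative R F := by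
    rw [X_pow_dvd_iff] at hd ⊢
    intro m hm
    rw [coeff_X_derivative]
    rcases Nat.eq_zero_or_pos m with hm0 | hm0
    · rw [hm0, Nat.cast_zero, zero_mul]
    · have := hd m hm
      rw [map_sub, coeff_one, if_neg hm0.ne', sub_zero] at this
      rw [this, mul_zero]
  rw [h, dvd_neg] at h1
  have h2 : (X : PowerSeries R) ^ d ∣ F * S - S := by
    have := hd.mul_right S
    rwa [sub_mul, one_mul] at this
  exact (dvd_sub_right h1).1 h2

/-- the logarithmic derivative of an Euler product -/
theorem Lg.euler {ι : Type} {d : ι → ℕ} (hfin : ∀ n, {i | d i ≤ n}.Finite)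
    {f S : ι → PowerSeries R} (hf : ∀ i, (X : PowerSeries R) ^ d i ∣ f i - 1)
    (h : ∀ i, Lg (f i) (S i)) :
    Lg (eulerProd d f) (PowerSeries.mk fun n => ∑ i ∈ (hfin n).toFinset,
      PowerSeries.coeff n (S i)) := by
  apply Lg.of_coeff
  intro n
  have h1 := eulerProd_mod hfin hf n (hfin n).toFinset (fun i hi => by
    rw [Set.Finite.mem_toFinset]; exact hi)
  have h2 : ∀ m ≤ n, PowerSeries.coeff m (eulerProd d f) =
      PowerSeries.coeff m (∏ i ∈ (hfin n).toFinset, f i) := by
    intro m hm
    have := X_pow_dvd_iff.1 h1 m (by omega)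
    rwa [map_sub, sub_eq_zero] at this
  have h3 := (Lg.prod (hfin n).toFinset (fun i _ => h i)).coeff n
  rw [h2 n le_rfl, h3]
  congr 1
  refine Finset.sum_congr rfl fun p hp => ?_
  rw [Finset.HasAntidiagonal.mem_antidiagonal] at hp
  rw [h2 p.1 (by omega), coeff_mk, map_sum]
  congr 1
  refine (Finset.sum_subset ?_ ?_).symm
  · intro i hi
    rw [Set.Finite.mem_toFinset] at hi ⊢
    have : d i ≤ p.2 := hi
    show d i ≤ n
    omega
  · intro i _ hi
    rw [Set.Finite.mem_toFinset] at hi
    have h4 : ¬ d i ≤ p.2 := hi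
    exact X_pow_dvd_iff.1 (dvd_log (h i) (hf i)) p.2 (by omega)

end Pool.Agent.Y709
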