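import Pool.Agent.Y709.Red
import Mathlib.Tactic.FieldSimp

/-!
The matrix of `ψ ∘ (x (x - 1) (x - t)) ^ (q - 2)`.
-/

set_option autoImplicit false

open Polynomial

namespace Pool.Agent.Y709

section sums

variable {F : Type} [Field F]

theorem sum_quad_one (t : F) (n : ℕ) :
    (1 - t) ^ 3 * ∑ b ∈ Finset.range n, ((b : F) + 1) * ((b : F) + 3) * t ^ b =
      3 - t - t ^ n * (((n : F) + 1) * ((n : F) + 3) + (-2 * (n : F) ^ 2 - 6 * (n : F) - 1) * t +
        (n : F) * ((n : F) + 2) * t ^ 2) := by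
  induction n with
  | zero => simp; ring
  | succ n ih =>
    rw [Finset.sum_range_succ, mul_add, ih]
    push_cast
    ring

theorem sum_quad_two (t : F) (n : ℕ) :
    (1 - t) ^ 3 * ∑ b ∈ Finset.range n, ((b : F) + 1) * ((b : F) + 4) * t ^ b =
      4 - 2 * t - t ^ n * (((n : F) + 1) * ((n : F) + 4) + (-2 * (n : F) ^ 2 - 8 * (n : F) - 2) * t +
        (n : F) * ((n : F) + 3) * t ^ 2) := by
  induction n with
  | zero => simp; ring
  | succ n ih =>
    rw [Finset.sum_range_succ, mul_add, ih]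
    push_cast
    ring

end sums

section coeffs

variable {F : Type} [Field F] {p : ℕ} [hp : Fact p.Prime] [CharP F p] {f q : ℕ} (hq : q = p ^ f)
  (hf : 0 < f)

/-- the polynomial `((x - 1) (x - t)) ^ (q - 2)` -/
noncomputable def upoly (q : ℕ) (t : F) : F[X] := ((X - C 1) * (X - C t)) ^ (q - 2)

theorem coeff_upoly (q : ℕ) (t : F) (n : ℕ) : (upoly q t).coeff n =
    ∑ i ∈ Finset.range (n + 1), ((X - C 1) ^ (q - 2) : F[X]).coeff i *
      ((X - C t) ^ (q - 2) : F[X]).coeff (n - i) := by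
  unfold upoly
  rw [mul_pow, coeff_mul, Finset.Nat.sum_antidiagonal_eq_sum_range_succ
    (fun i j => ((X - C 1) ^ (q - 2) : F[X]).coeff i * ((X - C t) ^ (q - 2) : F[X]).coeff j)]

include hq hf in
theorem upoly_zero (h5 : 5 ≤ q) (t : F) : (upoly q t).coeff 0 = t ^ (q - 2) := by
  rw [coeff_upoly, zero_add, Finset.sum_range_one, coeff_sub_pow_two hq hf,
    coeff_sub_pow_two hq hf, if_pos (by omega), if_pos (by omega)]
  simp

include hq hf in
theorem upoly_one (h5 : 5 ≤ q) (t : F) :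
    (upoly q t).coeff 1 = 2 * (1 + t) * t ^ (q - 3) := by
  rw [coeff_upoly, Finset.sum_range_succ, Finset.sum_range_one]
  simp only [coeff_sub_pow_two hq hf]
  rw [if_pos (by omega), if_pos (by omega), if_pos (by omega), if_pos (by omega)]
  have h1 : t ^ (q - 2 - (1 - 1)) = t * t ^ (q - 3) := by
    rw [← pow_succ']
    congr 1
    omega
  have h2 : q - 2 - (1 - 0) = q - 3 := by omega
  rw [h1, h2]
  simp only [one_pow, mul_one]
  push_cast
  ring

include hq hf in
theorem upoly_q (h5 : 5 ≤ q) (t : F) :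
    (1 - t) ^ 3 * (upoly q t).coeff q = -(3 - t + t ^ (q - 2) - 3 * t ^ (q - 1)) := by
  obtain ⟨r, hr⟩ := Nat.exists_eq_add_of_le (show 3 ≤ q by omega)
  have hc := cast_q' (F := F) hq hf
  have hrF : (r : F) = -3 := by
    rw [hr] at hc
    push_cast at hc
    linear_combination hc
  have h1 : (upoly q t).coeff q = - ∑ b ∈ Finset.range r, ((b : F) + 1) * ((b : F) + 3) * t ^ b := by
    rw [coeff_upoly, ← Finset.sum_neg_distrib]
    have h2 : q + 1 = r + 1 + 1 + 1 + 1 := by omega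
    rw [h2, Finset.sum_range_succ, Finset.sum_range_succ, Finset.sum_range_succ',
      Finset.sum_range_succ']
    simp only [coeff_sub_pow_two hq hf]
    rw [if_neg (c := q - 0 + 1 < q) (by omega), if_neg (c := q - (0 + 1) + 1 < q) (by omega),
      if_neg (c := r + 1 + 1 + 1 < q) (by omega),
      if_neg (c := r + 1 + 1 + 1 + 1 < q) (by omega)]
    simp only [mul_zero, zero_mul, add_zero]
    refine Finset.sum_congr rfl fun b hb => ?_
    rw [Finset.mem_range] at hb
    rw [if_pos (by omega), if_pos (by omega), one_pow]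
    have h3 : q - 2 - (q - (b + 1 + 1)) = b := by omega
    have h4 : ((q - (b + 1 + 1) : ℕ) : F) = -((b : F) + 2) := by
      rw [Nat.cast_sub (by omega), hc]
      push_cast
      ring
    rw [h3, h4]
    push_cast
    ring
  rw [h1, mul_neg, sum_quad_one, hrF]
  have h5 : t ^ (q - 2) = t ^ r * t := by
    rw [← pow_succ]; congr 1; omega
  have h6 : t ^ (q - 1) = t ^ r * t ^ 2 := by
    rw [← pow_add]; congr 1; omega
  rw [h5, h6]
  ring

include hq hf in
theorem upoly_q1 (h5 : 5 ≤ q) (t : F) :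
    (1 - t) ^ 3 * (upoly q t).coeff (q + 1) =
      -(4 - 2 * t + 2 * t ^ (q - 3) - 4 * t ^ (q - 2)) := by
  obtain ⟨r, hr⟩ := Nat.exists_eq_add_of_le (show 4 ≤ q by omega)
  have hc := cast_q' (F := F) hq hf
  have hrF : (r : F) = -4 := by
    rw [hr] at hc
    push_cast at hc
    linear_combination hc
  have h1 : (upoly q t).coeff (q + 1) =
      - ∑ b ∈ Finset.range r, ((b : F) + 1) * ((b : F) + 4) * t ^ b := by
    rw [coeff_upoly, ← Finset.sum_neg_distrib]
    have h2 : q + 1 + 1 = r + 1 + 1 + 1 + 1 + 1 + 1 := by omega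
    rw [h2, Finset.sum_range_succ, Finset.sum_range_succ, Finset.sum_range_succ,
      Finset.sum_range_succ', Finset.sum_range_succ', Finset.sum_range_succ']
    simp only [coeff_sub_pow_two hq hf]
    rw [if_neg (c := q + 1 - 0 + 1 < q) (by omega), if_neg (c := q + 1 - (0 + 1) + 1 < q) (by omega),
      if_neg (c := q + 1 - (0 + 1 + 1) + 1 < q) (by omega),
      if_neg (c := r + 1 + 1 + 1 + 1 < q) (by omega),
      if_neg (c := r + 1 + 1 + 1 + 1 + 1 < q) (by omega),
      if_neg (c := r + 1 + 1 + 1 + 1 + 1 + 1 < q) (by omega)]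
    simp only [mul_zero, zero_mul, add_zero]
    refine Finset.sum_congr rfl fun b hb => ?_
    rw [Finset.mem_range] at hb
    rw [if_pos (by omega), if_pos (by omega), one_pow]
    have h3 : q - 2 - (q + 1 - (b + 1 + 1 + 1)) = b := by omega
    have h4 : ((q + 1 - (b + 1 + 1 + 1) : ℕ) : F) = -((b : F) + 2) := by
      rw [Nat.cast_sub (by omega)]
      push_cast
      rw [hc]
      ring
    rw [h3, h4]
    push_cast
    ring
  rw [h1, mul_neg, sum_quad_two, hrF]
  have h5 : t ^ (q - 3) = t ^ r * t := by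
    rw [← pow_succ]; congr 1; omega
  have h6 : t ^ (q - 2) = t ^ r * t ^ 2 := by
    rw [← pow_add]; congr 1; omega
  rw [h5, h6]
  ring

/-- the matrix in closed form -/
noncomputable def Mx (t s : F) : Matrix (Fin 2) (Fin 2) F :=
  !![2 * (1 + t) * (s / t ^ 3), s / t ^ 2;
    -(4 - 2 * t + 2 * (s / t ^ 3) - 4 * (s / t ^ 2)) / (1 - t) ^ 3,
    -(3 - t + s / t ^ 2 - 3 * (s / t)) / (1 - t) ^ 3]

/-- the polynomial `(x (x - 1) (x - t)) ^ (q - 2)` -/
noncomputable def hpoly (q : ℕ) (t : F) : F[X] := (X * ((X - C 1) * (X - C t))) ^ (q - 2)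

theorem natDegree_hpoly (q : ℕ) (h5 : 5 ≤ q) (t : F) :
    (hpoly q t).natDegree < (q - 1) * (2 + 1) := by
  unfold hpoly
  have h1 : (X * ((X - C 1) * (X - C t)) : F[X]).natDegree ≤ 3 := by
    refine natDegree_mul_le.trans ?_
    have h2 := natDegree_mul_le (p := (X - C (1 : F))) (q := (X - C t))
    rw [natDegree_X_sub_C, natDegree_X_sub_C] at h2
    have h3 := natDegree_X_le (R := F)
    omega
  have h2 := natDegree_pow_le (p := (X * ((X - C 1) * (X - C t)) : F[X])) (n := q - 2)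
  have h3 : (q - 2) * (X * ((X - C 1) * (X - C t)) : F[X]).natDegree ≤ (q - 2) * 3 :=
    Nat.mul_le_mul_left _ h1
  omega

include hq hf in
theorem kmat_hpoly (h5 : 5 ≤ q) {t : F} (h0 : t ≠ 0) (h1 : t ≠ 1) (x y : Fin 2 × Unit) :
    kmat q 2 (one' (hpoly q t)) x y = Mx t (t ^ q) x.1 y.1 := by
  have h1' : (1 : F) - t ≠ 0 := sub_ne_zero.2 h1.symm
  have e2 : t ^ (q - 2) = t ^ q / t ^ 2 := by
    rw [eq_div_iff (pow_ne_zero 2 h0), ← pow_add]
    congr 1; omega
  have e3 : t ^ (q - 3) = t ^ q / t ^ 3 := by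
    rw [eq_div_iff (pow_ne_zero 3 h0), ← pow_add]
    congr 1; omega
  have e1 : t ^ (q - 1) = t ^ q / t := by
    rw [eq_div_iff h0, ← pow_succ]
    congr 1; omega
  have hk : kmat q 2 (one' (hpoly q t)) x y =
      (X ^ (q - 1 + (y.1 : ℕ)) * upoly q t).coeff (q * ((x.1 : ℕ) + 1)) := by
    unfold kmat one' hpoly upoly
    rw [Matrix.of_apply, Matrix.of_apply, mul_pow X, ← mul_assoc, ← pow_add]
    congr 3
    omega
  rw [hk, coeff_X_pow_mul']
  obtain ⟨⟨x, hx⟩, _⟩ := x
  obtain ⟨⟨y, hy⟩, _⟩ := y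
  have hx' : x = 0 ∨ x = 1 := by omega
  have hy' : y = 0 ∨ y = 1 := by omega
  rcases hx' with rfl | rfl
  · rcases hy' with rfl | rfl
    · dsimp only
      rw [if_pos (by omega), show q * (0 + 1) - (q - 1 + 0) = 1 by omega, upoly_one hq hf h5, e3]
      rfl
    · dsimp only
      rw [if_pos (by omega), show q * (0 + 1) - (q - 1 + 1) = 0 by omega, upoly_zero hq hf h5, e2]
      rfl
  · rcases hy' with rfl | rfl
    · dsimp only
      rw [if_pos (by omega), show q * (1 + 1) - (q - 1 + 0) = q + 1 by omega]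
      have h6 := upoly_q1 hq hf h5 t
      rw [e3, e2] at h6
      rw [eq_div_of_mul_eq (pow_ne_zero 3 h1') ((mul_comm _ _).trans h6)]
      rfl
    · dsimp only
      rw [if_pos (by omega), show q * (1 + 1) - (q - 1 + 1) = q by omega]
      have h6 := upoly_q hq hf h5 t
      rw [e2, e1] at h6
      rw [eq_div_of_mul_eq (pow_ne_zero 3 h1') ((mul_comm _ _).trans h6)]
      rfl

end coeffs

section conj

variable {F : Type} [Field F]

/-- the matrix `6 Φ` -/
def Ph (t : F) : Matrix (Fin 2) (Fin 2) F := !![3 * t - 2, 1; t ^ 3, 3 * t ^ 2 - 2 * t ^ 3]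

/-- the change of coordinates -/
noncomputable def Bm (t : F) : Matrix (Fin 2) (Fin 2) F :=
  !![(1 - t)⁻¹, (1 - t)⁻¹; -(t * (1 - t))⁻¹, -(1 - t)⁻¹]

theorem conj_id {t s : F} (h0 : t ≠ 0) (h1 : t ≠ 1) (h2 : s ≠ 0) (h3 : s ≠ 1) :
    (Ph t).transpose * Bm s * Mx t s = (6 : F) • Bm t := by
  have h1' : (1 : F) - t ≠ 0 := sub_ne_zero.2 h1.symm
  have h3' : (1 : F) - s ≠ 0 := sub_ne_zero.2 h3.symm
  refine Matrix.ext fun i j => ?_
  fin_cases i <;> fin_cases j <;>
  simp [Ph, Bm, Mx, Matrix.mul_apply, Fin.sum_univ_two, Matrix.transpose_apply] <;>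
  field_simp <;> ring

theorem det_Bm {t : F} (h0 : t ≠ 0) (h1 : t ≠ 1) : (Bm t).det = (t * (1 - t))⁻¹ := by
  have h1' : (1 : F) - t ≠ 0 := sub_ne_zero.2 h1.symm
  unfold Bm
  rw [Matrix.det_fin_two_of]
  field_simp
  ring

theorem det_Ph (t : F) : (Ph t).det = -6 * (t * (1 - t)) ^ 2 := by
  unfold Ph
  rw [Matrix.det_fin_two_of]
  ring

end conj

end Pool.Agent.Y709
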