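import Pool.Agent.TH658.Eq.Newt
import Pool.Agent.Y709.Log

/-!
Newton's identities over commutative rings (after Pool.Agent.TH658.Eq.Newt).
-/

set_option autoImplicit false

namespace Pool.Agent.Y709

open Finset Polynomial

variable {ι : Type} [Fintype ι] [DecidableEq ι] {R : Type} [CommRing R]

/-- the resolvent as a matrix of power series -/
noncomputable def resolv (A : Matrix ι ι R) : Matrix ι ι (PowerSeries R) :=
  Matrix.of fun i j => PowerSeries.mk fun k => (A ^ k) i j

theorem resolv_mul (A : Matrix ι ι R) :
    ((1 - (X : R[X]) • A.map C).map (coeToPowerSeries.ringHom (R := R))) * resolv A = 1 := by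
  have h1 : (1 - (X : R[X]) • A.map C).map (coeToPowerSeries.ringHom (R := R)) =
      1 - (PowerSeries.X : PowerSeries R) • A.map (PowerSeries.C) := by
    refine Matrix.ext fun i j => ?_
    rw [Matrix.map_apply, Matrix.sub_apply, Matrix.sub_apply, Matrix.smul_apply,
      Matrix.smul_apply, Matrix.map_apply, Matrix.map_apply, map_sub, smul_eq_mul, smul_eq_mul,
      map_mul, Matrix.one_apply, Matrix.one_apply]
    congr 1
    · split_ifs
      · rw [map_one]
      · rw [map_zero]
    · rw [coeToPowerSeries.ringHom_apply, coeToPowerSeries.ringHom_apply, coe_X, coe_C]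
  rw [h1, sub_mul, one_mul, smul_mul_assoc]
  refine Matrix.ext fun i j => ?_
  refine PowerSeries.ext fun k => ?_
  rw [Matrix.sub_apply, Matrix.smul_apply, Matrix.mul_apply, map_sub, smul_eq_mul]
  unfold resolv
  rw [Matrix.of_apply, PowerSeries.coeff_mk]
  rcases k with _ | k
  · rw [PowerSeries.coeff_zero_X_mul, sub_zero, pow_zero, Matrix.one_apply, Matrix.one_apply]
    split_ifs
    · rw [PowerSeries.coeff_zero_one]
    · rw [map_zero]
  · rw [PowerSeries.coeff_succ_X_mul, map_sum, pow_succ', Matrix.mul_apply]
    have h2 : ∀ x, PowerSeries.coeff k (A.map (PowerSeries.C) i x *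
        Matrix.of (fun i j => PowerSeries.mk fun k => (A ^ k) i j) x j) =
        A i x * (A ^ k) x j := by
      intro x
      rw [Matrix.map_apply, PowerSeries.coeff_C_mul, Matrix.of_apply, PowerSeries.coeff_mk]
    rw [Finset.sum_congr rfl (fun x _ => h2 x), sub_self, Matrix.one_apply]
    split_ifs
    · rw [PowerSeries.coeff_one, if_neg (Nat.succ_ne_zero k)]
    · rw [map_zero]

/-- the power sums of the eigenvalues -/
noncomputable def psum (A : Matrix ι ι R) : PowerSeries R :=
  PowerSeries.mk fun n => if n = 0 then 0 else (A ^ n).trace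

theorem coeff_psum (A : Matrix ι ι R) (n : ℕ) :
    PowerSeries.coeff n (psum A) = if n = 0 then 0 else (A ^ n).trace := PowerSeries.coeff_mk _ _

/-- Newton's identities for the reversed characteristic polynomial -/
theorem lg_charpolyRev (A : Matrix ι ι R) : Lg (A.charpolyRev : PowerSeries R) (psum A) := by
  set N : Matrix ι ι R[X] := 1 - (X : R[X]) • A.map C with hN
  have hdet : A.charpolyRev = N.det := rfl
  have h1 := Pool.Agent.TH658.Eq.jacobi N
  have h2 : N.map derivative = - A.map C := by
    refine Matrix.ext fun i j => ?_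
    rw [Matrix.map_apply, hN, Matrix.sub_apply, Matrix.smul_apply, Matrix.neg_apply,
      Matrix.map_apply, derivative_sub, smul_eq_mul, derivative_mul, derivative_X, one_mul,
      derivative_C, mul_zero, add_zero, Matrix.one_apply]
    split_ifs
    · rw [derivative_one, zero_sub]
    · rw [derivative_zero, zero_sub]
  rw [h2] at h1
  have h3 := congrArg (coeToPowerSeries.ringHom (R := R)) h1
  have h4 : (coeToPowerSeries.ringHom (R := R)) ((N.adjugate * -A.map C).trace) =
      ((N.adjugate.map (coeToPowerSeries.ringHom (R := R))) *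
        -(A.map (PowerSeries.C))).trace := by
    have h5 : ∀ M : Matrix ι ι R[X], (coeToPowerSeries.ringHom (R := R)) M.trace =
        (M.map (coeToPowerSeries.ringHom (R := R))).trace := by
      intro M
      unfold Matrix.trace
      rw [map_sum]
      rfl
    rw [h5, Matrix.map_mul]
    congr 2
    refine Matrix.ext fun i j => ?_
    rw [Matrix.map_apply, Matrix.neg_apply, Matrix.neg_apply, map_neg, Matrix.map_apply,
      Matrix.map_apply, coeToPowerSeries.ringHom_apply, coe_C]
  rw [h4] at h3
  have h5 : N.adjugate.map (coeToPowerSeries.ringHom (R := R)) =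
      (coeToPowerSeries.ringHom (R := R) N.det) • resolv A := by
    have h6 : N.adjugate.map (coeToPowerSeries.ringHom (R := R)) *
        N.map (coeToPowerSeries.ringHom (R := R)) =
        (coeToPowerSeries.ringHom (R := R) N.det) • (1 : Matrix ι ι (PowerSeries R)) := by
      rw [← Matrix.map_mul, Matrix.adjugate_mul]
      refine Matrix.ext fun i j => ?_
      rw [Matrix.map_apply, Matrix.smul_apply, Matrix.smul_apply, smul_eq_mul, smul_eq_mul,
        map_mul, Matrix.one_apply, Matrix.one_apply]
      congr 1
      split_ifs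
      · rw [map_one]
      · rw [map_zero]
    calc N.adjugate.map (coeToPowerSeries.ringHom (R := R))
        = N.adjugate.map (coeToPowerSeries.ringHom (R := R)) *
          (N.map (coeToPowerSeries.ringHom (R := R)) * resolv A) := by
          rw [hN, resolv_mul, mul_one]
      _ = _ := by rw [← mul_assoc, h6, smul_mul_assoc, one_mul]
  rw [h5, smul_mul_assoc, Matrix.trace_smul, Matrix.mul_neg, Matrix.trace_neg, smul_eq_mul] at h3
  have h6 : (resolv A * A.map (PowerSeries.C)).trace =
      PowerSeries.mk fun k => (A ^ (k + 1)).trace := by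
    refine PowerSeries.ext fun k => ?_
    rw [PowerSeries.coeff_mk]
    unfold Matrix.trace
    rw [map_sum]
    refine Finset.sum_congr rfl fun i _ => ?_
    rw [Matrix.diag_apply, Matrix.diag_apply, Matrix.mul_apply, map_sum, pow_succ,
      Matrix.mul_apply]
    refine Finset.sum_congr rfl fun j _ => ?_
    rw [Matrix.map_apply, mul_comm, PowerSeries.coeff_C_mul]
    unfold resolv
    rw [Matrix.of_apply, PowerSeries.coeff_mk, mul_comm]
  rw [h6, ← hdet] at h3
  unfold Lg
  rw [PowerSeries.derivative_coe]
  rw [coeToPowerSeries.ringHom_apply, coeToPowerSeries.ringHom_apply] at h3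
  rw [h3]
  have h7 : psum A = PowerSeries.X * PowerSeries.mk fun k => (A ^ (k + 1)).trace := by
    ext n
    rcases n with _ | n
    · rw [psum, PowerSeries.coeff_mk, if_pos rfl, PowerSeries.coeff_zero_X_mul]
    · rw [psum, PowerSeries.coeff_mk, if_neg (Nat.succ_ne_zero n), PowerSeries.coeff_succ_X_mul,
        PowerSeries.coeff_mk]
  rw [h7]
  ring

theorem constantCoeff_charpolyRev (A : Matrix ι ι R) :
    PowerSeries.constantCoeff (A.charpolyRev : PowerSeries R) = 1 := by
  rw [Polynomial.constantCoeff_coe, coeff_zero_eq_eval_zero, Matrix.eval_charpolyRev]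

theorem map_charpolyRev {R' : Type} [CommRing R'] (φ : R →+* R') (A : Matrix ι ι R) :
    (A.charpolyRev).map φ = (A.map φ).charpolyRev := by
  unfold Matrix.charpolyRev
  rw [← coe_mapRingHom, RingHom.map_det]
  congr 1
  refine Matrix.ext fun i j => ?_
  rw [RingHom.mapMatrix_apply, Matrix.map_apply, Matrix.sub_apply, Matrix.sub_apply,
    Matrix.smul_apply, Matrix.smul_apply, Matrix.map_apply, Matrix.map_apply, Matrix.map_apply,
    smul_eq_mul, smul_eq_mul, coe_mapRingHom, Polynomial.map_sub, Polynomial.map_mul, map_X, map_C,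
    Matrix.one_apply, Matrix.one_apply]
  congr 1
  split_ifs
  · rw [Polynomial.map_one]
  · rw [Polynomial.map_zero]

end Pool.Agent.Y709
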