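import Mathlib.FieldTheory.Finite.Basic
import Mathlib.RingTheory.IntegralDomain
import Mathlib.Algebra.Polynomial.Eval.Degree

/-!
Sums of the values of a polynomial at the Teichmueller representatives.
-/

set_option autoImplicit false

open Polynomial

namespace Pool.Agent.Y709

variable {E : Type} [Field E] [Fintype E] {R : Type} [CommRing R] [IsDomain R]

theorem sum_pow_units' (τ : E →* R) (hτ : Function.Injective τ) (j : ℕ) [DecidableEq E] :
    ∑ u : Eˣ, τ (u : E) ^ j = if Fintype.card E - 1 ∣ j then ((Fintype.card E : R) - 1) else 0 := by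
  classical
  let f : Eˣ →* R := (powMonoidHom j).comp (τ.comp (Units.coeHom E))
  have hf : ∀ u, f u = τ (u : E) ^ j := fun u => rfl
  have h1 := sum_hom_units f
  have h2 : f = 1 ↔ Fintype.card E - 1 ∣ j := by
    rw [← FiniteField.forall_pow_eq_one_iff E j]
    constructor
    · intro h u
      have h3 : τ ((u : E) ^ j) = τ 1 := by
        rw [map_pow, ← hf u, h, map_one, MonoidHom.one_apply]
      apply Units.ext
      rw [Units.val_pow_eq_pow_val, Units.val_one]
      exact hτ h3
    · intro h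
      ext u
      rw [hf, ← map_pow, ← Units.val_pow_eq_pow_val, h u, Units.val_one, map_one,
        MonoidHom.one_apply]
  simp only [hf] at h1
  rw [h1]
  by_cases h : Fintype.card E - 1 ∣ j
  · rw [if_pos (h2.2 h), if_pos h, Fintype.card_units, Nat.cast_sub Fintype.card_pos, Nat.cast_one]
  · rw [if_neg (fun h' => h (h2.1 h')), if_neg h, Nat.cast_zero]

theorem sum_pow' (τ : E →* R) (hτ : Function.Injective τ) (h0 : τ 0 = 0) {j : ℕ} (hj : j ≠ 0) :
    ∑ u : E, τ u ^ j = if Fintype.card E - 1 ∣ j then ((Fintype.card E : R) - 1) else 0 := by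
  classical
  rw [← sum_pow_units' τ hτ j]
  have h1 : ∑ u : E, τ u ^ j = ∑ u ∈ Finset.univ.erase (0 : E), τ u ^ j := by
    rw [← Finset.add_sum_erase _ _ (Finset.mem_univ (0 : E)), h0, zero_pow hj, zero_add]
  rw [h1]
  symm
  refine Finset.sum_bij (fun (u : Eˣ) _ => (u : E)) ?_ ?_ ?_ ?_
  · intro u _
    rw [Finset.mem_erase]
    exact ⟨u.ne_zero, Finset.mem_univ _⟩
  · intro u _ v _ h
    exact Units.ext h
  · intro u hu
    rw [Finset.mem_erase] at hu
    exact ⟨Units.mk0 u hu.1, Finset.mem_univ _, rfl⟩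
  · intro u _
    rfl

theorem sum_eval (τ : E →* R) (hτ : Function.Injective τ) (h0 : τ 0 = 0) (g : R[X]) (m : ℕ)
    (hg : g.natDegree ≤ (Fintype.card E - 1) * m) :
    ∑ u : E, g.eval (τ u) = (Fintype.card E : R) * g.coeff 0 +
      ((Fintype.card E : R) - 1) *
        ∑ i ∈ Finset.range m, g.coeff ((Fintype.card E - 1) * (i + 1)) := by
  classical
  have hQ : 0 < Fintype.card E - 1 := by
    have := Fintype.one_lt_card (α := E)
    omega
  have h1 : ∀ u : E, g.eval (τ u) =
      ∑ j ∈ Finset.range ((Fintype.card E - 1) * m + 1), g.coeff j * τ u ^ j := by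
    intro u
    exact eval_eq_sum_range' (by omega) _
  simp only [h1]
  rw [Finset.sum_comm]
  simp only [← Finset.mul_sum]
  rw [Finset.sum_range_succ']
  simp only [pow_zero, Finset.sum_const, Finset.card_univ, nsmul_eq_mul, mul_one]
  rw [add_comm, mul_comm (g.coeff 0)]
  congr 1
  have h2 : ∀ j, ∑ u : E, τ u ^ (j + 1) =
      if Fintype.card E - 1 ∣ j + 1 then ((Fintype.card E : R) - 1) else 0 := fun j =>
    sum_pow' τ hτ h0 (Nat.succ_ne_zero j)
  simp only [h2, mul_ite, mul_zero]
  rw [← Finset.sum_filter, Finset.mul_sum]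
  symm
  refine Finset.sum_bij (fun i _ => (Fintype.card E - 1) * (i + 1) - 1) ?_ ?_ ?_ ?_
  · intro i hi
    rw [Finset.mem_range] at hi
    have h3 : (Fintype.card E - 1) * (i + 1) ≤ (Fintype.card E - 1) * m :=
      Nat.mul_le_mul_left _ hi
    have h4 : 0 < (Fintype.card E - 1) * (i + 1) := Nat.mul_pos hQ (Nat.succ_pos i)
    rw [Finset.mem_filter, Finset.mem_range]
    refine ⟨by omega, ?_⟩
    rw [Nat.sub_add_cancel h4]
    exact dvd_mul_right _ _
  · intro i _ i' _ h
    have h4 : 0 < (Fintype.card E - 1) * (i + 1) := Nat.mul_pos hQ (Nat.succ_pos i)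
    have h5 : 0 < (Fintype.card E - 1) * (i' + 1) := Nat.mul_pos hQ (Nat.succ_pos i')
    have h6 : (Fintype.card E - 1) * (i + 1) = (Fintype.card E - 1) * (i' + 1) := by
      have h' : (Fintype.card E - 1) * (i + 1) - 1 = (Fintype.card E - 1) * (i' + 1) - 1 := h
      omega
    have := Nat.eq_of_mul_eq_mul_left hQ h6
    omega
  · intro j hj
    rw [Finset.mem_filter, Finset.mem_range] at hj
    obtain ⟨hj1, c, hc⟩ := hj
    have hc0 : c ≠ 0 := by
      rintro rfl
      rw [mul_zero] at hc
      omega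
    refine ⟨c - 1, ?_, ?_⟩
    · rw [Finset.mem_range]
      have h3 : (Fintype.card E - 1) * c ≤ (Fintype.card E - 1) * m := by omega
      have := Nat.le_of_mul_le_mul_left h3 hQ
      omega
    · show (Fintype.card E - 1) * (c - 1 + 1) - 1 = j
      rw [Nat.sub_add_cancel (Nat.pos_of_ne_zero hc0)]
      omega
  · intro i _
    have h4 : 0 < (Fintype.card E - 1) * (i + 1) := Nat.mul_pos hQ (Nat.succ_pos i)
    show ((Fintype.card E : R) - 1) * g.coeff ((Fintype.card E - 1) * (i + 1)) =
      g.coeff ((Fintype.card E - 1) * (i + 1) - 1 + 1) * ((Fintype.card E : R) - 1)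
    rw [Nat.sub_add_cancel h4, mul_comm]

end Pool.Agent.Y709
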