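import Pool.Agent.Y709.Path
import Pool.Agent.Y709.ClPt
import Pool.Agent.Y709.Teich
import Pool.Agent.Y709.Newt

/-!
The trace formula for the operators `ψ ∘ M` on the line, in characteristic zero.
-/

set_option autoImplicit false

open Polynomial Module

namespace Pool.Agent.Y709

open Pool.Agent.W313.Hyp Pool.Agent.W343.BSD

section mat

variable {S κ : Type} [CommRing S] [Fintype κ] [DecidableEq κ]

theorem mprod_map {S' : Type} [CommRing S'] (φ : S →+* S') (F : ℕ → Matrix κ κ S) (n : ℕ) :
    (mprod F n).map φ = mprod (fun j => (F j).map φ) n := by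
  induction n with
  | zero =>
    show (1 : Matrix κ κ S).map φ = 1
    exact Matrix.map_one φ (map_zero φ) (map_one φ)
  | succ n ih => rw [mprod_succ, mprod_succ, Matrix.map_mul, ih]

theorem mprod_shift (F : ℕ → Matrix κ κ S) (n : ℕ) :
    mprod F (n + 1) = mprod (fun j => F (j + 1)) n * F 0 := by
  induction n with
  | zero =>
    show F 0 * 1 = 1 * F 0
    rw [mul_one, one_mul]
  | succ n ih =>
    rw [mprod_succ, ih, mprod_succ, mul_assoc]

theorem trace_mprod_shift_one {F : ℕ → Matrix κ κ S} {n : ℕ} (hF : ∀ j, F (j + n) = F j) :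
    (mprod (fun j => F (j + 1)) n).trace = (mprod F n).trace := by
  rcases n with _ | n
  · rfl
  · rw [mprod_succ, mprod_shift F n, Matrix.trace_mul_comm]
    have : F (n + 1) = F 0 := by
      have := hF 0
      rwa [zero_add] at this
    rw [this]

theorem trace_mprod_shift {F : ℕ → Matrix κ κ S} {n : ℕ} (hF : ∀ j, F (j + n) = F j) (i : ℕ) :
    (mprod (fun j => F (j + i)) n).trace = (mprod F n).trace := by
  induction i with
  | zero => rfl
  | succ i ih =>
    rw [← ih]
    have := trace_mprod_shift_one (F := fun j => F (j + i)) (n := n) (fun j => by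
      show F (j + n + i) = F (j + i)
      rw [show j + n + i = j + i + n by ring]
      exact hF _)
    rw [← this]
    congr 2
    funext j
    show F (j + (i + 1)) = F (j + 1 + i)
    congr 1
    ring

theorem mprod_add (F : ℕ → Matrix κ κ S) (a b : ℕ) :
    mprod F (a + b) = mprod (fun j => F (j + b)) a * mprod F b := by
  induction a with
  | zero =>
    rw [zero_add]
    show _ = 1 * _
    rw [one_mul]
  | succ a ih =>
    rw [show a + 1 + b = (a + b) + 1 by ring, mprod_succ, ih, mprod_succ, mul_assoc]

theorem mprod_mul {F : ℕ → Matrix κ κ S} {d : ℕ} (hF : ∀ j, F (j + d) = F j) (l : ℕ) :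
    mprod F (l * d) = mprod F d ^ l := by
  induction l with
  | zero => rw [zero_mul, pow_zero]; rfl
  | succ l ih =>
    rw [Nat.succ_mul, mprod_add, pow_succ]
    have : (fun j => F (j + d)) = F := funext hF
    rw [this, ih]

theorem mprod_const (A : Matrix κ κ S) (n : ℕ) : mprod (fun _ => A) n = A ^ n := by
  have := mprod_mul (F := fun _ => A) (d := 1) (fun _ => rfl) n
  rw [mul_one] at this
  rw [this]
  congr 1
  show A * 1 = A
  rw [mul_one]

end mat

variable {R : Type} [CommRing R] {ι : Type} [Fintype ι] [DecidableEq ι]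

/-- the matrix at a point -/
noncomputable def at' (M : Matrix ι ι R[X]) (z : R) : Matrix ι ι R := M.map (evalRingHom z)

theorem gprod_at (q : ℕ) (M : Matrix ι ι R[X]) (n : ℕ) (z : R) :
    at' (gprod q (fun _ => M) n) z = mprod (fun j => at' M (z ^ (q ^ j))) n := by
  unfold gprod at'
  rw [mprod_map]
  congr 1
  funext j
  refine Matrix.ext fun a b => ?_
  rw [Matrix.map_apply, Matrix.map_apply, Matrix.map_apply, coe_evalRingHom, expand_eval]
  rfl

theorem trace_at (M : Matrix ι ι R[X]) (z : R) : (at' M z).trace = M.trace.eval z := by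
  unfold Matrix.trace at'
  rw [← coe_evalRingHom, map_sum]
  rfl

theorem gprod_at_zero {q : ℕ} (hq : 0 < q) (M : Matrix ι ι R[X]) (n : ℕ) :
    at' (gprod q (fun _ => M) n) 0 = (at' M 0) ^ n := by
  rw [gprod_at, ← mprod_const]
  congr 1
  funext j
  rw [zero_pow (pow_pos hq j).ne']

section formula

variable [IsDomain R]

/-- the sum of the traces over a finite field -/
theorem sum_trace_gen {E : Type} [Field E] [Fintype E] (τ : E →* R) (hτ : Function.Injective τ)
    (h0 : τ 0 = 0) {q m n : ℕ} (hq : 1 < q) (hn : 0 < n) (hE : Fintype.card E = q ^ n)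
    (G : ℕ → Matrix ι ι R[X]) (hG : ∀ j a b, (G j a b).natDegree < (q - 1) * (m + 1)) :
    ∑ u : E, ((gprod q G n).trace).eval (τ u) =
      (q : R) ^ n * ((gprod q G n).trace).coeff 0 +
        ((q : R) ^ n - 1) * (mprod (fun j => kmat q m (G j)) n).trace := by
  have hq0 : 0 < q := by omega
  have h1 := natDegree_trace_gprod hq0 hG hn (Nat.mul_pos (by omega) (Nat.succ_pos m))
  rw [sum_eval τ hτ h0 _ (m + 1) (by rw [hE]; exact h1.le), hE, Nat.cast_pow,
    trace_mprod_kmat hq0 hG n, Finset.sum_range_succ, coeff_eq_zero_of_natDegree_lt h1, add_zero]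

theorem sum_trace {E : Type} [Field E] [Fintype E] (τ : E →* R) (hτ : Function.Injective τ)
    (h0 : τ 0 = 0) {q m n : ℕ} (hq : 1 < q) (hn : 0 < n) (hE : Fintype.card E = q ^ n)
    (M : Matrix ι ι R[X]) (hM : ∀ a b, (M a b).natDegree < (q - 1) * (m + 1)) :
    ∑ u : E, (mprod (fun j => at' M (τ u ^ (q ^ j))) n).trace =
      (q : R) ^ n * ((at' M 0) ^ n).trace + ((q : R) ^ n - 1) * ((kmat q m M) ^ n).trace := by
  have h1 : ∀ u : E, (mprod (fun j => at' M (τ u ^ (q ^ j))) n).trace =
      ((gprod q (fun _ => M) n).trace).eval (τ u) := by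
    intro u
    rw [← trace_at, gprod_at]
  simp only [h1]
  rw [sum_trace_gen τ hτ h0 hq hn hE (fun _ => M) (m := m) (fun _ => hM), mprod_const]
  congr 2
  rw [coeff_zero_eq_eval_zero, ← trace_at, gprod_at_zero (by omega)]

variable {k : Type} [Field k] [Finite k] {K : Type} [Field K] [Algebra k K] [IsAlgClosed K]
  [Algebra.IsAlgebraic k K]

/-- the product over the conjugates of a point -/
noncomputable def loc (τ : K →* R) (q : ℕ) (M : Matrix ι ι R[X]) (a : K) (d : ℕ) :
    Matrix ι ι R := mprod (fun j => at' M (τ a ^ (q ^ j))) d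

omit [IsDomain R] [IsAlgClosed K] [Algebra.IsAlgebraic k K] in
theorem root_pow (P : MI k) {a : K} (ha : aeval a P.1 = 0) {n : ℕ} (hn : P.1.natDegree ∣ n) :
    a ^ (Nat.card k ^ n) = a := by
  have h1 := P.2.2.natDegree_dvd_iff_dvd_X_pow_card_pow_sub_X.1 hn
  obtain ⟨c, hc⟩ := h1
  have h2 := congrArg (aeval a) hc
  rw [map_sub, map_mul, ha, zero_mul, map_pow, aeval_X, sub_eq_zero] at h2
  exact h2

theorem trace_loc (τ : K →* R) (M : Matrix ι ι R[X]) (P : MI k) {a b : K}
    (ha : aeval a P.1 = 0) (hb : aeval b P.1 = 0) {n : ℕ} (hn : P.1.natDegree ∣ n) :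
    (loc τ (Nat.card k) M b n).trace =
      ((loc τ (Nat.card k) M a P.1.natDegree) ^ (n / P.1.natDegree)).trace := by
  have hac : IsAlgClosure k K := ⟨inferInstance, inferInstance⟩
  have hnorm : Normal k K := IsAlgClosure.normal k K
  obtain ⟨i, rfl⟩ := exists_pow_root P ha hb
  unfold loc
  set q := Nat.card k with hq
  set F : ℕ → Matrix ι ι R := fun j => at' M (τ a ^ (q ^ j)) with hF
  have h1 : (fun j => at' M (τ (a ^ (q ^ i)) ^ (q ^ j))) = fun j => F (j + i) := by
    funext j
    rw [hF]
    show at' M _ = at' M _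
    rw [map_pow, ← pow_mul, ← pow_add, add_comm]
  have hper : ∀ d, P.1.natDegree ∣ d → ∀ j, F (j + d) = F j := by
    intro d hd j
    rw [hF]
    show at' M _ = at' M _
    rw [pow_add, mul_comm, pow_mul, ← map_pow, hq, root_pow P ha hd]
  rw [h1, trace_mprod_shift (hper n hn)]
  obtain ⟨l, hl⟩ := hn
  have hdpos : 0 < P.1.natDegree := MI.deg_pos P
  have h2 : n / P.1.natDegree = l := by
    rw [hl]
    exact Nat.mul_div_cancel_left l hdpos
  rw [h2, ← mprod_mul (hper _ dvd_rfl), hl, mul_comm l]

/-- the local factor -/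
noncomputable def locF (τ : K →* R) (q : ℕ) (M : Matrix ι ι R[X]) (a : K) (d : ℕ) (hd : d ≠ 0) :
    PowerSeries R := PowerSeries.expand d hd ((loc τ q M a d).charpolyRev : PowerSeries R)

theorem locF_mod (τ : K →* R) (q : ℕ) (M : Matrix ι ι R[X]) (a : K) (d : ℕ) (hd : d ≠ 0) :
    (PowerSeries.X : PowerSeries R) ^ d ∣ locF τ q M a d hd - 1 := by
  unfold locF
  rw [PowerSeries.X_pow_dvd_iff]
  intro m hm
  rw [map_sub]
  rcases Nat.eq_zero_or_pos m with h | h
  · subst h
    rw [PowerSeries.coeff_zero_eq_constantCoeff_apply, PowerSeries.constantCoeff_expand,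
      constantCoeff_charpolyRev, PowerSeries.coeff_zero_one, sub_self]
  · rw [PowerSeries.coeff_expand_of_not_dvd, PowerSeries.coeff_one, if_neg h.ne', sub_self]
    intro hd'
    have := Nat.le_of_dvd h hd'
    omega

theorem lg_locF (τ : K →* R) (q : ℕ) (M : Matrix ι ι R[X]) (a : K) (d : ℕ) (hd : d ≠ 0) :
    Lg (locF τ q M a d hd) ((d : PowerSeries R) * PowerSeries.expand d hd (psum (loc τ q M a d))) :=
  (lg_charpolyRev _).expand hd

theorem deg_ne (P : MI k) : P.1.natDegree ≠ 0 := (MI.deg_pos P).ne'

variable [CharZero R]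

/-- the trace formula -/
theorem formula (τ : K →* R) (hτ : Function.Injective τ) (h0 : τ 0 = 0) {q m : ℕ}
    (hq : Nat.card k = q) (M : Matrix ι ι R[X])
    (hM : ∀ a b, (M a b).natDegree < (q - 1) * (m + 1))
    (ρ : MI k → K) (hρ : ∀ P : MI k, aeval (ρ P) P.1 = 0) :
    eulerProd (fun P : MI k => P.1.natDegree)
        (fun P => locF τ q M (ρ P) P.1.natDegree (deg_ne P)) *
        ((kmat q m M).charpolyRev : PowerSeries R) =
      PowerSeries.rescale (q : R) ((kmat q m M).charpolyRev : PowerSeries R) *
        PowerSeries.rescale (q : R) ((at' M 0).charpolyRev : PowerSeries R) := by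
  classical
  have hqpos : 1 < q := by rw [← hq]; exact Finite.one_lt_card
  have hfin := fun n => finite_deg_le (F := k) n
  have hL := Lg.euler hfin (fun P => locF_mod τ q M (ρ P) P.1.natDegree (deg_ne P))
    (fun P => lg_locF τ q M (ρ P) P.1.natDegree (deg_ne P))
  have h1 := hL.mul (lg_charpolyRev (kmat q m M))
  have h2 := ((lg_charpolyRev (kmat q m M)).rescale (q : R)).mul
    ((lg_charpolyRev (at' M 0)).rescale (q : R))
  have hE1 : PowerSeries.constantCoeff (eulerProd (fun P : MI k => P.1.natDegree)
        (fun P => locF τ q M (ρ P) P.1.natDegree (deg_ne P))) = 1 := by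
    rw [← PowerSeries.coeff_zero_eq_constantCoeff_apply, coeff_eulerProd hfin]
    have h3 : (hfin 0).toFinset = ∅ := by
      rw [Set.Finite.toFinset_eq_empty]
      ext P
      simp only [Set.mem_setOf_eq, Set.mem_empty_iff_false, iff_false]
      have := MI.deg_pos P
      omega
    rw [h3, Finset.prod_empty, PowerSeries.coeff_zero_one]
  refine Lg.unique h1 ((congrArg (Lg _) ?_).mpr h2) ?_ ?_
  · ext n
    rw [map_add, map_add, PowerSeries.coeff_mk, PowerSeries.coeff_rescale,
      PowerSeries.coeff_rescale]
    rw [coeff_psum, coeff_psum]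
    rcases Nat.eq_zero_or_pos n with hn | hn
    · subst hn
      rw [if_pos rfl, if_pos rfl, mul_zero, add_zero, add_zero]
      refine Finset.sum_eq_zero fun P hP => ?_
      rw [Set.Finite.mem_toFinset] at hP
      have h4 := MI.deg_pos P
      have h5 : P.1.natDegree ≤ 0 := hP
      omega
    · rw [if_neg hn.ne', if_neg hn.ne']
      obtain ⟨p, hp⟩ := CharP.exists k
      have hpf : Fact (Nat.Prime p) := ⟨CharP.char_is_prime k p⟩
      have hnz : NeZero n := ⟨hn.ne'⟩
      have hEf : Fintype (FiniteField.Extension k p n) := Fintype.ofFinite _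
      let σ : FiniteField.Extension k p n →ₐ[k] K := IsAlgClosed.lift
      have hσ0 : (τ.comp (σ : FiniteField.Extension k p n →* K)) 0 = 0 := by
        show τ (σ 0) = 0
        rw [map_zero, h0]
      have h6 := sum_trace (R := R) (E := FiniteField.Extension k p n)
        (τ.comp (σ : FiniteField.Extension k p n →* K)) (hτ.comp (RingHom.injective
          (σ : FiniteField.Extension k p n →+* K))) hσ0 hqpos (n := n) hn (by
          rw [Fintype.card_eq_nat_card, FiniteField.natCard_extension, hq]) M hM
      have h7 := sum_closed (k := k) (E := FiniteField.Extension k p n) (n := n) (A := R)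
        (FiniteField.finrank_extension k p n)
        (fun u => (mprod (fun j => at' M
          ((τ.comp (σ : FiniteField.Extension k p n →* K)) u ^ (q ^ j))) n).trace)
        (fun P => if P.1.natDegree ∣ n then
          ((loc τ q M (ρ P) P.1.natDegree) ^ (n / P.1.natDegree)).trace else
          0) (by
          intro P θ hθ
          have hd : P.1.natDegree ∣ n := by
            rw [← FiniteField.finrank_extension k p n,
              minpoly.eq_of_irreducible_of_monic P.2.2 hθ P.2.1]
            exact minpoly.degree_dvd (IsIntegral.of_finite k θ)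
          rw [if_pos hd]
          have h8 := trace_loc τ M P (hρ P) (b := σ θ) (by
            rw [aeval_algHom_apply, hθ, map_zero]) hd
          rw [hq] at h8
          exact h8)
      have h9 : ∑ P ∈ (hfin n).toFinset, PowerSeries.coeff n ((P.1.natDegree : PowerSeries R) *
          PowerSeries.expand P.1.natDegree (deg_ne P) (psum (loc τ q M (ρ P) P.1.natDegree))) =
          ∑ P ∈ (finite_deg_le (F := k) n).toFinset,
            if P.1.natDegree ∣ n then P.1.natDegree • (if P.1.natDegree ∣ n then
              ((loc τ q M (ρ P) P.1.natDegree) ^ (n / P.1.natDegree)).trace else 0) else 0 := by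
        refine Finset.sum_congr rfl fun P _ => ?_
        rw [← map_natCast (PowerSeries.C (R := R)), PowerSeries.coeff_C_mul]
        split_ifs with hd
        · obtain ⟨l, hl⟩ := hd
          have hdpos := MI.deg_pos P
          have hl0 : l ≠ 0 := by
            rintro rfl
            rw [mul_zero] at hl
            omega
          have h10 : n / P.1.natDegree = l := by
            rw [hl]
            exact Nat.mul_div_cancel_left l hdpos
          rw [h10, hl, PowerSeries.coeff_expand_mul, coeff_psum, if_neg hl0,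
            nsmul_eq_mul]
        · rw [PowerSeries.coeff_expand_of_not_dvd _ _ _ hd, mul_zero]
      rw [h9, ← h7, h6]
      ring
  · rw [map_mul, hE1, constantCoeff_charpolyRev, one_mul]
  · rw [map_mul, ← PowerSeries.coeff_zero_eq_constantCoeff_apply,
      ← PowerSeries.coeff_zero_eq_constantCoeff_apply, PowerSeries.coeff_rescale,
      PowerSeries.coeff_rescale, PowerSeries.coeff_zero_eq_constantCoeff_apply,
      PowerSeries.coeff_zero_eq_constantCoeff_apply, constantCoeff_charpolyRev,
      constantCoeff_charpolyRev]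
    ring

end formula

end Pool.Agent.Y709
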